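import Pool.Agent.Q176.TC.Def

/-! Topology of the nilmanifold, lifts of functions. -/

set_option autoImplicit false

open MeasureTheory Set Filter Topology

namespace Q176.TC

instance : T2Space Heis := inferInstanceAs (T2Space (ℝ × ℝ × ℝ))
instance : SecondCountableTopology Heis := inferInstanceAs (SecondCountableTopology (ℝ × ℝ × ℝ))
instance : BorelSpace Heis := inferInstanceAs (BorelSpace (ℝ × ℝ × ℝ))

/-- the matrix with the entries `x`, `y`, `z` -/
noncomputable def hv (x y z : ℝ) : Heis := ((x, y, z) : ℝ × ℝ × ℝ)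

theorem pt_def (x y z : ℝ) : pt x y z = mk (hv x y z) := rfl

theorem hv_eta (g : Heis) : g = hv g.1 g.2.1 g.2.2 := rfl

theorem hv_ext {x y z x' y' z' : ℝ} (h1 : x = x') (h2 : y = y') (h3 : z = z') :
    hv x y z = hv x' y' z' := by rw [h1, h2, h3]

theorem mul_hv (x y z x' y' z' : ℝ) :
    hv x y z * hv x' y' z' = hv (x + x') (y + y') (z + z' + x * y') := rfl

theorem inv_hv (x y z : ℝ) : (hv x y z)⁻¹ = hv (-x) (-y) (-z + x * y) := rfl

theorem one_hv : (1 : Heis) = hv 0 0 0 := rfl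

theorem continuous_fst' : Continuous (fun g : Heis => g.1) :=
  (continuous_fst : Continuous (fun g : ℝ × ℝ × ℝ => g.1))

theorem continuous_snd' : Continuous (fun g : Heis => g.2.1) :=
  (continuous_snd.fst : Continuous (fun g : ℝ × ℝ × ℝ => g.2.1))

theorem continuous_thd' : Continuous (fun g : Heis => g.2.2) :=
  (continuous_snd.snd : Continuous (fun g : ℝ × ℝ × ℝ => g.2.2))

theorem continuous_mul' : Continuous (fun p : Heis × Heis => p.1 * p.2) := by
  have h1 := continuous_fst'.comp (continuous_fst (X := Heis) (Y := Heis))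
  have h2 := continuous_snd'.comp (continuous_fst (X := Heis) (Y := Heis))
  have h3 := continuous_thd'.comp (continuous_fst (X := Heis) (Y := Heis))
  have h4 := continuous_fst'.comp (continuous_snd (X := Heis) (Y := Heis))
  have h5 := continuous_snd'.comp (continuous_snd (X := Heis) (Y := Heis))
  have h6 := continuous_thd'.comp (continuous_snd (X := Heis) (Y := Heis))
  exact ((h1.add h4).prodMk ((h2.add h5).prodMk ((h3.add h6).add (h1.mul h5))) :
    Continuous (fun p : Heis × Heis => ((_, _, _) : ℝ × ℝ × ℝ)))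

theorem continuous_inv' : Continuous (fun g : Heis => g⁻¹) := by
  have h1 := continuous_fst'
  have h2 := continuous_snd'
  have h3 := continuous_thd'
  exact (h1.neg.prodMk (h2.neg.prodMk (h3.neg.add (h1.mul h2))) :
    Continuous (fun g : Heis => ((_, _, _) : ℝ × ℝ × ℝ)))

instance : ContinuousMul Heis := ⟨continuous_mul'⟩
instance : ContinuousInv Heis := ⟨continuous_inv'⟩
instance : IsTopologicalGroup Heis where

theorem mem_lat {g : Heis} : g ∈ Lat ↔ ∃ m n k : ℤ, g = ((m : ℝ), (n : ℝ), (k : ℝ)) := Iff.rfl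

theorem closed_lat : IsClosed (Lat : Set Heis) := by
  have h : (Lat : Set Heis) = {g : Heis | g.1 ∈ range ((↑) : ℤ → ℝ)} ∩
      ({g : Heis | g.2.1 ∈ range ((↑) : ℤ → ℝ)} ∩ {g : Heis | g.2.2 ∈ range ((↑) : ℤ → ℝ)}) := by
    ext g
    constructor
    · rintro ⟨m, n, k, rfl⟩
      exact ⟨⟨m, rfl⟩, ⟨n, rfl⟩, ⟨k, rfl⟩⟩
    · rintro ⟨⟨m, hm⟩, ⟨n, hn⟩, ⟨k, hk⟩⟩
      exact ⟨m, n, k, Prod.ext hm.symm (Prod.ext hn.symm hk.symm)⟩
  rw [h]
  have h0 : IsClosed (range ((↑) : ℤ → ℝ)) := Int.isClosedEmbedding_coe_real.isClosed_range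
  exact (h0.preimage continuous_fst').inter
    ((h0.preimage continuous_snd').inter (h0.preimage continuous_thd'))

theorem mk_eq {g h : Heis} : mk g = mk h ↔ h * g⁻¹ ∈ Lat :=
  (Quotient.eq (r := QuotientGroup.rightRel Lat)).trans QuotientGroup.rightRel_apply

theorem continuous_mk : Continuous mk := continuous_quotient_mk'

theorem measurable_mk : Measurable mk := continuous_mk.measurable

theorem surj_mk : Function.Surjective mk := Quotient.mk_surjective

theorem surj_pt (w : Nil) : ∃ x y z, w = pt x y z := by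
  obtain ⟨g, rfl⟩ := surj_mk w
  exact ⟨g.1, g.2.1, g.2.2, rfl⟩

theorem openQuot : IsOpenQuotientMap mk :=
  (MulAction.isOpenQuotientMap_quotientMk (Γ := Lat) (T := Heis) :)

instance : T2Space Nil := by
  rw [t2_iff_isClosed_diagonal]
  have h := openQuot.prodMap openQuot
  rw [← h.isQuotientMap.isClosed_preimage]
  have h1 : Prod.map mk mk ⁻¹' diagonal Nil
      = (fun p : Heis × Heis => p.2 * p.1⁻¹) ⁻¹' (Lat : Set Heis) := by
    ext ⟨g, k⟩
    exact mk_eq
  rw [h1]
  refine closed_lat.preimage ?_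
  exact continuous_snd.mul continuous_fst.inv

/-- Values of a function on the nilmanifold. -/
theorem pt_int (x y z : ℝ) (m n k : ℤ) : pt (x + m) (y + n) (z + k + m * y) = pt x y z := by
  rw [eq_comm, pt_def, pt_def, mk_eq]
  refine ⟨m, n, k, ?_⟩
  rw [inv_hv, mul_hv]
  exact hv_ext (by ring) (by ring) (by ring)

theorem pt_z (x y z : ℝ) (k : ℤ) : pt x y (z + k) = pt x y z := by
  have h := pt_int x y z 0 0 k
  simpa using h

theorem pt_y (x y z : ℝ) (n : ℤ) : pt x (y + n) z = pt x y z := by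
  have h := pt_int x y z 0 n 0
  simpa using h

theorem pt_x (x y z : ℝ) (m : ℤ) : pt (x + m) y z = pt x y (z - m * y) := by
  have h := pt_int x y (z - m * y) m 0 0
  simpa using h

theorem continuous_hv : Continuous (fun g : ℝ × ℝ × ℝ => hv g.1 g.2.1 g.2.2) :=
  (continuous_id : Continuous (fun g : ℝ × ℝ × ℝ => g))

theorem continuous_pt : Continuous (fun g : ℝ × ℝ × ℝ => pt g.1 g.2.1 g.2.2) :=
  continuous_mk.comp continuous_hv

/-- every point has coordinates between `0` and `1` -/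
theorem exists_fund (w : Nil) : ∃ x ∈ Icc (0 : ℝ) 1, ∃ y ∈ Icc (0 : ℝ) 1, ∃ z ∈ Icc (0 : ℝ) 1,
    w = pt x y z := by
  obtain ⟨x, y, z, rfl⟩ := surj_pt w
  refine ⟨Int.fract x, ⟨Int.fract_nonneg _, (Int.fract_lt_one _).le⟩, Int.fract y,
    ⟨Int.fract_nonneg _, (Int.fract_lt_one _).le⟩, Int.fract (z - ⌊x⌋ * y),
    ⟨Int.fract_nonneg _, (Int.fract_lt_one _).le⟩, ?_⟩
  have h3 : pt x y z = pt (Int.fract x) y (z - ⌊x⌋ * y) := by
    conv_lhs => rw [← Int.fract_add_floor x]
    exact pt_x _ _ _ _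
  have h4 : ∀ v, pt (Int.fract x) y v = pt (Int.fract x) (Int.fract y) v := by
    intro v
    conv_lhs => rw [← Int.fract_add_floor y]
    rw [pt_y]
  rw [h3, h4]
  conv_lhs => rw [← Int.fract_add_floor (z - ⌊x⌋ * y)]
  rw [pt_z]

instance : CompactSpace Nil := by
  have h : IsCompact ((fun g : ℝ × ℝ × ℝ => pt g.1 g.2.1 g.2.2) ''
      (Icc (0 : ℝ) 1 ×ˢ (Icc (0 : ℝ) 1 ×ˢ Icc (0 : ℝ) 1))) :=
    (isCompact_Icc.prod (isCompact_Icc.prod isCompact_Icc)).image continuous_pt
  have h2 : (fun g : ℝ × ℝ × ℝ => pt g.1 g.2.1 g.2.2) ''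
      (Icc (0 : ℝ) 1 ×ˢ (Icc (0 : ℝ) 1 ×ˢ Icc (0 : ℝ) 1)) = univ := by
    rw [eq_univ_iff_forall]
    intro w
    obtain ⟨x, hx, y, hy, z, hz, rfl⟩ := exists_fund w
    exact ⟨(x, y, z), ⟨hx, hy, hz⟩, rfl⟩
  rw [← isCompact_univ_iff, ← h2]
  exact h

instance : SecondCountableTopology Nil :=
  openQuot.isQuotientMap.secondCountableTopology openQuot.isOpenMap

instance : TopologicalSpace.MetrizableSpace Nil :=
  TopologicalSpace.metrizableSpace_of_t3_secondCountable Nil

theorem rt_mk (h g : Heis) : rt h (mk g) = mk (g * h) := rfl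

theorem rt_pt (a b c x y z : ℝ) : rt (hv a b c) (pt x y z) = pt (x + a) (y + b) (z + c + x * b) :=
  rfl

theorem rt_rt (h k : Heis) (w : Nil) : rt k (rt h w) = rt (h * k) w := by
  obtain ⟨g, rfl⟩ := surj_mk w
  rw [rt_mk, rt_mk, rt_mk, mul_assoc]

theorem rt_one (w : Nil) : rt 1 w = w := by
  obtain ⟨g, rfl⟩ := surj_mk w
  rw [rt_mk, mul_one]

theorem continuous_rt2 : Continuous (fun p : Heis × Nil => rt p.1 p.2) := by
  have h1 : IsOpenQuotientMap (Prod.map (id : Heis → Heis) mk) := IsOpenQuotientMap.id.prodMap openQuot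
  rw [← h1.continuous_comp_iff]
  have h2 : ((fun p : Heis × Nil => rt p.1 p.2) ∘ Prod.map (id : Heis → Heis) mk)
      = fun p : Heis × Heis => mk (p.2 * p.1 : Heis) := rfl
  rw [h2]
  exact continuous_mk.comp (continuous_snd.mul continuous_fst : Continuous fun p : Heis × Heis => p.2 * p.1)

theorem continuous_rt (h : Heis) : Continuous (rt h) :=
  continuous_rt2.comp (Continuous.prodMk_right h)

theorem measurable_rt (h : Heis) : Measurable (rt h) := (continuous_rt h).measurable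

theorem hexp_smul (X : ℝ × ℝ × ℝ) (t : ℝ) :
    hexp (t • X) = hv (t * X.1) (t * X.2.1) (t * X.2.2 + t * X.1 * (t * X.2.1) / 2) := rfl

theorem hexp_add (X : ℝ × ℝ × ℝ) (s t : ℝ) :
    hexp (s • X) * hexp (t • X) = hexp ((s + t) • X) := by
  rw [hexp_smul, hexp_smul, hexp_smul, mul_hv]
  exact hv_ext (by ring) (by ring) (by ring)

theorem flow_pt (X : ℝ × ℝ × ℝ) (t x y z : ℝ) : flow X t (pt x y z)
    = pt (x + t * X.1) (y + t * X.2.1) (z + (t * X.2.2 + t * X.1 * (t * X.2.1) / 2)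
      + x * (t * X.2.1)) := rfl

theorem flow_add (X : ℝ × ℝ × ℝ) (s t : ℝ) (w : Nil) :
    flow X t (flow X s w) = flow X (s + t) w := by
  rw [flow, flow, flow, rt_rt, hexp_add]

theorem flow_zero (X : ℝ × ℝ × ℝ) (w : Nil) : flow X 0 w = w := by
  rw [flow]
  have : hexp ((0 : ℝ) • X) = 1 := by
    rw [hexp_smul, one_hv]
    exact hv_ext (by ring) (by ring) (by ring)
  rw [this, rt_one]

theorem continuous_flow2 (X : ℝ × ℝ × ℝ) : Continuous (fun p : ℝ × Nil => flow X p.1 p.2) := by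
  have h : Continuous (fun t : ℝ => (hexp (t • X) : Heis)) := by
    have h1 : Continuous (fun t : ℝ => ((t * X.1, t * X.2.1,
        t * X.2.2 + t * X.1 * (t * X.2.1) / 2) : ℝ × ℝ × ℝ)) := by fun_prop
    exact continuous_hv.comp h1
  exact continuous_rt2.comp ((h.comp continuous_fst).prodMk continuous_snd)

theorem continuous_flow (X : ℝ × ℝ × ℝ) (t : ℝ) : Continuous (flow X t) := continuous_rt _

theorem continuous_flow_time (X : ℝ × ℝ × ℝ) (w : Nil) : Continuous (fun t => flow X t w) :=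
  (continuous_flow2 X).comp (Continuous.prodMk_left w)

theorem measurable_flow (X : ℝ × ℝ × ℝ) (t : ℝ) : Measurable (flow X t) := measurable_rt _

end Q176.TC
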