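import Pool.Agent.Q176.TC.A1

/-! The Haar measure of the nilmanifold. -/

set_option autoImplicit false

open MeasureTheory Set Filter Topology intervalIntegral

namespace Q176.TC

/-- Lebesgue measure of the unit cube -/
noncomputable def cube : Measure (ℝ × ℝ × ℝ) :=
  ((volume : Measure ℝ).restrict (Ioc 0 1)).prod
    (((volume : Measure ℝ).restrict (Ioc 0 1)).prod ((volume : Measure ℝ).restrict (Ioc 0 1)))

/-- the normalised Haar measure of the nilmanifold -/
noncomputable def haar : Measure Nil := cube.map (fun g => pt g.1 g.2.1 g.2.2)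

instance prob01 : IsProbabilityMeasure ((volume : Measure ℝ).restrict (Ioc 0 1)) :=
  ⟨by rw [Measure.restrict_apply_univ, Real.volume_Ioc]; simp⟩

instance : IsProbabilityMeasure cube := by
  unfold cube
  infer_instance

theorem measurable_pt : Measurable (fun g : ℝ × ℝ × ℝ => pt g.1 g.2.1 g.2.2) :=
  continuous_pt.measurable

instance : IsProbabilityMeasure haar :=
  Measure.isProbabilityMeasure_map measurable_pt.aemeasurable

theorem per_shift {E : Type*} [NormedAddCommGroup E] [NormedSpace ℝ E] {f : ℝ → E}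
    (hf : ∀ x, f (x + 1) = f x) (s : ℝ) : ∫ z in (0 : ℝ)..1, f (z + s) = ∫ z in (0 : ℝ)..1, f z := by
  rw [intervalIntegral.integral_comp_add_right]
  have h : Function.Periodic f 1 := hf
  have h2 := h.intervalIntegral_add_eq s 0
  rw [zero_add, add_comm 1 s, h2]
  simp

section
variable {E : Type*} [NormedAddCommGroup E] [NormedSpace ℝ E]

theorem integral_haar {F : Nil → E} (hF : Integrable F haar) :
    ∫ w, F w ∂haar = ∫ x in (0 : ℝ)..1, ∫ y in (0 : ℝ)..1, ∫ z in (0 : ℝ)..1, F (pt x y z) := by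
  have h1 : ∫ w, F w ∂haar = ∫ g, F (pt g.1 g.2.1 g.2.2) ∂cube :=
    integral_map measurable_pt.aemeasurable hF.1
  have hc : Integrable (fun g : ℝ × ℝ × ℝ => F (pt g.1 g.2.1 g.2.2)) cube :=
    (integrable_map_measure hF.1 measurable_pt.aemeasurable).1 hF
  rw [h1, cube, integral_prod _ hc, intervalIntegral.integral_of_le zero_le_one]
  refine integral_congr_ae ?_
  have h2 := hc.prod_right_ae
  filter_upwards [h2] with x hx
  rw [integral_prod _ hx, intervalIntegral.integral_of_le zero_le_one]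
  refine integral_congr_ae (Eventually.of_forall fun y => ?_)
  show _ = ∫ z in (0 : ℝ)..1, F (pt x y z)
  rw [intervalIntegral.integral_of_le zero_le_one]

theorem cont_integrable {F : Nil → E} (hF : Continuous F) (μ : Measure Nil) [IsFiniteMeasure μ] :
    Integrable F μ :=
  hF.integrable_of_hasCompactSupport (HasCompactSupport.of_compactSpace F)

theorem integral_haar_c {F : Nil → E} (hF : Continuous F) :
    ∫ w, F w ∂haar = ∫ x in (0 : ℝ)..1, ∫ y in (0 : ℝ)..1, ∫ z in (0 : ℝ)..1, F (pt x y z) :=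
  integral_haar (cont_integrable hF _)

theorem triple_shift (F : Nil → E) (a b c : ℝ) :
    ∫ x in (0 : ℝ)..1, ∫ y in (0 : ℝ)..1, ∫ z in (0 : ℝ)..1, F (pt (x + a) (y + b) (z + c + x * b))
      = ∫ x in (0 : ℝ)..1, ∫ y in (0 : ℝ)..1, ∫ z in (0 : ℝ)..1, F (pt x y z) := by
  have hz : ∀ X Y s : ℝ, ∫ z in (0 : ℝ)..1, F (pt X Y (z + s)) = ∫ z in (0 : ℝ)..1, F (pt X Y z) := by
    intro X Y s
    refine per_shift (f := fun z => F (pt X Y z)) (fun z => ?_) s
    have := pt_z X Y z 1
    rw [Int.cast_one] at this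
    rw [this]
  have hy : ∀ X b : ℝ, ∫ y in (0 : ℝ)..1, ∫ z in (0 : ℝ)..1, F (pt X (y + b) z)
      = ∫ y in (0 : ℝ)..1, ∫ z in (0 : ℝ)..1, F (pt X y z) := by
    intro X b
    refine per_shift (f := fun y => ∫ z in (0 : ℝ)..1, F (pt X y z)) (fun y => ?_) b
    refine integral_congr fun z _ => ?_
    have := pt_y X y z 1
    rw [Int.cast_one] at this
    show F (pt X (y + 1) z) = _
    rw [this]
  have hx : ∀ a : ℝ, ∫ x in (0 : ℝ)..1, ∫ y in (0 : ℝ)..1, ∫ z in (0 : ℝ)..1, F (pt (x + a) y z)
      = ∫ x in (0 : ℝ)..1, ∫ y in (0 : ℝ)..1, ∫ z in (0 : ℝ)..1, F (pt x y z) := by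
    intro a
    refine per_shift (f := fun x => ∫ y in (0 : ℝ)..1, ∫ z in (0 : ℝ)..1, F (pt x y z))
      (fun x => ?_) a
    refine integral_congr fun y _ => ?_
    have h1 : (∫ z in (0 : ℝ)..1, F (pt (x + 1) y z)) = ∫ z in (0 : ℝ)..1, F (pt x y (z + -y)) := by
      refine integral_congr fun z _ => ?_
      have := pt_x x y z 1
      rw [Int.cast_one, one_mul] at this
      show F (pt (x + 1) y z) = _
      rw [this, sub_eq_add_neg]
    show (∫ z in (0 : ℝ)..1, F (pt (x + 1) y z)) = _
    rw [h1, hz]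
  rw [← hx a]
  refine integral_congr fun x _ => ?_
  show (∫ y in (0 : ℝ)..1, ∫ z in (0 : ℝ)..1, F (pt (x + a) (y + b) (z + c + x * b))) = _
  rw [← hy (x + a) b]
  refine integral_congr fun y _ => ?_
  show (∫ z in (0 : ℝ)..1, F (pt (x + a) (y + b) (z + c + x * b))) = _
  rw [← hz (x + a) (y + b) (c + x * b)]
  refine integral_congr fun z _ => ?_
  show F (pt (x + a) (y + b) (z + c + x * b)) = F (pt (x + a) (y + b) (z + (c + x * b)))
  rw [add_assoc]

theorem integral_rt {F : Nil → E} (hF : Continuous F) (h : Heis) :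
    ∫ w, F (rt h w) ∂haar = ∫ w, F w ∂haar := by
  have h1 := integral_haar_c (hF.comp (continuous_rt h))
  have h2 : ∫ w, F (rt h w) ∂haar = ∫ w, (F ∘ rt h) w ∂haar := rfl
  rw [integral_haar_c hF, h2, h1]
  exact triple_shift F h.1 h.2.1 h.2.2

end

theorem map_rt (h : Heis) : haar.map (rt h) = haar := by
  have : IsProbabilityMeasure (haar.map (rt h)) :=
    Measure.isProbabilityMeasure_map (measurable_rt h).aemeasurable
  refine ext_of_forall_integral_eq_of_IsFiniteMeasure fun f => ?_
  rw [integral_map (measurable_rt h).aemeasurable f.continuous.aestronglyMeasurable]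
  exact integral_rt f.continuous h

theorem isHaar_haar : IsHaar haar := ⟨inferInstance, map_rt⟩

theorem mp_rt (h : Heis) : MeasurePreserving (rt h) haar haar := ⟨measurable_rt h, map_rt h⟩

theorem mp_flow (X : ℝ × ℝ × ℝ) (t : ℝ) : MeasurePreserving (flow X t) haar haar := mp_rt _

end Q176.TC
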