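import Pool.Agent.Q176.TC.A2

/-! Invariant measures of the nilflow: functions on the base torus. -/

set_option autoImplicit false

open MeasureTheory Set Filter Topology intervalIntegral

namespace Q176.TC

/-- the direction `(1, a, 0)` -/
def XX (a : ℝ) : ℝ × ℝ × ℝ := (1, a, 0)

theorem flow_XX (a t x y z : ℝ) : flow (XX a) t (pt x y z)
    = pt (x + t) (y + t * a) (z + (t * (t * a) / 2 + x * (t * a))) := by
  rw [flow_pt]
  show pt (x + t * 1) (y + t * a) (z + (t * 0 + t * 1 * (t * a) / 2) + x * (t * a)) = _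
  congr 1
  · ring
  · ring

/-- the translations by the centre -/
noncomputable def cen (s : ℝ) : Nil → Nil := rt (hv 0 0 s)

theorem cen_pt (s x y z : ℝ) : cen s (pt x y z) = pt x y (z + s) := by
  rw [cen, rt_pt]
  congr 1 <;> ring

theorem cen_cen (s t : ℝ) (w : Nil) : cen s (cen t w) = cen (t + s) w := by
  obtain ⟨x, y, z, rfl⟩ := surj_pt w
  rw [cen_pt, cen_pt, cen_pt, add_assoc]

theorem cen_zero (w : Nil) : cen 0 w = w := by
  obtain ⟨x, y, z, rfl⟩ := surj_pt w
  rw [cen_pt, add_zero]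

theorem cen_one (w : Nil) : cen 1 w = w := by
  obtain ⟨x, y, z, rfl⟩ := surj_pt w
  rw [cen_pt]
  have := pt_z x y z 1
  rwa [Int.cast_one] at this

theorem cen_flow (a s t : ℝ) (w : Nil) :
    flow (XX a) t (cen s w) = cen s (flow (XX a) t w) := by
  obtain ⟨x, y, z, rfl⟩ := surj_pt w
  rw [cen_pt, flow_XX, flow_XX, cen_pt]
  congr 1
  ring

theorem continuous_cen2 : Continuous (fun p : ℝ × Nil => cen p.1 p.2) := by
  have h : Continuous (fun s : ℝ => hv 0 0 s) :=
    continuous_hv.comp (by fun_prop : Continuous fun s : ℝ => ((0, 0, s) : ℝ × ℝ × ℝ))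
  exact continuous_rt2.comp ((h.comp continuous_fst).prodMk continuous_snd)

theorem continuous_cen (s : ℝ) : Continuous (cen s) := continuous_rt _

theorem mp_cen (s : ℝ) : MeasurePreserving (cen s) haar haar := mp_rt _

section
variable {E : Type*} [NormedAddCommGroup E] [NormedSpace ℝ E]

theorem base_eq {H : Nil → E} (hz : ∀ s w, H (cen s w) = H w) (x y z z' : ℝ) (m n : ℤ) :
    H (pt (x + m) (y + n) z') = H (pt x y z) := by
  rw [pt_x, pt_y]
  have h1 := hz (z' - m * (y + n) - z) (pt x y z)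
  rw [cen_pt] at h1
  rw [← h1]
  congr 2
  ring

theorem base_eq0 {H : Nil → E} (hz : ∀ s w, H (cen s w) = H w) (x y z z' : ℝ) :
    H (pt x y z') = H (pt x y z) := by
  have := base_eq hz x y z z' 0 0
  simpa using this

theorem rt_base {H : Nil → E} (hz : ∀ s w, H (cen s w) = H w) (s r c x y z : ℝ) :
    H (rt (hv s r c) (pt x y z)) = H (pt (x + s) (y + r) 0) := by
  rw [rt_pt]
  exact base_eq0 hz _ _ _ _

/-- invariance of a measure in terms of integrals -/
theorem inv_int {lam : Measure Nil} {a : ℝ} (hinv : ∀ t, lam.map (flow (XX a) t) = lam)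
    {F : Nil → E} (hF : Continuous F) (t : ℝ) :
    ∫ w, F (flow (XX a) t w) ∂lam = ∫ w, F w ∂lam := by
  have h1 : AEStronglyMeasurable F (lam.map (flow (XX a) t)) :=
    hF.aestronglyMeasurable_of_compactSpace
  have h := integral_map (measurable_flow (XX a) t).aemeasurable h1
  rw [hinv t] at h
  exact h.symm

theorem base_int {lam : Measure Nil} [IsProbabilityMeasure lam] {a : ℝ} (ha : Irrational a)
    [CompleteSpace E]
    (hinv : ∀ t, lam.map (flow (XX a) t) = lam) {H : Nil → E} (hH : Continuous H)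
    (hz : ∀ s w, H (cen s w) = H w) : ∫ w, H w ∂lam = ∫ w, H w ∂haar := by
  set Ψ : ℝ × ℝ → E := fun p => ∫ w, H (rt (hv p.1 p.2 0) w) ∂lam with hΨ
  have hj : Continuous (fun q : (ℝ × ℝ) × Nil => H (rt (hv q.1.1 q.1.2 0) q.2)) := by
    have h : Continuous (fun p : ℝ × ℝ => hv p.1 p.2 0) :=
      continuous_hv.comp (by fun_prop : Continuous fun p : ℝ × ℝ => ((p.1, p.2, 0) : ℝ × ℝ × ℝ))
    exact hH.comp (continuous_rt2.comp ((h.comp continuous_fst).prodMk continuous_snd))
  have hΨc : Continuous Ψ := by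
    have h := continuous_parametric_integral_of_continuous (μ := lam)
      (f := fun (p : ℝ × ℝ) (w : Nil) => H (rt (hv p.1 p.2 0) w)) hj isCompact_univ
    simpa only [setIntegral_univ] using h
  -- the flow
  have hfl : ∀ s r t, Ψ (s + t, r + t * a) = Ψ (s, r) := by
    intro s r t
    have h1 : Continuous fun w => H (rt (hv s r 0) w) := hH.comp (continuous_rt _)
    rw [hΨ]
    show ∫ w, H (rt (hv (s + t) (r + t * a) 0) w) ∂lam = ∫ w, H (rt (hv s r 0) w) ∂lam
    rw [← inv_int hinv h1 t]
    refine integral_congr_ae (Eventually.of_forall fun w => ?_)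
    obtain ⟨x, y, z, rfl⟩ := surj_pt w
    show H (rt (hv (s + t) (r + t * a) 0) (pt x y z)) = H (rt (hv s r 0) (flow (XX a) t (pt x y z)))
    rw [flow_XX, rt_base hz, rt_base hz]
    congr 2 <;> ring
  have hint : ∀ s r (m n : ℤ), Ψ (s + m, r + n) = Ψ (s, r) := by
    intro s r m n
    refine integral_congr_ae (Eventually.of_forall fun w => ?_)
    obtain ⟨x, y, z, rfl⟩ := surj_pt w
    show H (rt (hv (s + m) (r + n) 0) (pt x y z)) = H (rt (hv s r 0) (pt x y z))
    rw [rt_base hz, rt_base hz, ← base_eq hz (x + s) (y + r) 0 0 m n]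
    congr 2 <;> ring
  have hy : ∀ s r, Ψ (s, r) = Ψ (s, 0) := by
    intro s r
    have hd : Dense (AddSubgroup.closure {a, 1} : Set ℝ) := by
      rw [dense_addSubgroupClosure_pair_iff, div_one]
      exact ha
    have hc : IsClosed {r : ℝ | ∀ v, Ψ (s, v + r) = Ψ (s, v)} := by
      simp only [Set.ofPred_forall]
      refine isClosed_iInter fun v => isClosed_eq ?_ continuous_const
      exact hΨc.comp (by fun_prop)
    have hsub : (AddSubgroup.closure {a, 1} : Set ℝ) ⊆ {r : ℝ | ∀ v, Ψ (s, v + r) = Ψ (s, v)} := by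
      intro r hr
      refine AddSubgroup.closure_induction (p := fun r _ => ∀ v, Ψ (s, v + r) = Ψ (s, v))
        ?_ ?_ ?_ ?_ hr
      · intro r hr v
        rcases hr with rfl | rfl
        · have h1 := hfl s v 1
          have h2 := hint s (v + r) 1 0
          simp only [Int.cast_one, Int.cast_zero, add_zero, one_mul] at h1 h2
          rw [← h2, h1]
        · have h2 := hint s v 0 1
          simpa using h2
      · intro v
        rw [add_zero]
      · intro r₁ r₂ _ _ h1 h2 v
        rw [← add_assoc, h2, h1]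
      · intro r _ h v
        have := h (v + -r)
        rw [neg_add_cancel_right] at this
        exact this.symm
    have hall := hd.closure_eq ▸ closure_minimal hsub hc
    have := hall (mem_univ r) 0
    rwa [zero_add] at this
  have hconst : ∀ p, Ψ p = Ψ (0, 0) := by
    rintro ⟨s, r⟩
    have h1 := hfl 0 0 s
    rw [zero_add, zero_add] at h1
    rw [hy s r, ← hy s (s * a), h1]
  -- averages
  set I : Measure ℝ := (volume : Measure ℝ).restrict (Ioc 0 1) with hI
  have hsw : ∫ p, (∫ w, H (rt (hv p.1 p.2 0) w) ∂lam) ∂(I.prod I)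
      = ∫ w, (∫ p, H (rt (hv p.1 p.2 0) w) ∂(I.prod I)) ∂lam := by
    refine integral_integral_swap (f := fun (p : ℝ × ℝ) w => H (rt (hv p.1 p.2 0) w)) ?_
    obtain ⟨B, hB⟩ := isCompact_univ.exists_bound_of_continuousOn hH.continuousOn
    refine Integrable.of_bound (C := B) ?_ (Eventually.of_forall fun q => hB _ (mem_univ _))
    exact hj.aestronglyMeasurable
  have hleft : ∫ p, (∫ w, H (rt (hv p.1 p.2 0) w) ∂lam) ∂(I.prod I) = ∫ w, H w ∂lam := by
    have h1 : ∀ p : ℝ × ℝ, ∫ w, H (rt (hv p.1 p.2 0) w) ∂lam = Ψ (0, 0) := hconst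
    simp_rw [h1]
    rw [MeasureTheory.integral_const]
    have h2 : Ψ (0, 0) = ∫ w, H w ∂lam := by
      refine integral_congr_ae (Eventually.of_forall fun w => ?_)
      show H (rt (hv 0 0 0) w) = H w
      rw [← one_hv, rt_one]
    rw [h2]
    simp
  have hright : ∀ w, ∫ p, H (rt (hv p.1 p.2 0) w) ∂(I.prod I) = ∫ w, H w ∂haar := by
    intro w
    obtain ⟨x, y, z, rfl⟩ := surj_pt w
    have hcw : Continuous fun p : ℝ × ℝ => H (rt (hv p.1 p.2 0) (pt x y z)) :=
      hj.comp (Continuous.prodMk_left (pt x y z))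
    obtain ⟨B, hB⟩ := isCompact_univ.exists_bound_of_continuousOn hH.continuousOn
    have hi : Integrable (fun p : ℝ × ℝ => H (rt (hv p.1 p.2 0) (pt x y z))) (I.prod I) :=
      Integrable.of_bound hcw.aestronglyMeasurable B (Eventually.of_forall fun q => hB _ (mem_univ _))
    rw [integral_prod _ hi, integral_haar_c hH, hI, ← intervalIntegral.integral_of_le zero_le_one]
    have h1 : ∀ X, ∫ y in (0 : ℝ)..1, ∫ z in (0 : ℝ)..1, H (pt X y z)
        = ∫ y in (0 : ℝ)..1, H (pt X y 0) := by
      intro X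
      refine integral_congr fun Y _ => ?_
      show (∫ z in (0 : ℝ)..1, H (pt X Y z)) = _
      have : ∀ z, H (pt X Y z) = H (pt X Y 0) := fun z => base_eq0 hz X Y 0 z
      simp_rw [this]
      simp
    simp_rw [h1]
    have h2 : (∫ X in (0 : ℝ)..1, ∫ Y in (0 : ℝ)..1, H (pt X Y 0))
        = ∫ X in (0 : ℝ)..1, ∫ Y in (0 : ℝ)..1, H (pt (X + x) Y 0) :=
      (per_shift (f := fun X => ∫ Y in (0 : ℝ)..1, H (pt X Y 0)) (fun X => by
        refine integral_congr fun Y _ => ?_
        have := base_eq hz X Y 0 0 1 0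
        simpa using this) x).symm
    rw [h2]
    refine integral_congr fun X _ => ?_
    show (∫ Y in Ioc (0 : ℝ) 1, H (rt (hv X Y 0) (pt x y z))) = ∫ Y in (0 : ℝ)..1, H (pt (X + x) Y 0)
    rw [← intervalIntegral.integral_of_le zero_le_one, ← per_shift (f := fun Y => H (pt (X + x) Y 0))
      (fun Y => by
        have := base_eq hz (X + x) Y 0 0 0 1
        simpa using this) y]
    refine integral_congr fun Y _ => ?_
    show H (rt (hv X Y 0) (pt x y z)) = H (pt (X + x) (Y + y) 0)
    rw [rt_base hz, add_comm x X, add_comm y Y]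
  rw [← hleft, hsw]
  simp_rw [hright]
  rw [MeasureTheory.integral_const]
  simp

end

end Q176.TC
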