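import Pool.Agent.Q176.TC.A3

/-! Unique ergodicity of irrational Heisenberg nilflows. -/

set_option autoImplicit false

open MeasureTheory Set Filter Topology intervalIntegral
open scoped ComplexConjugate

namespace Q176.TC

/-- `e^{2πiθ}` -/
noncomputable def ee (θ : ℝ) : ℂ := Complex.exp (2 * Real.pi * θ * Complex.I)

theorem ee_add (s t : ℝ) : ee (s + t) = ee s * ee t := by
  rw [ee, ee, ee, ← Complex.exp_add]
  congr 1
  push_cast
  ring

theorem ee_zero : ee 0 = 1 := by simp [ee]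

theorem ee_int (n : ℤ) : ee n = 1 := by
  rw [ee, Complex.exp_eq_one_iff]
  exact ⟨n, by push_cast; ring⟩

theorem ee_half : ee (1 / 2) = -1 := by
  rw [ee]
  have : (2 * Real.pi * ((1 / 2 : ℝ) : ℂ) * Complex.I : ℂ) = Real.pi * Complex.I := by
    push_cast; ring
  rw [this, Complex.exp_pi_mul_I]

theorem norm_ee (θ : ℝ) : ‖ee θ‖ = 1 := by
  rw [ee]
  have : (2 * Real.pi * θ * Complex.I : ℂ) = ((2 * Real.pi * θ : ℝ) : ℂ) * Complex.I := by
    push_cast; ring
  rw [this, Complex.norm_exp_ofReal_mul_I]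

theorem ee_neg (θ : ℝ) : ee (-θ) = conj (ee θ) := by
  rw [ee, ee, ← Complex.exp_conj]
  congr 1
  rw [map_mul, map_mul, map_mul, Complex.conj_I, Complex.conj_ofReal, Complex.conj_ofReal,
    map_ofNat]
  push_cast
  ring

theorem ee_mul_neg (θ : ℝ) : ee θ * ee (-θ) = 1 := by
  rw [← ee_add, add_neg_cancel, ee_zero]

theorem continuous_ee : Continuous ee := by
  unfold ee
  fun_prop

/-- oscillating integrals -/
theorem osc {g : ℝ → ℂ} (hg : Continuous g) (hp : ∀ y, g (y + 1) = g y) {n : ℤ} (hn : n ≠ 0)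
    {η : ℝ} (hη : ∀ y, ‖g (y + 1 / (2 * n)) - g y‖ ≤ η) :
    ‖∫ y in (0 : ℝ)..1, ee (-(n * y)) * g y‖ ≤ η := by
  have hn' : (n : ℝ) ≠ 0 := Int.cast_ne_zero.2 hn
  have h1 : (∫ y in (0 : ℝ)..1, ee (-(n * (y + 1 / (2 * n)))) * g (y + 1 / (2 * n)))
      = ∫ y in (0 : ℝ)..1, ee (-(n * y)) * g y := by
    refine per_shift (f := fun y => ee (-(n * y)) * g y) (fun y => ?_) _
    show ee (-(n * (y + 1))) * g (y + 1) = _
    rw [hp, mul_add, mul_one, neg_add, ee_add]
    have : ee (-(n : ℝ)) = 1 := by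
      have := ee_int (-n)
      rwa [Int.cast_neg] at this
    rw [this, mul_one]
  have h2 : ∀ y : ℝ, ee (-(n * (y + 1 / (2 * n)))) = -ee (-(n * y)) := by
    intro y
    have h3 : -((n : ℝ) * (y + 1 / (2 * n))) = -(n * y) + -(1 / 2) := by
      field_simp
      ring
    rw [h3, ee_add, ee_neg (1 / 2), ee_half]
    simp
  have h4 : (∫ y in (0 : ℝ)..1, ee (-(n * y)) * g y)
      = -∫ y in (0 : ℝ)..1, ee (-(n * y)) * g (y + 1 / (2 * n)) := by
    rw [← h1, ← intervalIntegral.integral_neg]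
    refine integral_congr fun y _ => ?_
    show ee (-(n * (y + 1 / (2 * n)))) * g (y + 1 / (2 * n)) = _
    rw [h2]
    ring
  have hc1 : Continuous fun y : ℝ => ee (-(n * y)) * g y :=
    (continuous_ee.comp (by fun_prop)).mul hg
  have hc2 : Continuous fun y : ℝ => ee (-(n * y)) * g (y + 1 / (2 * n)) :=
    (continuous_ee.comp (by fun_prop)).mul (hg.comp (by fun_prop))
  have h5 : (2 : ℂ) * ∫ y in (0 : ℝ)..1, ee (-(n * y)) * g y
      = -∫ y in (0 : ℝ)..1, ee (-(n * y)) * (g (y + 1 / (2 * n)) - g y) := by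
    have h6 : (∫ y in (0 : ℝ)..1, ee (-(n * y)) * (g (y + 1 / (2 * n)) - g y))
        = (∫ y in (0 : ℝ)..1, ee (-(n * y)) * g (y + 1 / (2 * n)))
          - ∫ y in (0 : ℝ)..1, ee (-(n * y)) * g y := by
      rw [← intervalIntegral.integral_sub (hc2.intervalIntegrable _ _) (hc1.intervalIntegrable _ _)]
      refine integral_congr fun y _ => ?_
      show _ * _ = _ * _ - _ * _
      ring
    rw [h6]
    linear_combination h4
  have h7 : ‖∫ y in (0 : ℝ)..1, ee (-(n * y)) * (g (y + 1 / (2 * n)) - g y)‖ ≤ η * |1 - 0| := by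
    refine intervalIntegral.norm_integral_le_of_norm_le_const fun y _ => ?_
    rw [norm_mul, norm_ee, one_mul]
    exact hη y
  have h8 : ‖(2 : ℂ) * ∫ y in (0 : ℝ)..1, ee (-(n * y)) * g y‖ ≤ η := by
    rw [h5, norm_neg]
    simpa using h7
  rw [norm_mul, Complex.norm_ofNat] at h8
  linarith [norm_nonneg (∫ y in (0 : ℝ)..1, ee (-(n * y)) * g y)]

/-- modulus of continuity in `y` -/
theorem modulus {F : Nil → ℂ} (hF : Continuous F) {η : ℝ} (hη : 0 < η) :
    ∀ᶠ δ in 𝓝 (0 : ℝ), ∀ x ∈ Icc (0 : ℝ) 1, ∀ y z, ‖F (pt x (y + δ) z) - F (pt x y z)‖ < η := by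
  have hc : Continuous (fun q : ℝ × (ℝ × Nil) => F (rt (hv 0 q.1 (-(q.2.1 * q.1))) q.2.2)) := by
    have h : Continuous (fun q : ℝ × (ℝ × Nil) => hv 0 q.1 (-(q.2.1 * q.1))) :=
      continuous_hv.comp (by fun_prop :
        Continuous fun q : ℝ × (ℝ × Nil) => ((0, q.1, -(q.2.1 * q.1)) : ℝ × ℝ × ℝ))
    exact hF.comp (continuous_rt2.comp (h.prodMk (continuous_snd.comp continuous_snd)))
  have hK : IsCompact (Icc (0 : ℝ) 1 ×ˢ (univ : Set Nil)) := isCompact_Icc.prod isCompact_univ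
  have h1 : ∀ᶠ δ in 𝓝 (0 : ℝ), ∀ q ∈ Icc (0 : ℝ) 1 ×ˢ (univ : Set Nil),
      ‖F (rt (hv 0 δ (-(q.1 * δ))) q.2) - F q.2‖ < η := by
    refine hK.eventually_forall_of_forall_eventually fun q _ => ?_
    have h2 : Continuous (fun p : ℝ × (ℝ × Nil) =>
        ‖F (rt (hv 0 p.1 (-(p.2.1 * p.1))) p.2.2) - F p.2.2‖) :=
      (hc.sub (hF.comp (continuous_snd.comp continuous_snd))).norm
    refine (h2.tendsto (0, q)).eventually_lt tendsto_const_nhds ?_
    show ‖F (rt (hv 0 0 (-(q.1 * 0))) q.2) - F q.2‖ < η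
    rw [mul_zero, neg_zero, ← one_hv, rt_one, sub_self, norm_zero]
    exact hη
  filter_upwards [h1] with δ hδ x hx y z
  have h3 := hδ (x, pt x y z) ⟨hx, mem_univ _⟩
  have h4 : rt (hv 0 δ (-(x * δ))) (pt x y z) = pt x (y + δ) z := by
    rw [rt_pt]
    congr 1 <;> ring
  rwa [h4] at h3

/-- decay of correlations for the functions of a nonzero frequency along the centre -/
theorem decay {a : ℝ} {F : Nil → ℂ} (hF : Continuous F) {k : ℤ} (hk : k ≠ 0)
    (hz : ∀ s w, F (cen s w) = ee (k * s) * F w) {B : ℝ} (hB : ∀ w, ‖F w‖ ≤ B)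
    {η : ℝ} (hη : 0 < η) {h : ℤ} (hh : h ≠ 0)
    (hm : ∀ x ∈ Icc (0 : ℝ) 1, ∀ y z,
      ‖F (pt x (y + 1 / (2 * ((k * h : ℤ) : ℝ))) z) - F (pt x y z)‖ < η) :
    ‖∫ w, F (flow (XX a) h w) * conj (F w) ∂haar‖ ≤ 2 * B * η := by
  have hB0 : 0 ≤ B := (norm_nonneg _).trans (hB (pt 0 0 0))
  have hz' : ∀ x y z s, F (pt x y (z + s)) = ee (k * s) * F (pt x y z) := by
    intro x y z s
    rw [← cen_pt, hz]
  have hFc : Continuous fun w => F (flow (XX a) h w) * conj (F w) :=
    (hF.comp (continuous_flow _ _)).mul (Complex.continuous_conj.comp hF)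
  rw [integral_haar_c hFc]
  have key : ∀ x y z : ℝ, F (flow (XX a) h (pt x y z)) * conj (F (pt x y z))
      = ee (k * (x * (h * a) - h * (h * a) / 2)) * (ee (-(((k * h : ℤ) : ℝ) * y))
        * (F (pt x (y + h * a) z) * conj (F (pt x y z)))) := by
    intro x y z
    rw [flow_XX, pt_x]
    have h1 : z + (h * (h * a) / 2 + x * (h * a)) - h * (y + h * a)
        = z + (x * (h * a) - h * (h * a) / 2 + -(h * y)) := by ring
    rw [h1, hz', mul_add, ee_add]
    have h2 : (k : ℝ) * -(h * y) = -(((k * h : ℤ) : ℝ) * y) := by push_cast; ring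
    rw [h2]
    ring
  have hcP : Continuous fun q : ℝ × ℝ × ℝ => F (pt q.1 (q.2.1 + h * a) q.2.2)
      * conj (F (pt q.1 q.2.1 q.2.2)) := by
    refine (hF.comp (continuous_pt.comp (by fun_prop : Continuous fun q : ℝ × ℝ × ℝ =>
      ((q.1, q.2.1 + h * a, q.2.2) : ℝ × ℝ × ℝ)))).mul ?_
    exact Complex.continuous_conj.comp (hF.comp continuous_pt)
  have hin : ∀ x ∈ Icc (0 : ℝ) 1,
      ‖∫ y in (0 : ℝ)..1, ∫ z in (0 : ℝ)..1, F (flow (XX a) h (pt x y z)) * conj (F (pt x y z))‖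
        ≤ 2 * B * η := by
    intro x hx
    set g : ℝ → ℂ := fun y => ∫ z in (0 : ℝ)..1, F (pt x (y + h * a) z) * conj (F (pt x y z))
      with hg
    have hgc : Continuous g := by
      refine intervalIntegral.continuous_parametric_intervalIntegral_of_continuous'
        (f := fun y z => F (pt x (y + h * a) z) * conj (F (pt x y z))) ?_ 0 1
      exact hcP.comp (by fun_prop : Continuous fun p : ℝ × ℝ => ((x, p.1, p.2) : ℝ × ℝ × ℝ))
    have hgp : ∀ y, g (y + 1) = g y := by
      intro y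
      refine integral_congr fun z _ => ?_
      have h1 := pt_y x y z 1
      have h2 := pt_y x (y + h * a) z 1
      rw [Int.cast_one] at h1 h2
      show F (pt x (y + 1 + h * a) z) * conj (F (pt x (y + 1) z)) = _
      rw [h1, show y + 1 + (h : ℝ) * a = y + h * a + 1 by ring, h2]
    have h1 : (∫ y in (0 : ℝ)..1, ∫ z in (0 : ℝ)..1,
        F (flow (XX a) h (pt x y z)) * conj (F (pt x y z)))
        = ee (k * (x * (h * a) - h * (h * a) / 2))
          * ∫ y in (0 : ℝ)..1, ee (-(((k * h : ℤ) : ℝ) * y)) * g y := by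
      rw [← intervalIntegral.integral_const_mul]
      refine integral_congr fun y _ => ?_
      show (∫ z in (0 : ℝ)..1, F (flow (XX a) h (pt x y z)) * conj (F (pt x y z))) = _
      simp_rw [key x y]
      rw [intervalIntegral.integral_const_mul, intervalIntegral.integral_const_mul]
    rw [h1, norm_mul, norm_ee, one_mul]
    refine osc hgc hgp (mul_ne_zero hk hh) fun y => ?_
    set δ : ℝ := 1 / (2 * ((k * h : ℤ) : ℝ)) with hδ
    have hci : ∀ Y : ℝ, IntervalIntegrable (fun z => F (pt x (Y + h * a) z) * conj (F (pt x Y z)))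
        volume 0 1 := fun Y => (hcP.comp (by fun_prop : Continuous fun z : ℝ =>
        ((x, Y, z) : ℝ × ℝ × ℝ))).intervalIntegrable _ _
    have h2 : g (y + δ) - g y = ∫ z in (0 : ℝ)..1, (F (pt x (y + δ + h * a) z)
        * conj (F (pt x (y + δ) z)) - F (pt x (y + h * a) z) * conj (F (pt x y z))) := by
      rw [intervalIntegral.integral_sub (hci _) (hci _)]
    rw [h2]
    have h3 : ‖∫ z in (0 : ℝ)..1, (F (pt x (y + δ + h * a) z)
        * conj (F (pt x (y + δ) z)) - F (pt x (y + h * a) z) * conj (F (pt x y z)))‖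
        ≤ 2 * B * η * |1 - 0| := by
      refine intervalIntegral.norm_integral_le_of_norm_le_const fun z _ => ?_
      have h4 : F (pt x (y + δ + h * a) z) * conj (F (pt x (y + δ) z))
          - F (pt x (y + h * a) z) * conj (F (pt x y z))
          = (F (pt x (y + h * a + δ) z) - F (pt x (y + h * a) z)) * conj (F (pt x (y + δ) z))
            + F (pt x (y + h * a) z) * conj (F (pt x (y + δ) z) - F (pt x y z)) := by
        rw [show y + δ + (h : ℝ) * a = y + h * a + δ by ring, map_sub]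
        ring
      rw [h4]
      refine (norm_add_le _ _).trans ?_
      rw [norm_mul, norm_mul, Complex.norm_conj, Complex.norm_conj]
      have h5 := hm x hx (y + h * a) z
      have h6 := hm x hx y z
      have h7 := hB (pt x (y + δ) z)
      have h8 := hB (pt x (y + h * a) z)
      nlinarith [norm_nonneg (F (pt x (y + δ) z)), norm_nonneg (F (pt x (y + h * a) z)),
        norm_nonneg (F (pt x (y + h * a + δ) z) - F (pt x (y + h * a) z)),
        norm_nonneg (F (pt x (y + δ) z) - F (pt x y z))]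
    simpa using h3
  have h9 : ‖∫ x in (0 : ℝ)..1, ∫ y in (0 : ℝ)..1, ∫ z in (0 : ℝ)..1,
      F (flow (XX a) h (pt x y z)) * conj (F (pt x y z))‖ ≤ 2 * B * η * |1 - 0| := by
    refine intervalIntegral.norm_integral_le_of_norm_le_const fun x hx => ?_
    rw [uIoc_of_le zero_le_one] at hx
    exact hin x (Ioc_subset_Icc_self hx)
  simpa using h9

end Q176.TC
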