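import Pool.Agent.Q176.TC.A4

/-! Unique ergodicity and ergodicity of irrational Heisenberg nilflows. -/

set_option autoImplicit false

open MeasureTheory Set Filter Topology intervalIntegral
open scoped ComplexConjugate BoundedContinuousFunction

namespace Q176.TC

theorem bdd_of_cont {E : Type*} [NormedAddCommGroup E] {F : Nil → E} (hF : Continuous F) :
    ∃ B, 0 ≤ B ∧ ∀ w, ‖F w‖ ≤ B := by
  obtain ⟨B, hB⟩ := isCompact_univ.exists_bound_of_continuousOn hF.continuousOn
  exact ⟨B, (norm_nonneg _).trans (hB (pt 0 0 0) (mem_univ _)), fun w => hB w (mem_univ _)⟩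

/-- the integral of a function of a nonzero frequency along the centre vanishes -/
theorem freq_zero {lam : Measure Nil} [IsProbabilityMeasure lam] {a : ℝ} (ha : Irrational a)
    (hinv : ∀ t, lam.map (flow (XX a) t) = lam) {F : Nil → ℂ} (hF : Continuous F) {k : ℤ}
    (hk : k ≠ 0) (hz : ∀ s w, F (cen s w) = ee (k * s) * F w) : ∫ w, F w ∂lam = 0 := by
  obtain ⟨B, hB0, hB⟩ := bdd_of_cont hF
  -- the main estimate
  have main : ∀ η > 0, ∀ N : ℕ, 0 < N →
      ‖∫ w, F w ∂lam‖ ^ 2 ≤ 2 * B * η + B ^ 2 / N := by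
    intro η hη N hN
    obtain ⟨δ₀, hδ₀, hmod⟩ := Metric.eventually_nhds_iff.1 (modulus hF hη)
    obtain ⟨L, hL⟩ := exists_nat_gt (1 / δ₀)
    have hL0 : 0 < (L : ℝ) := (one_div_pos.2 hδ₀).trans hL
    have hLn : L ≠ 0 := by rintro rfl; simp at hL0
    set S : Nil → ℂ := fun w => ∑ j ∈ Finset.range N, F (flow (XX a) ((j * L : ℕ) : ℝ) w) with hS
    have hfc : ∀ t, Continuous fun w => F (flow (XX a) t w) := fun t =>
      hF.comp (continuous_flow _ _)
    have hSc : Continuous S := continuous_finsetSum _ fun j _ => hfc _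
    have hSz : ∀ s w, S (cen s w) = ee (k * s) * S w := by
      intro s w
      rw [hS]
      simp only
      rw [Finset.mul_sum]
      refine Finset.sum_congr rfl fun j _ => ?_
      rw [cen_flow, hz]
    have h1 : ∫ w, S w ∂lam = N * ∫ w, F w ∂lam := by
      rw [hS, integral_finsetSum _ fun j _ => cont_integrable (hfc _) _]
      simp_rw [inv_int hinv hF]
      simp
    have hHc : Continuous fun w => ‖S w‖ ^ 2 := hSc.norm.pow 2
    have h2 : ∫ w, ‖S w‖ ^ 2 ∂lam = ∫ w, ‖S w‖ ^ 2 ∂haar := by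
      refine base_int ha hinv hHc fun s w => ?_
      rw [hSz, norm_mul, norm_ee, one_mul]
    -- Jensen
    have h3 : ‖∫ w, S w ∂lam‖ ^ 2 ≤ ∫ w, ‖S w‖ ^ 2 ∂lam := by
      set c := ∫ w, ‖S w‖ ∂lam with hc
      have h4 : ‖∫ w, S w ∂lam‖ ≤ c := norm_integral_le_integral_norm _
      have hSn : Integrable (fun w => ‖S w‖) lam := cont_integrable hSc.norm _
      have h5 : 0 ≤ ∫ w, (‖S w‖ - c) ^ 2 ∂lam := integral_nonneg fun w => sq_nonneg _
      have h6 : ∫ w, (‖S w‖ - c) ^ 2 ∂lam = ∫ w, ‖S w‖ ^ 2 ∂lam - c ^ 2 := by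
        have h7 : ∀ w, (‖S w‖ - c) ^ 2 = (‖S w‖ ^ 2 + (-(2 * c)) * ‖S w‖) + c ^ 2 :=
          fun w => by ring
        have i1 : Integrable (fun w => ‖S w‖ ^ 2) lam := cont_integrable hHc _
        have i2 : Integrable (fun w => (-(2 * c)) * ‖S w‖) lam := hSn.const_mul _
        have i3 : Integrable (fun w => ‖S w‖ ^ 2 + (-(2 * c)) * ‖S w‖) lam := i1.add i2
        have e1 : ∫ w, ((‖S w‖ ^ 2 + (-(2 * c)) * ‖S w‖) + c ^ 2) ∂lam
            = ∫ w, (‖S w‖ ^ 2 + (-(2 * c)) * ‖S w‖) ∂lam + ∫ _w, c ^ 2 ∂lam :=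
          MeasureTheory.integral_add i3 (integrable_const _)
        have e2 : ∫ w, (‖S w‖ ^ 2 + (-(2 * c)) * ‖S w‖) ∂lam
            = ∫ w, ‖S w‖ ^ 2 ∂lam + ∫ w, (-(2 * c)) * ‖S w‖ ∂lam :=
          MeasureTheory.integral_add i1 i2
        simp_rw [h7]
        rw [e1, e2, MeasureTheory.integral_const_mul, MeasureTheory.integral_const, ← hc]
        simp only [probReal_univ, one_smul]
        ring
      have h8 : ‖∫ w, S w ∂lam‖ ^ 2 ≤ c ^ 2 := pow_le_pow_left₀ (norm_nonneg _) h4 2
      linarith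
    -- correlations
    have hcor : ∀ i ∈ Finset.range N, ∀ j ∈ Finset.range N,
        ‖∫ w, F (flow (XX a) ((i * L : ℕ) : ℝ) w) * conj (F (flow (XX a) ((j * L : ℕ) : ℝ) w))
          ∂haar‖ ≤ 2 * B * η + if i = j then B ^ 2 else 0 := by
      intro i _ j _
      split_ifs with hij
      · subst hij
        have h9 : ‖∫ w, F (flow (XX a) ((i * L : ℕ) : ℝ) w)
            * conj (F (flow (XX a) ((i * L : ℕ) : ℝ) w)) ∂haar‖ ≤ B ^ 2 * haar.real univ := by
          refine norm_integral_le_of_norm_le_const (Eventually.of_forall fun w => ?_)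
          rw [norm_mul, Complex.norm_conj, sq]
          exact mul_le_mul (hB _) (hB _) (norm_nonneg _) hB0
        rw [probReal_univ, mul_one] at h9
        have : 0 ≤ 2 * B * η := by positivity
        linarith
      · rw [add_zero]
        set h : ℤ := ((i : ℤ) - j) * L with hh
        have hij' : (i : ℤ) - j ≠ 0 := sub_ne_zero.2 (Nat.cast_injective.ne hij)
        have hh0 : h ≠ 0 := mul_ne_zero hij' (Nat.cast_ne_zero.2 hLn)
        have h10 : ∫ w, F (flow (XX a) ((i * L : ℕ) : ℝ) w)
            * conj (F (flow (XX a) ((j * L : ℕ) : ℝ) w)) ∂haar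
            = ∫ w, F (flow (XX a) h w) * conj (F w) ∂haar := by
          have hGc : Continuous fun w => F (flow (XX a) h w) * conj (F w) :=
            (hfc _).mul (Complex.continuous_conj.comp hF)
          have h11 := integral_rt hGc (hexp ((((j * L : ℕ) : ℝ)) • XX a))
          rw [← h11]
          refine integral_congr_ae (Eventually.of_forall fun w => ?_)
          show F (flow (XX a) ((i * L : ℕ) : ℝ) w) * conj (F (flow (XX a) ((j * L : ℕ) : ℝ) w))
            = F (flow (XX a) h (flow (XX a) ((j * L : ℕ) : ℝ) w))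
              * conj (F (flow (XX a) ((j * L : ℕ) : ℝ) w))
          rw [flow_add]
          congr 4
          rw [hh]
          push_cast
          ring
        rw [h10]
        refine decay hF hk hz hB hη hh0 fun x hx y z => hmod ?_ x hx y z
        rw [dist_zero_right, Real.norm_eq_abs, abs_div, abs_one, abs_mul, abs_two]
        have h12 : (L : ℝ) ≤ |((k * h : ℤ) : ℝ)| := by
          rw [← Int.cast_abs, hh, abs_mul, abs_mul, Nat.abs_cast]
          have h13 : 1 ≤ |k| := Int.one_le_abs hk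
          have h14 : 1 ≤ |(i : ℤ) - j| := Int.one_le_abs hij'
          have h15 : (L : ℤ) ≤ |k| * (|(i : ℤ) - j| * L) := by
            have : (0 : ℤ) ≤ L := Int.natCast_nonneg _
            nlinarith [mul_nonneg (sub_nonneg.2 h13) this, mul_nonneg (sub_nonneg.2 h14) this,
              mul_nonneg (mul_nonneg (sub_nonneg.2 h13) (sub_nonneg.2 h14)) this]
          exact_mod_cast h15
        rw [div_lt_iff₀ (by linarith)]
        have h16 : 1 < L * δ₀ := by
          rw [div_lt_iff₀ hδ₀] at hL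
          exact hL
        nlinarith
    have h17 : ∫ w, ‖S w‖ ^ 2 ∂haar ≤ N ^ 2 * (2 * B * η) + N * B ^ 2 := by
      have h18 : ((∫ w, ‖S w‖ ^ 2 ∂haar : ℝ) : ℂ) = ∑ i ∈ Finset.range N, ∑ j ∈ Finset.range N,
          ∫ w, F (flow (XX a) ((i * L : ℕ) : ℝ) w) * conj (F (flow (XX a) ((j * L : ℕ) : ℝ) w))
            ∂haar := by
        rw [← integral_complex_ofReal]
        have hpc : ∀ i j : ℕ, Continuous fun w => F (flow (XX a) ((i * L : ℕ) : ℝ) w)
            * conj (F (flow (XX a) ((j * L : ℕ) : ℝ) w)) := fun i j =>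
          (hfc _).mul (Complex.continuous_conj.comp (hfc _))
        have h19 : ∀ w, ((‖S w‖ ^ 2 : ℝ) : ℂ) = ∑ i ∈ Finset.range N, ∑ j ∈ Finset.range N,
            F (flow (XX a) ((i * L : ℕ) : ℝ) w) * conj (F (flow (XX a) ((j * L : ℕ) : ℝ) w)) := by
          intro w
          rw [← Finset.sum_mul_sum, ← map_sum, Complex.mul_conj, Complex.normSq_eq_norm_sq]
        simp_rw [h19]
        rw [integral_finsetSum _ fun i _ => ?_]
        · refine Finset.sum_congr rfl fun i _ => ?_
          exact integral_finsetSum _ fun j _ => cont_integrable (hpc i j) _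
        · exact cont_integrable (continuous_finsetSum _ fun j _ => hpc i j) _
      have h20 : ‖((∫ w, ‖S w‖ ^ 2 ∂haar : ℝ) : ℂ)‖ ≤ ∑ i ∈ Finset.range N,
          ∑ j ∈ Finset.range N, (2 * B * η + if i = j then B ^ 2 else 0) := by
        rw [h18]
        refine (norm_sum_le _ _).trans (Finset.sum_le_sum fun i hi => ?_)
        exact (norm_sum_le _ _).trans (Finset.sum_le_sum fun j hj => hcor i hi j hj)
      have h21 : ∑ i ∈ Finset.range N, ∑ j ∈ Finset.range N,
          (2 * B * η + if i = j then B ^ 2 else 0) = N ^ 2 * (2 * B * η) + N * B ^ 2 := by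
        simp_rw [Finset.sum_add_distrib, Finset.sum_const, Finset.card_range]
        have h22 : ∑ i ∈ Finset.range N, ∑ j ∈ Finset.range N, (if i = j then B ^ 2 else 0)
            = ∑ i ∈ Finset.range N, B ^ 2 := by
          refine Finset.sum_congr rfl fun i hi => ?_
          rw [Finset.sum_ite_eq]
          simp [hi]
        rw [h22, Finset.sum_const, Finset.card_range]
        simp only [nsmul_eq_mul]
        ring
      rw [h21] at h20
      exact (Real.le_norm_self _).trans (by rwa [Complex.norm_real] at h20)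
    rw [h1, norm_mul, Complex.norm_natCast, mul_pow, h2] at h3
    have hNp : (0 : ℝ) < N := Nat.cast_pos.2 hN
    have h23 : (N : ℝ) ^ 2 * ‖∫ w, F w ∂lam‖ ^ 2 ≤ N ^ 2 * (2 * B * η + B ^ 2 / N) := by
      have : (N : ℝ) ^ 2 * (2 * B * η + B ^ 2 / N) = N ^ 2 * (2 * B * η) + N * B ^ 2 := by
        field_simp
      linarith
    exact le_of_mul_le_mul_left h23 (by positivity)
  have hle : ∀ ε > 0, ‖∫ w, F w ∂lam‖ ^ 2 ≤ ε := by
    intro ε hε
    obtain ⟨N, hN⟩ := exists_nat_gt (2 * B ^ 2 / ε)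
    have hN0 : (0 : ℝ) < N := lt_of_le_of_lt (by positivity) hN
    have h1 := main (ε / (4 * (B + 1))) (by positivity) N (Nat.cast_pos.1 hN0)
    have h2 : 2 * B * (ε / (4 * (B + 1))) ≤ ε / 2 := by
      rw [mul_div_assoc', div_le_div_iff₀ (by positivity) two_pos]
      nlinarith
    have h3 : B ^ 2 / N ≤ ε / 2 := by
      rw [div_le_iff₀ hN0]
      rw [div_lt_iff₀ hε] at hN
      linarith
    linarith
  have h0 : ‖∫ w, F w ∂lam‖ ^ 2 ≤ 0 := le_of_forall_pos_le_add fun ε hε => by
    simpa using hle ε hε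
  have : ‖∫ w, F w ∂lam‖ = 0 := by
    have := sq_nonneg ‖∫ w, F w ∂lam‖
    nlinarith [norm_nonneg (∫ w, F w ∂lam)]
  exact norm_eq_zero.1 this

/-- a periodic continuous function without nonzero frequencies -/
theorem per_const {Φ : ℝ → ℂ} (hc : Continuous Φ) (hp : ∀ s, Φ (s + 1) = Φ s)
    (h0 : ∀ k : ℤ, k ≠ 0 → ∫ s in (0 : ℝ)..1, ee (-(k * s)) * Φ s = 0) :
    Φ 0 = ∫ s in (0 : ℝ)..1, Φ s := by
  have hper : Function.Periodic Φ 1 := hp
  let f : C(AddCircle (1 : ℝ), ℂ) := ⟨hper.lift, hc.quotient_liftOn' _⟩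
  have hf : ∀ s : ℝ, f (s : AddCircle (1 : ℝ)) = Φ s := fun s => hper.lift_coe s
  have hcoef : ∀ k : ℤ, fourierCoeff f k = ∫ s in (0 : ℝ)..1, ee (-(k * s)) * Φ s := by
    intro k
    rw [fourierCoeff_eq_intervalIntegral _ _ 0]
    rw [div_one, one_smul, zero_add]
    refine integral_congr fun s _ => ?_
    show fourier (-k) (s : AddCircle (1 : ℝ)) • f (s : AddCircle (1 : ℝ)) = _
    rw [hf, fourier_coe_apply, smul_eq_mul, ee]
    congr 2
    push_cast
    ring
  have hs : Summable (fourierCoeff f) := by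
    refine summable_of_ne_finset_zero (s := {0}) fun k hk => ?_
    rw [hcoef, h0 k (by simpa using hk)]
  have h1 := hasSum_fourier_series_of_summable hs
  have h2 : HasSum (fun i => fourierCoeff f i • (fourier i : C(AddCircle (1 : ℝ), ℂ)))
      (fourierCoeff f 0 • (fourier 0 : C(AddCircle (1 : ℝ), ℂ))) := by
    refine hasSum_single 0 fun k hk => ?_
    rw [hcoef, h0 k hk]
    ext x
    simp
  have h3 := h1.unique h2
  have h4 : f ((0 : ℝ) : AddCircle (1 : ℝ)) = (fourierCoeff f 0 • (fourier 0 : C(AddCircle (1 : ℝ), ℂ)))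
      ((0 : ℝ) : AddCircle (1 : ℝ)) := by rw [← h3]
  rw [hf] at h4
  rw [h4, ContinuousMap.smul_apply, fourier_zero, smul_eq_mul, mul_one, hcoef]
  refine integral_congr fun s _ => ?_
  show ee (-(((0 : ℤ) : ℝ) * s)) * Φ s = Φ s
  rw [Int.cast_zero, zero_mul, neg_zero, ee_zero, one_mul]

/-- integrals of continuous functions -/
theorem ue_int {lam : Measure Nil} [IsProbabilityMeasure lam] {a : ℝ} (ha : Irrational a)
    (hinv : ∀ t, lam.map (flow (XX a) t) = lam) {F : Nil → ℂ} (hF : Continuous F) :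
    ∫ w, F w ∂lam = ∫ w, F w ∂haar := by
  have hj : Continuous (fun q : ℝ × Nil => F (cen q.1 q.2)) := hF.comp continuous_cen2
  -- Fourier components
  set Fk : ℤ → Nil → ℂ := fun k w => ∫ s in (0 : ℝ)..1, ee (-(k * s)) * F (cen s w) with hFk
  have hjk : ∀ k : ℤ, Continuous (fun q : Nil × ℝ => ee (-(k * q.2)) * F (cen q.2 q.1)) := fun k =>
    (continuous_ee.comp (by fun_prop)).mul (hj.comp continuous_swap)
  have hFc : ∀ k, Continuous (Fk k) := fun k =>
    intervalIntegral.continuous_parametric_intervalIntegral_of_continuous'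
      (f := fun w s => ee (-(k * s)) * F (cen s w)) (hjk k) 0 1
  have hFz : ∀ (k : ℤ) r w, Fk k (cen r w) = ee (k * r) * Fk k w := by
    intro k r w
    rw [hFk]
    simp only
    rw [← intervalIntegral.integral_const_mul]
    rw [← per_shift (f := fun s => ee (k * r) * (ee (-(k * s)) * F (cen s w))) (fun s => ?_) r]
    · refine integral_congr fun s _ => ?_
      show ee (-(k * s)) * F (cen s (cen r w)) = ee (k * r) * (ee (-(k * (s + r))) * F (cen (s + r) w))
      rw [cen_cen, add_comm r s, ← mul_assoc, ← ee_add]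
      congr 2
      ring
    · show ee (k * r) * (ee (-(k * (s + 1))) * F (cen (s + 1) w)) = _
      have h1 : cen (s + 1) w = cen s w := by rw [add_comm, ← cen_cen, cen_one]
      have h2 : ee (-(k * (s + 1))) = ee (-(k * s)) := by
        rw [mul_add, mul_one, neg_add, ee_add]
        have : ee (-(k : ℝ)) = 1 := by
          have := ee_int (-k)
          rwa [Int.cast_neg] at this
        rw [this, mul_one]
      rw [h1, h2]
  -- Fubini
  have hsw : ∀ (m : Measure Nil) [IsProbabilityMeasure m] (k : ℤ),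
      ∫ s in (0 : ℝ)..1, ee (-(k * s)) * ∫ w, F (cen s w) ∂m = ∫ w, Fk k w ∂m := by
    intro m _ k
    obtain ⟨B, hB0, hB⟩ := bdd_of_cont hF
    rw [intervalIntegral.integral_of_le zero_le_one]
    have h1 : ∀ s : ℝ, ee (-(k * s)) * ∫ w, F (cen s w) ∂m
        = ∫ w, ee (-(k * s)) * F (cen s w) ∂m := fun s =>
      (MeasureTheory.integral_const_mul _ _).symm
    simp_rw [h1]
    rw [integral_integral_swap (f := fun s w => ee (-(k * s)) * F (cen s w))]
    · refine integral_congr_ae (Eventually.of_forall fun w => ?_)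
      show (∫ s in Ioc (0 : ℝ) 1, ee (-(k * s)) * F (cen s w)) = Fk k w
      rw [← intervalIntegral.integral_of_le zero_le_one]
    · refine Integrable.of_bound (C := B) ?_ (Eventually.of_forall fun q => ?_)
      · exact ((hjk k).comp continuous_swap).aestronglyMeasurable
      · show ‖ee (-(k * q.1)) * F (cen q.1 q.2)‖ ≤ B
        rw [norm_mul, norm_ee, one_mul]
        exact hB _
  have hval : ∀ (m : Measure Nil) [IsProbabilityMeasure m],
      (∀ k : ℤ, k ≠ 0 → ∫ w, Fk k w ∂m = 0) → ∫ w, F w ∂m = ∫ w, Fk 0 w ∂m := by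
    intro m _ hk
    have hc : Continuous fun s => ∫ w, F (cen s w) ∂m := by
      have h := continuous_parametric_integral_of_continuous (μ := m)
        (f := fun (s : ℝ) (w : Nil) => F (cen s w)) hj isCompact_univ
      simpa only [setIntegral_univ] using h
    have h1 := per_const (Φ := fun s => ∫ w, F (cen s w) ∂m) hc (fun s => by
      refine integral_congr_ae (Eventually.of_forall fun w => ?_)
      show F (cen (s + 1) w) = F (cen s w)
      rw [add_comm, ← cen_cen, cen_one]) (fun k hk' => by rw [hsw m k]; exact hk k hk')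
    have h2 : ∫ w, F (cen 0 w) ∂m = ∫ w, F w ∂m := by simp_rw [cen_zero]
    rw [← h2]
    rw [show ∫ w, F (cen 0 w) ∂m = _ from h1, ← hsw m 0]
    refine integral_congr fun s _ => ?_
    show _ = ee (-(((0 : ℤ) : ℝ) * s)) * _
    rw [Int.cast_zero, zero_mul, neg_zero, ee_zero, one_mul]
  have hinvh : ∀ t, haar.map (flow (XX a) t) = haar := fun t => (mp_flow (XX a) t).map_eq
  rw [hval lam (fun k hk => freq_zero ha hinv (hFc k) hk (hFz k)),
    hval haar (fun k hk => freq_zero ha hinvh (hFc k) hk (hFz k))]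
  refine base_int ha hinv (hFc 0) fun s w => ?_
  rw [hFz 0, Int.cast_zero, zero_mul, ee_zero, one_mul]

theorem uniquelyErgodic {a : ℝ} (ha : Irrational a) : UniquelyErgodic (XX a) haar := by
  refine ⟨fun t => (mp_flow (XX a) t).map_eq, fun lam hlam hinv => ?_⟩
  refine ext_of_forall_integral_eq_of_IsFiniteMeasure fun f => ?_
  have h := ue_int ha hinv (F := fun w => ((f w : ℝ) : ℂ))
    (Complex.continuous_ofReal.comp f.continuous)
  rw [integral_complex_ofReal, integral_complex_ofReal] at h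
  exact_mod_cast h

end Q176.TC
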