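import Pool.Agent.Q176.TC.A5

/-! Invariant functions of a uniquely ergodic nilflow are constant. -/

set_option autoImplicit false

open MeasureTheory Set Filter Topology
open scoped ProbabilityTheory

namespace Q176.TC

theorem ergodic_set {X : ℝ × ℝ × ℝ} (hue : UniquelyErgodic X haar) {A : Set Nil}
    (hA : MeasurableSet A) (hinv : ∀ t, ∀ᵐ w ∂haar, flow X t w ∈ A ↔ w ∈ A) :
    (∀ᵐ w ∂haar, w ∈ A) ∨ ∀ᵐ w ∂haar, w ∉ A := by
  by_cases h0 : haar A = 0
  · right
    exact measure_eq_zero_iff_ae_notMem.1 h0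
  · left
    have hp : IsProbabilityMeasure (haar[|A]) := ProbabilityTheory.cond_isProbabilityMeasure h0
    have h1 : haar[|A] = haar := by
      refine hue.2 _ hp fun t => ?_
      ext B hB
      rw [Measure.map_apply (measurable_flow X t) hB, ProbabilityTheory.cond_apply hA,
        ProbabilityTheory.cond_apply hA]
      congr 1
      have h2 : haar (A ∩ B) = haar (flow X t ⁻¹' (A ∩ B)) :=
        ((mp_flow X t).measure_preimage (hA.inter hB).nullMeasurableSet).symm
      rw [h2]
      refine measure_congr ?_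
      filter_upwards [hinv t] with w hw
      exact propext ⟨fun h => ⟨hw.2 h.1, h.2⟩, fun h => ⟨hw.1 h.1, h.2⟩⟩
    have h3 : haar Aᶜ = 0 := by
      rw [← h1, ProbabilityTheory.cond_apply hA]
      simp
    have h4 := measure_eq_zero_iff_ae_notMem.1 h3
    filter_upwards [h4] with w hw
    exact not_not.1 hw

theorem ergodic_const {X : ℝ × ℝ × ℝ} (hue : UniquelyErgodic X haar) {u : Nil → ℝ}
    (hu : Measurable u) (hinv : ∀ t, ∀ᵐ w ∂haar, u (flow X t w) = u w) :
    ∃ c, ∀ᵐ w ∂haar, u w = c := by
  refine exists_eventuallyEq_const_of_forall_separating MeasurableSet fun U hU => ?_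
  refine ergodic_set hue (A := u ⁻¹' U) (hu hU) fun t => ?_
  filter_upwards [hinv t] with w hw
  rw [mem_preimage, mem_preimage, hw]

end Q176.TC
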