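import Mathlib

/-! The periodic functions `G j` and the Liouville number `a`. -/

set_option autoImplicit false

open MeasureTheory Set Filter Topology

namespace Q176.TC

/-- a smooth function of period one, equal to zero or one on most of the circle -/
noncomputable def G (j : ℕ) (s : ℝ) : ℝ :=
  Real.smoothTransition (1 / 2 + 2 ^ (j + 1) * Real.cos (2 * Real.pi * s))

theorem G_contDiff (j : ℕ) : ContDiff ℝ (⊤ : ℕ∞) (G j) := by
  have h1 : ContDiff ℝ (⊤ : ℕ∞) Real.smoothTransition := Real.smoothTransition.contDiff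
  have h2 : ContDiff ℝ (⊤ : ℕ∞)
      (fun s : ℝ => 1 / 2 + 2 ^ (j + 1) * Real.cos (2 * Real.pi * s)) := by fun_prop
  exact h1.comp h2

theorem G_per (j : ℕ) (s : ℝ) (n : ℤ) : G j (s + n) = G j s := by
  rw [G, G]
  congr 3
  rw [mul_add, mul_comm (2 * Real.pi) (n : ℝ)]
  exact Real.cos_add_int_mul_two_pi _ _

theorem st_symm (x : ℝ) : Real.smoothTransition (1 - x) = 1 - Real.smoothTransition x := by
  have h1 := Real.smoothTransition.pos_denom x
  rw [Real.smoothTransition, Real.smoothTransition, sub_sub_cancel, add_comm, eq_sub_iff_add_eq,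
    ← add_div, add_comm (expNegInvGlue (1 - x)), div_self h1.ne']

theorem G_half (j : ℕ) (s : ℝ) : G j (s + 1 / 2) = 1 - G j s := by
  rw [G, G, ← st_symm]
  congr 1
  have h : Real.cos (2 * Real.pi * (s + 1 / 2)) = -Real.cos (2 * Real.pi * s) := by
    rw [mul_add, show 2 * Real.pi * (1 / 2) = Real.pi by ring, Real.cos_add_pi]
  rw [h]
  ring

theorem G_nonneg (j : ℕ) (s : ℝ) : 0 ≤ G j s := Real.smoothTransition.nonneg _

theorem G_le_one (j : ℕ) (s : ℝ) : G j s ≤ 1 := Real.smoothTransition.le_one _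

theorem G_zero_or_one (j : ℕ) {s : ℝ} (h : 1 / 2 ≤ 2 ^ (j + 1) * |Real.cos (2 * Real.pi * s)|) :
    G j s = 0 ∨ G j s = 1 := by
  have hp : (0 : ℝ) < 2 ^ (j + 1) := by positivity
  rcases le_total 0 (Real.cos (2 * Real.pi * s)) with h1 | h1
  · right
    rw [abs_of_nonneg h1] at h
    exact Real.smoothTransition.one_of_one_le (by linarith)
  · left
    rw [abs_of_nonpos h1] at h
    exact Real.smoothTransition.zero_of_nonpos (by linarith)

theorem abs_cos_lower {s : ℝ} (h0 : 0 ≤ s) (h1 : s ≤ 1 / 2) :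
    |1 - 4 * s| ≤ |Real.cos (2 * Real.pi * s)| := by
  have hpi := Real.pi_pos
  rcases le_total s (1 / 4) with h | h
  · have h2 : 2 / Real.pi * (Real.pi / 2 - 2 * Real.pi * s) ≤ Real.sin (Real.pi / 2 - 2 * Real.pi * s) :=
      Real.mul_le_sin (by nlinarith) (by nlinarith)
    rw [Real.sin_pi_div_two_sub] at h2
    have h3 : 2 / Real.pi * (Real.pi / 2 - 2 * Real.pi * s) = 1 - 4 * s := by
      field_simp
      ring
    rw [h3] at h2
    rw [abs_of_nonneg (by linarith : 0 ≤ 1 - 4 * s)]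
    exact h2.trans (le_abs_self _)
  · have h2 : 2 / Real.pi * (2 * Real.pi * s - Real.pi / 2) ≤ Real.sin (2 * Real.pi * s - Real.pi / 2) :=
      Real.mul_le_sin (by nlinarith) (by nlinarith)
    rw [Real.sin_sub_pi_div_two] at h2
    have h3 : 2 / Real.pi * (2 * Real.pi * s - Real.pi / 2) = 4 * s - 1 := by
      field_simp
      ring
    rw [h3] at h2
    rw [abs_of_nonpos (by linarith : 1 - 4 * s ≤ 0)]
    have := neg_le_abs (Real.cos (2 * Real.pi * s))
    linarith

/-- the set where `G j` is neither zero nor one is small -/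
theorem exc_subset (j : ℕ) : {s : ℝ | G j s ≠ 0 ∧ G j s ≠ 1} ∩ Ico 0 1
    ⊆ Icc (1 / 4 - 1 / (4 * 2 ^ (j + 2))) (1 / 4 + 1 / (4 * 2 ^ (j + 2))) ∪
      Icc (3 / 4 - 1 / (4 * 2 ^ (j + 2))) (3 / 4 + 1 / (4 * 2 ^ (j + 2))) := by
  rintro s ⟨⟨hs0, hs1⟩, h0, h1⟩
  have hc : 2 ^ (j + 1) * |Real.cos (2 * Real.pi * s)| < 1 / 2 := by
    by_contra hcon
    rcases G_zero_or_one j (not_lt.1 hcon) with h | h
    · exact hs0 h
    · exact hs1 h
  have hp : (0 : ℝ) < 2 ^ (j + 1) := by positivity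
  have hp2 : (2 : ℝ) ^ (j + 2) = 2 * 2 ^ (j + 1) := by ring
  have hc2 : |Real.cos (2 * Real.pi * s)| < 1 / 2 ^ (j + 2) := by
    rw [lt_div_iff₀ (by positivity), hp2]
    linarith
  rcases le_total s (1 / 2) with h | h
  · left
    have h2 := (abs_cos_lower h0 h).trans_lt hc2
    rw [abs_lt] at h2
    have h3 : 1 / (4 * (2 : ℝ) ^ (j + 2)) = (1 / 2 ^ (j + 2)) / 4 := by ring
    rw [h3]
    constructor <;> linarith [h2.1, h2.2]
  · right
    have h2 := abs_cos_lower (s := s - 1 / 2) (by linarith) (by linarith)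
    have h4 : Real.cos (2 * Real.pi * (s - 1 / 2)) = -Real.cos (2 * Real.pi * s) := by
      rw [mul_sub, show 2 * Real.pi * (1 / 2) = Real.pi by ring, Real.cos_sub_pi]
    rw [h4, abs_neg] at h2
    have h2 := h2.trans_lt hc2
    rw [abs_lt] at h2
    have h3 : 1 / (4 * (2 : ℝ) ^ (j + 2)) = (1 / 2 ^ (j + 2)) / 4 := by ring
    rw [h3]
    constructor <;> linarith [h2.1, h2.2]

theorem exc_volume (j : ℕ) : volume ({s : ℝ | G j s ≠ 0 ∧ G j s ≠ 1} ∩ Ico 0 1)
    ≤ ENNReal.ofReal ((1 / 2) ^ j) := by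
  refine (measure_mono (exc_subset j)).trans ((measure_union_le _ _).trans ?_)
  rw [Real.volume_Icc, Real.volume_Icc, ← ENNReal.ofReal_add]
  · refine ENNReal.ofReal_le_ofReal ?_
    have h1 : (1 : ℝ) / (4 * 2 ^ (j + 2)) = (1 / 2) ^ j / 16 := by
      rw [one_div_pow]; field_simp; ring
    rw [h1]
    have : (0 : ℝ) < (1 / 2) ^ j := by positivity
    linarith
  · have : (0 : ℝ) < 1 / (4 * 2 ^ (j + 2)) := by positivity
    linarith
  · have : (0 : ℝ) < 1 / (4 * 2 ^ (j + 2)) := by positivity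
    linarith

theorem iter_per (j m : ℕ) (s : ℝ) : iteratedDeriv m (G j) (s + 1) = iteratedDeriv m (G j) s := by
  have h := congrFun (iteratedDeriv_comp_add_const m (G j) 1) s
  have h2 : (fun z => G j (z + 1)) = G j := by
    funext z
    have := G_per j z 1
    rwa [Int.cast_one] at this
  rw [h2] at h
  exact h.symm

theorem iter_bdd (j m : ℕ) : ∃ C, ∀ s, |iteratedDeriv m (G j) s| ≤ C := by
  have hc : Continuous (iteratedDeriv m (G j)) :=
    (G_contDiff j).continuous_iteratedDeriv m (by exact_mod_cast le_top)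
  obtain ⟨C, hC⟩ := isCompact_Icc.exists_bound_of_continuousOn (s := Icc (0 : ℝ) 1) hc.continuousOn
  refine ⟨C, fun s => ?_⟩
  have hp : Function.Periodic (iteratedDeriv m (G j)) 1 := iter_per j m
  obtain ⟨y, hy, he⟩ := hp.exists_mem_Ico₀ one_pos s
  rw [he]
  exact hC y ⟨hy.1, hy.2.le⟩

theorem exists_C (j : ℕ) : ∃ C : ℕ, ∀ m, m ≤ j + 1 → ∀ s, |iteratedDeriv m (G j) s| ≤ C := by
  choose C hC using iter_bdd j
  refine ⟨⌈∑ m ∈ Finset.range (j + 2), |C m|⌉₊, fun m hm s => (hC m s).trans ?_⟩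
  refine (le_abs_self _).trans (le_trans ?_ (Nat.le_ceil _))
  exact Finset.single_le_sum (f := fun m => |C m|) (fun i _ => abs_nonneg _)
    (Finset.mem_range.2 (by omega))

noncomputable def Cn (j : ℕ) : ℕ := (exists_C j).choose

theorem Cn_spec (j : ℕ) : ∀ m, m ≤ j + 1 → ∀ s, |iteratedDeriv m (G j) s| ≤ Cn j :=
  (exists_C j).choose_spec

noncomputable def Bn (j : ℕ) : ℕ := 1 + ∑ i ∈ Finset.range (j + 1), Cn i

theorem Bn_mono {i j : ℕ} (h : i ≤ j) : Bn i ≤ Bn j :=
  Nat.add_le_add_left (Finset.sum_le_sum_of_subset (Finset.range_mono (by omega))) 1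

theorem Bn_pos (j : ℕ) : 1 ≤ Bn j := Nat.le_add_right _ _

theorem Bn_spec (j : ℕ) {m : ℕ} (hm : m ≤ j + 1) (s : ℝ) : |iteratedDeriv m (G j) s| ≤ Bn j := by
  refine (Cn_spec j m hm s).trans ?_
  have : Cn j ≤ Bn j := (Finset.single_le_sum (f := Cn) (fun i _ => Nat.zero_le _)
    (Finset.mem_range.2 (Nat.lt_succ_self j))).trans (Nat.le_add_left _ _)
  exact_mod_cast this

theorem deriv_G_le (j : ℕ) (s : ℝ) : |deriv (G j) s| ≤ Bn j := by
  have := Bn_spec j (m := 1) (by omega) s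
  rwa [iteratedDeriv_one] at this

theorem G_lip (j : ℕ) (s t : ℝ) : |G j s - G j t| ≤ Bn j * |s - t| := by
  have h := convex_univ.norm_image_sub_le_of_norm_deriv_le (f := G j) (C := Bn j)
    (fun x _ => ((G_contDiff j).differentiable (by simp)).differentiableAt)
    (fun x _ => deriv_G_le j x) (mem_univ t) (mem_univ s)
  exact h

end Q176.TC
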