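import Pool.Agent.Q176.TC.C9

/-! The function `α` is not measurably trivial, end of the proof. -/

set_option autoImplicit false

open MeasureTheory Set Filter Topology

namespace Q176.TC

theorem ee_lip (x : ℝ) : ‖ee x - 1‖ ≤ 2 * Real.pi * |x| := by
  have h := Real.norm_exp_I_mul_ofReal_sub_one_le (x := 2 * Real.pi * x)
  have h1 : Complex.I * ((2 * Real.pi * x : ℝ) : ℂ) = 2 * Real.pi * x * Complex.I := by
    push_cast; ring
  rw [h1, Real.norm_eq_abs, abs_mul, abs_of_pos (by positivity : 0 < 2 * Real.pi)] at h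
  exact h

theorem ee_far {e : ℝ} (he : |e| ≤ 1 / 8) : 1 ≤ ‖ee (1 / 2 + e) - 1‖ := by
  have h1 : ee (1 / 2 + e) - 1 = -(2 + (ee e - 1)) := by
    rw [ee_add, ee_half]; ring
  rw [h1, norm_neg]
  have h2 := ee_lip e
  have h3 : ‖(2 : ℂ)‖ ≤ ‖2 + (ee e - 1)‖ + ‖ee e - 1‖ := by
    have := norm_sub_le (2 + (ee e - 1)) (ee e - 1)
    rwa [add_sub_cancel_right] at this
  rw [Complex.norm_ofNat] at h3
  have h4 : 2 * Real.pi * |e| ≤ 1 := by
    have h5 := Real.pi_lt_four
    have h6 := Real.pi_pos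
    nlinarith [abs_nonneg e]
  linarith

/-- the cocycle at the time `tt k` -/
theorem Sc_tt (k : ℕ) (w : Nil) : |Sc (tt k) w - (1 - 2 * V k w)| ≤ 2 * (1 / 2) ^ k := by
  obtain ⟨x, y, z, rfl⟩ := surj_pt w
  have h1 : HasSum (fun j => if j = k then 1 - 2 * V k (pt x y z) else 0)
      (1 - 2 * V k (pt x y z)) := hasSum_ite_eq k _
  have h2 := (inc_summable (tt k) (pt x y z)).hasSum
  have h3 := h2.sub h1
  have h4 : Sc (tt k) (pt x y z) - (1 - 2 * V k (pt x y z)) = ∑' j,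
      ((V j (flow (XX aa) (tt k) (pt x y z)) - V j (pt x y z))
        - if j = k then 1 - 2 * V k (pt x y z) else 0) := by
    rw [h3.tsum_eq, Sc]
  rw [h4, ← Real.norm_eq_abs]
  have h5 : HasSum (fun j : ℕ => (1 / 2 : ℝ) ^ j * (1 / 2) ^ k) (2 * (1 / 2) ^ k) :=
    hasSum_geometric_two.mul_right _
  refine tsum_of_norm_bounded h5 fun j => ?_
  rw [V_flow, V_pt, V_pt, Real.norm_eq_abs]
  have h6 := key_shift k j (lf j x y)
  refine le_trans (le_of_eq ?_) h6
  congr 1
  split_ifs with h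
  · subst h; ring
  · ring

/-- the half shift -/
noncomputable def hs (k : ℕ) : Heis := hv 0 (1 / 2 / q k) 0

theorem V_hs (k : ℕ) (w : Nil) : V k (rt (hs k) w) = 1 - V k w := by
  obtain ⟨x, y, z, rfl⟩ := surj_pt w
  have hq := qr_pos k
  rw [hs, rt_pt, V_pt, V_pt, ← G_half, lf, lf]
  congr 1
  field_simp
  ring

theorem far (k : ℕ) (hk : 4 ≤ k) {z : ℂ} (hz : ‖z‖ = 1) {w : Nil} (hw : V k w = 0 ∨ V k w = 1) :
    1 ≤ ‖z * ee (Sc (tt k) w / 4) - 1‖ + ‖z * ee (Sc (tt k) (rt (hs k) w) / 4) - 1‖ := by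
  set A := Sc (tt k) w with hA
  set B := Sc (tt k) (rt (hs k) w) with hB
  have h1 := Sc_tt k w
  have h2 := Sc_tt k (rt (hs k) w)
  rw [V_hs] at h2
  have hpk : (1 / 2 : ℝ) ^ k ≤ 1 / 16 := by
    refine (pow_le_pow_of_le_one (by norm_num) (by norm_num) hk).trans (by norm_num)
  have h3 : ‖z * ee (A / 4) - z * ee (B / 4)‖ ≤ ‖z * ee (A / 4) - 1‖ + ‖z * ee (B / 4) - 1‖ := by
    have := norm_sub_le (z * ee (A / 4) - 1) (z * ee (B / 4) - 1)
    rwa [sub_sub_sub_cancel_right] at this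
  refine le_trans ?_ h3
  rw [← mul_sub, norm_mul, hz, one_mul]
  rw [abs_le] at h1 h2
  rcases hw with h | h
  · rw [h] at h1 h2
    -- A near 1, B near -1
    have e1 : ee (A / 4) - ee (B / 4) = ee (B / 4) * (ee (1 / 2 + ((A - B) / 4 - 1 / 2)) - 1) := by
      rw [mul_sub, ← ee_add, mul_one]; congr 2; ring
    rw [e1, norm_mul, norm_ee, one_mul]
    refine ee_far ?_
    rw [abs_le]
    constructor <;> linarith [h1.1, h1.2, h2.1, h2.2]
  · rw [h] at h1 h2
    have e1 : ee (A / 4) - ee (B / 4)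
        = -(ee (A / 4) * (ee (1 / 2 + ((B - A) / 4 - 1 / 2)) - 1)) := by
      rw [mul_sub, ← ee_add, mul_one, neg_sub]; congr 2; ring
    rw [e1, norm_neg, norm_mul, norm_ee, one_mul]
    refine ee_far ?_
    rw [abs_le]
    constructor <;> linarith [h1.1, h1.2, h2.1, h2.2]

theorem int_far (k : ℕ) (hk : 4 ≤ k) {z : ℂ} (hz : ‖z‖ = 1) :
    1 / 4 ≤ ∫ w, ‖z * ee (Sc (tt k) w / 4) - 1‖ ∂haar := by
  set T : Nil → ℝ := fun w => ‖z * ee (Sc (tt k) w / 4) - 1‖ with hT
  have hTc : Continuous T :=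
    ((continuous_const.mul (continuous_ee.comp ((Sc_cont (tt k)).div_const 4))).sub
      continuous_const).norm
  have h1 : ∫ w, T (rt (hs k) w) ∂haar = ∫ w, T w ∂haar := integral_rt hTc _
  have hTi : Integrable T haar := cont_integrable hTc _
  have hTi2 : Integrable (fun w => T (rt (hs k) w)) haar :=
    cont_integrable (hTc.comp (continuous_rt _)) _
  have h2 : ∫ w, ((ExN k)ᶜ).indicator 1 w ∂haar ≤ ∫ w, (T w + T (rt (hs k) w)) ∂haar := by
    refine integral_mono_of_nonneg (Eventually.of_forall fun w => ?_) (hTi.add hTi2)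
      (Eventually.of_forall fun w => ?_)
    · exact indicator_nonneg (fun _ _ => zero_le_one) w
    · by_cases hw : w ∈ ExN k
      · show ((ExN k)ᶜ).indicator 1 w ≤ T w + T (rt (hs k) w)
        rw [indicator_of_notMem (fun h : w ∈ (ExN k)ᶜ => h hw)]
        exact add_nonneg (norm_nonneg _) (norm_nonneg _)
      · show ((ExN k)ᶜ).indicator 1 w ≤ T w + T (rt (hs k) w)
        rw [indicator_of_mem (show w ∈ (ExN k)ᶜ from hw)]
        have hw' : V k w = 0 ∨ V k w = 1 := by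
          by_contra h
          exact hw (not_or.1 h)
        exact far k hk hz hw'
  have h3 : haar.real (ExN k)ᶜ = 1 - haar.real (ExN k) := probReal_compl_eq_one_sub (ExN_meas k)
  have h4 : haar.real (ExN k) ≤ 1 / 2 := by
    rw [measureReal_def]
    refine ENNReal.toReal_le_of_le_ofReal (by norm_num) ((ExN_small k).trans ?_)
    refine ENNReal.ofReal_le_ofReal ?_
    refine (pow_le_pow_of_le_one (by norm_num) (by norm_num) (by omega : 1 ≤ k)).trans (by norm_num)
  rw [integral_indicator_one (ExN_meas k).compl, h3, integral_add hTi hTi2, h1] at h2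
  linarith

theorem not_trivial : ¬ MeasurablyTrivial (XX aa) haar al := by
  intro h
  obtain ⟨c, u, hu, h⟩ := trivial_tr h
  set b : Nil → ℂ := fun w => ee (u w / 4) with hb
  have hbm : Measurable b := continuous_ee.measurable.comp (hu.div_const 4)
  have hb1 : ∀ w, ‖b w‖ ≤ 1 := fun w => (norm_ee _).le
  have hbc : ∀ n : ℕ, 0 < n → ∀ i : ℕ, ∀ᵐ w ∂haar, b (cen (i / n) w) = b w := by
    intro n hn i
    filter_upwards [cen_rat hu h hn i] with w hw
    show ee (u (cen (i / n) w) / 4) = ee (u w / 4)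
    rw [hw]
  have h1 := rigid hbm hb1 hbc (η := 1 / 32) (by norm_num)
  obtain ⟨k, hk1, hk⟩ := (h1.and (eventually_ge_atTop 4)).exists
  have h2 : ∫ w, ‖b (flow (XX aa) (tt k) w) - b w‖ ∂haar
      = ∫ w, ‖ee ((1 - c) * tt k / 4) * ee (Sc (tt k) w / 4) - 1‖ ∂haar := by
    refine integral_congr_ae ?_
    filter_upwards [h (tt k)] with w hw
    have h3 : u (flow (XX aa) (tt k) w) / 4
        = u w / 4 + ((1 - c) * tt k / 4 + Sc (tt k) w / 4) := by linarith
    show ‖ee (u (flow (XX aa) (tt k) w) / 4) - ee (u w / 4)‖ = _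
    rw [h3, ee_add, ee_add]
    have h4 : ee (u w / 4) * (ee ((1 - c) * tt k / 4) * ee (Sc (tt k) w / 4)) - ee (u w / 4)
        = ee (u w / 4) * (ee ((1 - c) * tt k / 4) * ee (Sc (tt k) w / 4) - 1) := by ring
    rw [h4, norm_mul, norm_ee, one_mul]
  have h5 := int_far k hk (z := ee ((1 - c) * tt k / 4)) (norm_ee _)
  rw [h2] at hk1
  linarith

end Q176.TC
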