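import Pool.Agent.Q176.TC.C1

/-! The Liouville number `a`. -/

set_option autoImplicit false

open MeasureTheory Set Filter Topology

namespace Q176.TC

/-- the denominators -/
noncomputable def q : ℕ → ℕ
  | 0 => 1
  | j + 1 => 2 * q j ^ 2 * (2 ^ (2 * j + 5) * Bn (j + 1) * (3 * q j) ^ (j + 1))

noncomputable def MM (j : ℕ) : ℕ := 2 ^ (2 * j + 5) * Bn (j + 1) * (3 * q j) ^ (j + 1)

theorem q_zero : q 0 = 1 := by rw [q]

theorem q_succ (j : ℕ) : q (j + 1) = 2 * q j ^ 2 * MM j := by rw [q, MM]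

/-- the numerators -/
noncomputable def p : ℕ → ℕ
  | 0 => 1
  | j + 1 => 2 * q j * MM j * p j + 1

theorem p_zero : p 0 = 1 := by rw [p]

theorem p_succ (j : ℕ) : p (j + 1) = 2 * q j * MM j * p j + 1 := by rw [p]

theorem MM_pos_of {j : ℕ} (h : 0 < q j) : 0 < MM j :=
  Nat.mul_pos (Nat.mul_pos (by positivity) (Bn_pos _)) (by positivity)

theorem q_pos (j : ℕ) : 0 < q j := by
  induction j with
  | zero => rw [q_zero]; exact one_pos
  | succ j ih =>
    rw [q_succ]
    exact Nat.mul_pos (by positivity) (MM_pos_of ih)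

theorem MM_pos (j : ℕ) : 0 < MM j := MM_pos_of (q_pos j)

theorem q_double (j : ℕ) : 2 * q j ≤ q (j + 1) := by
  rw [q_succ]
  calc 2 * q j = 2 * q j * 1 * 1 := by ring
    _ ≤ 2 * q j * q j * MM j := Nat.mul_le_mul (Nat.mul_le_mul_left _ (q_pos j)) (MM_pos j)
    _ = 2 * q j ^ 2 * MM j := by ring

theorem q_mono {i j : ℕ} (h : i ≤ j) : q i ≤ q j := by
  refine monotone_nat_of_le_succ (fun j => ?_) h
  have := q_double j
  omega

theorem q_pow (n i : ℕ) : 2 ^ i * q n ≤ q (i + n) := by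
  induction i with
  | zero => simp
  | succ i ih =>
    have h := q_double (i + n)
    rw [show i + 1 + n = i + n + 1 by ring]
    calc 2 ^ (i + 1) * q n = 2 * (2 ^ i * q n) := by ring
      _ ≤ 2 * q (i + n) := Nat.mul_le_mul_left _ ih
      _ ≤ _ := h

theorem qr_pos (j : ℕ) : (0 : ℝ) < q j := Nat.cast_pos.2 (q_pos j)

theorem qr_one (j : ℕ) : (1 : ℝ) ≤ q j := by exact_mod_cast q_pos j

theorem MMr_pos (j : ℕ) : (0 : ℝ) < MM j := Nat.cast_pos.2 (MM_pos j)

theorem Br_one (j : ℕ) : (1 : ℝ) ≤ Bn j := by exact_mod_cast Bn_pos j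

/-- `M j` is large -/
theorem MM_large {j m : ℕ} (hm : m ≤ j + 1) : 2 ^ (2 * j + 5) * Bn (j + 1) * (3 * q j) ^ m ≤ MM j := by
  rw [MM]
  refine Nat.mul_le_mul_left _ (Nat.pow_le_pow_right ?_ hm)
  have := q_pos j
  omega

theorem MM_large' (j : ℕ) : 2 ^ (2 * j + 5) * Bn (j + 1) ≤ MM j := by
  have := MM_large (j := j) (m := 0) (Nat.zero_le _)
  simpa using this

theorem term_le (n i : ℕ) : 1 / (q (i + n) : ℝ) ≤ 1 / q n * (1 / 2) ^ i := by
  have h : ((2 ^ i * q n : ℕ) : ℝ) ≤ q (i + n) := Nat.cast_le.2 (q_pow n i)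
  push_cast at h
  have h1 : 1 / (q n : ℝ) * (1 / 2) ^ i = 1 / (2 ^ i * q n) := by
    rw [one_div_pow]; field_simp
  rw [h1]
  exact one_div_le_one_div_of_le (mul_pos (by positivity) (qr_pos n)) h

theorem summable_tail (n : ℕ) : Summable fun i => 1 / (q (i + n) : ℝ) :=
  Summable.of_nonneg_of_le (fun i => (one_div_pos.2 (qr_pos _)).le) (term_le n)
    (summable_geometric_two.mul_left _)

/-- the tails -/
noncomputable def tl (n : ℕ) : ℝ := ∑' i, 1 / (q (i + n) : ℝ)

theorem tl_succ (n : ℕ) : tl n = 1 / q n + tl (n + 1) := by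
  rw [tl, (summable_tail n).tsum_eq_zero_add, zero_add, tl]
  congr 1
  refine tsum_congr fun i => ?_
  rw [show i + 1 + n = i + (n + 1) by ring]

theorem tl_le (n : ℕ) : tl n ≤ 2 / q n := by
  have h := (summable_tail n).tsum_le_tsum (term_le n) (summable_geometric_two.mul_left _)
  rw [tsum_mul_left, tsum_geometric_two] at h
  have h2 : 1 / (q n : ℝ) * 2 = 2 / q n := by ring
  rw [h2] at h
  exact h

theorem tl_pos (n : ℕ) : 0 < tl n := by
  have h : 0 ≤ tl (n + 1) := tsum_nonneg fun i => (one_div_pos.2 (qr_pos _)).le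
  rw [tl_succ]
  have := one_div_pos.2 (qr_pos n)
  linarith

/-- the slope -/
noncomputable def aa : ℝ := tl 0

theorem aa_eq (j : ℕ) : aa = p j / q j + tl (j + 1) := by
  induction j with
  | zero =>
    rw [aa, tl_succ, p_zero, q_zero]
    norm_num
  | succ j ih =>
    rw [ih, tl_succ (j + 1), p_succ, ← add_assoc]
    congr 1
    rw [q_succ]
    have h1 := qr_pos j
    have h2 := MMr_pos j
    push_cast
    field_simp

/-- the small divisors -/
noncomputable def ep (j : ℕ) : ℝ := q j * tl (j + 1)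

theorem ep_eq (j : ℕ) : ep j = q j * aa - p j := by
  have h1 := qr_pos j
  rw [ep, aa_eq j]
  field_simp
  ring

theorem ep_pos (j : ℕ) : 0 < ep j := mul_pos (qr_pos j) (tl_pos _)

theorem ep_le (j : ℕ) : ep j ≤ 1 / (q j * MM j) := by
  have h1 := qr_pos j
  have h2 := MMr_pos j
  have h3 := tl_le (j + 1)
  rw [q_succ] at h3
  push_cast at h3
  rw [ep]
  calc (q j : ℝ) * tl (j + 1) ≤ q j * (2 / (2 * q j ^ 2 * MM j)) :=
        mul_le_mul_of_nonneg_left h3 h1.le
    _ = 1 / (q j * MM j) := by field_simp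

theorem aa_le : aa ≤ 2 := by
  have := tl_le 0
  rw [q_zero] at this
  rw [aa]
  simpa using this

theorem p_le (j : ℕ) : (p j : ℝ) ≤ 2 * q j := by
  have h1 := ep_pos j
  rw [ep_eq] at h1
  have h2 := aa_le
  have h3 := qr_pos j
  nlinarith

theorem ep_small (j : ℕ) {m : ℕ} (hm : m ≤ j + 1) :
    ep j * Bn j * (3 * q j) ^ m ≤ (1 / 2) ^ (2 * j + 5) := by
  have h1 := qr_pos j
  have h2 := MMr_pos j
  have h3 : ((2 ^ (2 * j + 5) * Bn (j + 1) * (3 * q j) ^ m : ℕ) : ℝ) ≤ MM j :=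
    Nat.cast_le.2 (MM_large hm)
  push_cast at h3
  have h4 : (Bn j : ℝ) ≤ Bn (j + 1) := Nat.cast_le.2 (Bn_mono (Nat.le_succ j))
  have h5 : ep j ≤ 1 / MM j := by
    refine (ep_le j).trans (one_div_le_one_div_of_le h2 ?_)
    nlinarith [qr_one j]
  have hQ : (0 : ℝ) < (3 * q j) ^ m := by positivity
  have h6 : (Bn j : ℝ) * (3 * q j) ^ m ≤ MM j / 2 ^ (2 * j + 5) := by
    rw [le_div_iff₀ (by positivity)]
    calc (Bn j : ℝ) * (3 * q j) ^ m * 2 ^ (2 * j + 5)
        ≤ Bn (j + 1) * (3 * q j) ^ m * 2 ^ (2 * j + 5) := by gcongr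
      _ = 2 ^ (2 * j + 5) * Bn (j + 1) * (3 * q j) ^ m := by ring
      _ ≤ MM j := h3
  calc ep j * Bn j * (3 * q j) ^ m = ep j * (Bn j * (3 * q j) ^ m) := by ring
    _ ≤ 1 / MM j * (MM j / 2 ^ (2 * j + 5)) := by
        have := Br_one j
        gcongr
    _ = (1 / 2) ^ (2 * j + 5) := by
        rw [one_div_pow]; field_simp

theorem ep_small0 (j : ℕ) : ep j * Bn j ≤ (1 / 2) ^ (2 * j + 5) := by
  have := ep_small j (m := 0) (Nat.zero_le _)
  simpa using this

theorem aa_irrational : Irrational aa := by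
  rintro ⟨r, hr⟩
  -- `s * ep j` is an integer
  have hs : (0 : ℝ) < r.den := Nat.cast_pos.2 r.pos
  have h1 : ∀ j, ∃ n : ℤ, r.den * ep j = n := by
    intro j
    refine ⟨q j * r.num - r.den * p j, ?_⟩
    rw [ep_eq, ← hr]
    have h2 : (r : ℝ) * r.den = r.num := by exact_mod_cast Rat.mul_den_eq_num r
    push_cast
    linear_combination (q j : ℝ) * h2
  have h2 : ∀ j, (1 : ℝ) ≤ r.den * ep j := by
    intro j
    obtain ⟨n, hn⟩ := h1 j
    rw [hn]
    have h3 : (0 : ℝ) < n := by rw [← hn]; exact mul_pos hs (ep_pos j)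
    have h4 : 0 < n := by exact_mod_cast h3
    exact_mod_cast (by omega : 1 ≤ n)
  have h3 : Tendsto (fun j : ℕ => (r.den : ℝ) * (1 / 2) ^ j) atTop (𝓝 0) := by
    have := (tendsto_pow_atTop_nhds_zero_of_lt_one (by norm_num : (0 : ℝ) ≤ 1 / 2)
      (by norm_num)).const_mul (r.den : ℝ)
    simpa using this
  have h4 : ∀ j : ℕ, (1 : ℝ) ≤ r.den * (1 / 2) ^ j := by
    intro j
    refine (h2 j).trans (mul_le_mul_of_nonneg_left ?_ hs.le)
    have h5 := ep_small0 j
    have h6 : ep j ≤ ep j * Bn j := by nlinarith [ep_pos j, Br_one j]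
    refine h6.trans (h5.trans (pow_le_pow_of_le_one (by norm_num) (by norm_num) (by omega)))
  have h5 := ge_of_tendsto' h3 h4
  linarith

/-- the times of the shifts -/
noncomputable def tt (k : ℕ) : ℕ := q k * MM k

/-- the shift of the base -/
noncomputable def sh (k : ℕ) : ℝ := MM k * ep k

theorem sh_nonneg (k : ℕ) : 0 ≤ sh k := (mul_pos (MMr_pos k) (ep_pos k)).le

theorem sh_le (k : ℕ) : sh k ≤ 1 / q k := by
  have h1 := qr_pos k
  have h2 := MMr_pos k
  have h3 := ep_le k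
  rw [sh]
  calc (MM k : ℝ) * ep k ≤ MM k * (1 / (q k * MM k)) := mul_le_mul_of_nonneg_left h3 h2.le
    _ = 1 / q k := by field_simp

theorem tt_aa (k : ℕ) : (tt k : ℝ) * aa = (MM k * p k : ℕ) + sh k := by
  rw [sh, ep_eq, tt]
  push_cast
  ring

theorem tt_ep (k j : ℕ) : (tt k : ℝ) * ep j = ((q j * (MM k * p k) - tt k * p j : ℤ) : ℝ) + q j * sh k := by
  have h := tt_aa k
  rw [ep_eq]
  push_cast at h ⊢
  linear_combination (q j : ℝ) * h

theorem tt_ep_self (k : ℕ) : (tt k : ℝ) * ep k = 1 / 2 + q (k + 1) / 2 * tl (k + 2) := by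
  have h1 := qr_pos k
  have h2 := MMr_pos k
  rw [ep, tt, tl_succ (k + 1), q_succ]
  push_cast
  field_simp

theorem B_pow (k : ℕ) : (Bn (k + 1) : ℝ) * (1 / MM k) ≤ (1 / 2) ^ (2 * k + 5) := by
  have h2 := MMr_pos k
  have h3 : ((2 ^ (2 * k + 5) * Bn (k + 1) : ℕ) : ℝ) ≤ MM k := Nat.cast_le.2 (MM_large' k)
  push_cast at h3
  rw [mul_one_div, div_le_iff₀ h2, one_div_pow]
  rw [one_div, inv_mul_eq_div, le_div_iff₀ (by positivity)]
  linarith

/-- the shift by the time `tt k` -/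
theorem key_shift (k j : ℕ) (s : ℝ) :
    |G j (s + tt k * ep j) - (if j = k then 1 - G j s else G j s)| ≤ (1 / 2) ^ j * (1 / 2) ^ k := by
  rw [← pow_add]
  rcases lt_trichotomy j k with h | h | h
  · rw [if_neg h.ne, tt_ep, add_comm _ ((q j : ℝ) * sh k), ← add_assoc, G_per]
    refine (G_lip j _ _).trans ?_
    rw [add_sub_cancel_left, abs_of_nonneg (mul_nonneg (qr_pos j).le (sh_nonneg k))]
    obtain ⟨l, rfl⟩ : ∃ l, k = l + 1 := ⟨k - 1, by omega⟩
    have h1 := sh_le (l + 1)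
    have hjl : j ≤ l := by omega
    have h2 : (q j : ℝ) ≤ q l := Nat.cast_le.2 (q_mono hjl)
    have h3 : (Bn j : ℝ) ≤ Bn (l + 1) := Nat.cast_le.2 (Bn_mono (by omega))
    have h4 := qr_pos l
    have h5 := MMr_pos l
    have h6 := B_pow l
    calc (Bn j : ℝ) * (q j * sh (l + 1)) ≤ Bn (l + 1) * (q l * (1 / q (l + 1))) := by
          have := sh_nonneg (l + 1)
          gcongr
      _ = Bn (l + 1) * (1 / MM l) * (1 / (2 * q l)) := by
          rw [q_succ]; push_cast; field_simp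
      _ ≤ (1 / 2) ^ (2 * l + 5) * 1 := by
          have h7 : 1 / (2 * (q l : ℝ)) ≤ 1 := by
            rw [div_le_one (by positivity)]
            linarith [qr_one l]
          gcongr
      _ ≤ (1 / 2) ^ (j + (l + 1)) := by
          rw [mul_one]
          exact pow_le_pow_of_le_one (by norm_num) (by norm_num) (by omega)
  · subst h
    rw [if_pos rfl, tt_ep_self, ← G_half]
    refine (G_lip j _ _).trans ?_
    have h1 : s + (1 / 2 + (q (j + 1) : ℝ) / 2 * tl (j + 2)) - (s + 1 / 2)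
        = (q (j + 1) : ℝ) / 2 * tl (j + 2) := by ring
    have h4 := qr_pos (j + 1)
    have h5 := MMr_pos (j + 1)
    rw [h1, abs_of_nonneg (mul_nonneg (by positivity) (tl_pos _).le)]
    have h2 := tl_le (j + 2)
    have h3 : (Bn j : ℝ) ≤ Bn (j + 2) := Nat.cast_le.2 (Bn_mono (by omega))
    have h6 := B_pow (j + 1)
    calc (Bn j : ℝ) * (q (j + 1) / 2 * tl (j + 2))
        ≤ Bn (j + 2) * (q (j + 1) / 2 * (2 / q (j + 2))) := by
          have := (tl_pos (j + 2)).le
          gcongr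
      _ = Bn (j + 1 + 1) * (1 / MM (j + 1)) * (1 / (2 * q (j + 1))) := by
          rw [show j + 2 = j + 1 + 1 by ring, q_succ (j + 1)]; push_cast; field_simp
      _ ≤ (1 / 2) ^ (2 * (j + 1) + 5) * 1 := by
          have h7 : 1 / (2 * (q (j + 1) : ℝ)) ≤ 1 := by
            rw [div_le_one (by positivity)]
            linarith [qr_one (j + 1)]
          gcongr
      _ ≤ (1 / 2) ^ (j + j) := by
          rw [mul_one]
          exact pow_le_pow_of_le_one (by norm_num) (by norm_num) (by omega)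
  · rw [if_neg h.ne']
    refine (G_lip j _ _).trans ?_
    rw [add_sub_cancel_left, abs_of_nonneg (mul_nonneg (Nat.cast_nonneg _) (ep_pos j).le)]
    have h1 : (tt k : ℝ) ≤ q j := by
      have h2 : tt k ≤ q (k + 1) := by
        rw [tt, q_succ]
        calc q k * MM k = 1 * q k * MM k := by ring
          _ ≤ 2 * q k * q k * MM k := by
              refine Nat.mul_le_mul_right _ (Nat.mul_le_mul_right _ ?_)
              have := q_pos k
              omega
          _ = 2 * q k ^ 2 * MM k := by ring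
      exact Nat.cast_le.2 (h2.trans (q_mono (by omega)))
    have h2 := ep_le j
    have h4 := qr_pos j
    have h5 := MMr_pos j
    have h3 : (Bn j : ℝ) ≤ Bn (j + 1) := Nat.cast_le.2 (Bn_mono (by omega))
    calc (Bn j : ℝ) * (tt k * ep j) ≤ Bn (j + 1) * (q j * (1 / (q j * MM j))) := by
          have := (ep_pos j).le
          gcongr
      _ = Bn (j + 1) * (1 / MM j) := by field_simp
      _ ≤ (1 / 2) ^ (2 * j + 5) := B_pow j
      _ ≤ (1 / 2) ^ (j + k) :=
          pow_le_pow_of_le_one (by norm_num) (by norm_num) (by omega)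

end Q176.TC
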