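import Pool.Agent.Q176.TC.A3

/-! Time-changes of nilflows. -/

set_option autoImplicit false

open MeasureTheory Set Filter Topology intervalIntegral

namespace Q176.TC

/-- a positive continuous function bounded from below -/
structure Pos (α : Nil → ℝ) : Prop where
  cont : Continuous α
  low : ∀ w, 1 / 2 ≤ α w

/-- the new time -/
noncomputable def th (X : ℝ × ℝ × ℝ) (α : Nil → ℝ) (w : Nil) (t : ℝ) : ℝ :=
  ∫ s in (0 : ℝ)..t, α (flow X s w)

section

variable {X : ℝ × ℝ × ℝ} {α : Nil → ℝ}

theorem th_zero (w : Nil) : th X α w 0 = 0 := integral_same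

theorem cont_path (h : Pos α) (w : Nil) : Continuous fun s => α (flow X s w) :=
  h.cont.comp (continuous_flow_time X w)

theorem th_cont2 (h : Pos α) : Continuous fun p : Nil × ℝ => th X α p.1 p.2 := by
  have h1 : Continuous fun p : Nil × ℝ => α (flow X p.2 p.1) :=
    h.cont.comp ((continuous_flow2 X).comp continuous_swap)
  exact continuous_parametric_intervalIntegral_of_continuous
    (f := fun (p : Nil × ℝ) s => α (flow X s p.1)) (a₀ := 0) (s := fun p => p.2)
    (h1.comp (by fun_prop : Continuous fun q : (Nil × ℝ) × ℝ => (q.1.1, q.2))) continuous_snd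

theorem th_deriv (h : Pos α) (w : Nil) (t : ℝ) :
    HasDerivAt (th X α w) (α (flow X t w)) t :=
  integral_hasDerivAt_right ((cont_path h w).intervalIntegrable _ _)
    ((cont_path h w).stronglyMeasurableAtFilter _ _) (cont_path h w).continuousAt

theorem th_add (h : Pos α) (w : Nil) (s t : ℝ) :
    th X α w (s + t) = th X α w s + th X α (flow X s w) t := by
  have h1 : th X α (flow X s w) t = ∫ r in s..(s + t), α (flow X r w) := by
    rw [th]
    have h2 := intervalIntegral.integral_comp_add_left (a := 0) (b := t)
      (fun r => α (flow X r w)) s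
    rw [add_zero] at h2
    rw [← h2]
    refine integral_congr fun r _ => ?_
    show α (flow X r (flow X s w)) = α (flow X (s + r) w)
    rw [flow_add]
  rw [h1, th, th, integral_add_adjacent_intervals ((cont_path h w).intervalIntegrable _ _)
    ((cont_path h w).intervalIntegrable _ _)]

theorem th_lower (h : Pos α) (w : Nil) {s t : ℝ} (hst : s ≤ t) :
    (t - s) / 2 ≤ th X α w t - th X α w s := by
  have h1 : th X α w t - th X α w s = ∫ r in s..t, α (flow X r w) := by
    rw [th, th, integral_interval_sub_left ((cont_path h w).intervalIntegrable _ _)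
      ((cont_path h w).intervalIntegrable _ _)]
  have h2 : ∫ _r in s..t, (1 / 2 : ℝ) = (t - s) / 2 := by
    rw [intervalIntegral.integral_const, smul_eq_mul]; ring
  rw [h1, ← h2]
  exact integral_mono_on hst (by simp) ((cont_path h w).intervalIntegrable _ _)
    fun r _ => h.low _

theorem th_strictMono (h : Pos α) (w : Nil) : StrictMono (th X α w) := by
  intro s t hst
  have := th_lower (X := X) h w hst.le
  linarith

theorem th_surj (h : Pos α) (w : Nil) : Function.Surjective (th X α w) := by
  have hc : Continuous (th X α w) := (th_cont2 h).comp (Continuous.prodMk_right w)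
  refine hc.surjective ?_ ?_
  · refine tendsto_atTop_mono' atTop (f₁ := fun t : ℝ => t / 2) ?_
      (tendsto_id.atTop_div_const two_pos)
    filter_upwards [eventually_ge_atTop 0] with t ht
    have := th_lower (X := X) h w ht
    rw [th_zero] at this
    linarith
  · refine tendsto_atBot_mono' atBot (f₁ := fun t : ℝ => t / 2) ?_
      (tendsto_id.atBot_div_const two_pos)
    filter_upwards [eventually_le_atBot 0] with t ht
    have := th_lower (X := X) h w ht
    rw [th_zero] at this
    linarith

/-- the old time as a function of the new time -/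
noncomputable def tau (h : Pos α) (X : ℝ × ℝ × ℝ) (w : Nil) (r : ℝ) : ℝ :=
  (th_surj (X := X) h w r).choose

theorem th_tau (h : Pos α) (w : Nil) (r : ℝ) : th X α w (tau h X w r) = r :=
  (th_surj (X := X) h w r).choose_spec

theorem tau_th (h : Pos α) (w : Nil) (t : ℝ) : tau h X w (th X α w t) = t :=
  (th_strictMono (X := X) h w).injective (th_tau h w _)

theorem tau_add (h : Pos α) (w : Nil) (r s : ℝ) :
    tau h X w (r + s) = tau h X w r + tau h X (flow X (tau h X w r) w) s := by
  refine (th_strictMono (X := X) h w).injective ?_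
  rw [th_tau, th_add h, th_tau, th_tau]

theorem tau_cont2 (h : Pos α) : Continuous fun p : Nil × ℝ => tau h X p.1 p.2 := by
  rw [continuous_iff_continuousAt]
  rintro ⟨w, r⟩
  rw [Metric.continuousAt_iff']
  intro ε hε
  set t := tau h X w r with ht
  have h1 : th X α w (t - ε) < r := by
    rw [← th_tau (X := X) h w r]
    exact th_strictMono h w (by linarith)
  have h2 : r < th X α w (t + ε) := by
    conv_lhs => rw [← th_tau (X := X) h w r]
    exact th_strictMono h w (by linarith)
  have hc : ∀ b : ℝ, Continuous fun p : Nil × ℝ => th X α p.1 b := fun b =>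
    (th_cont2 h).comp (by fun_prop : Continuous fun p : Nil × ℝ => (p.1, b))
  have e1 : ∀ᶠ p : Nil × ℝ in 𝓝 (w, r), th X α p.1 (t - ε) < p.2 :=
    (hc _).continuousAt.eventually_lt continuous_snd.continuousAt h1
  have e2 : ∀ᶠ p : Nil × ℝ in 𝓝 (w, r), p.2 < th X α p.1 (t + ε) :=
    continuous_snd.continuousAt.eventually_lt (hc _).continuousAt h2
  filter_upwards [e1, e2] with p hp1 hp2
  rw [Real.dist_eq, abs_lt]
  show -ε < tau h X p.1 p.2 - tau h X w r ∧ tau h X p.1 p.2 - tau h X w r < ε
  rw [← ht]
  rw [← th_tau (X := X) h p.1 p.2] at hp1 hp2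
  have h3 := (th_strictMono (X := X) h p.1).lt_iff_lt.1 hp1
  have h4 := (th_strictMono (X := X) h p.1).lt_iff_lt.1 hp2
  constructor <;> linarith

/-- the time-change -/
noncomputable def tc (h : Pos α) (X : ℝ × ℝ × ℝ) (r : ℝ) (w : Nil) : Nil :=
  flow X (tau h X w r) w

theorem tc_isTimeChange (h : Pos α) : IsTimeChange X α (tc h X) := by
  intro t w
  show flow X (tau h X w (th X α w t)) w = flow X t w
  rw [tau_th]

theorem tc_th (h : Pos α) (t : ℝ) (w : Nil) : tc h X (th X α w t) w = flow X t w :=
  tc_isTimeChange h t w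

theorem tc_add (h : Pos α) (r s : ℝ) (w : Nil) : tc h X s (tc h X r w) = tc h X (r + s) w := by
  rw [tc, tc, tc, flow_add, tau_add]

theorem tc_zero (h : Pos α) (w : Nil) : tc h X 0 w = w := by
  rw [tc]
  have : tau h X w 0 = 0 := by
    rw [← th_zero (X := X) (α := α) w, tau_th, th_zero]
  rw [this, flow_zero]

theorem tc_cont2 (h : Pos α) : Continuous fun p : ℝ × Nil => tc h X p.1 p.2 :=
  (continuous_flow2 X).comp
    (((tau_cont2 (X := X) h).comp continuous_swap).prodMk continuous_snd)

theorem tc_cont (h : Pos α) (r : ℝ) : Continuous (tc h X r) :=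
  (tc_cont2 h).comp (Continuous.prodMk_right r)

theorem tc_cont_time (h : Pos α) (w : Nil) : Continuous fun r => tc h X r w :=
  (tc_cont2 h).comp (Continuous.prodMk_left w)

end

end Q176.TC
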