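import Pool.Agent.Q176.TC.C4

/-! The invariant measure of a time-change. -/

set_option autoImplicit false

open MeasureTheory Set Filter Topology intervalIntegral

namespace Q176.TC

variable {X : ℝ × ℝ × ℝ} {α : Nil → ℝ}

theorem bdd_real {F : Nil → ℝ} (hF : Continuous F) : ∃ B, 0 ≤ B ∧ ∀ w, |F w| ≤ B := by
  obtain ⟨B, hB⟩ := isCompact_univ.exists_bound_of_continuousOn hF.continuousOn
  exact ⟨B, (norm_nonneg _).trans (hB (pt 0 0 0) (mem_univ _)), fun w => hB w (mem_univ _)⟩

/-- averages along the nilflow -/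
theorem avg_flow {K : Nil → ℝ} (hK : Continuous K) {S : ℝ} (hS : 0 ≤ S) :
    S * ∫ w, K w ∂haar = ∫ w, (∫ s in (0 : ℝ)..S, K (flow X s w)) ∂haar := by
  obtain ⟨B, hB0, hB⟩ := bdd_real hK
  have hc : Continuous fun p : ℝ × Nil => K (flow X p.1 p.2) := hK.comp (continuous_flow2 X)
  have h1 : ∀ s : ℝ, ∫ w, K w ∂haar = ∫ w, K (flow X s w) ∂haar := fun s =>
    (integral_rt hK _).symm
  have h2 : S * ∫ w, K w ∂haar = ∫ s in (0 : ℝ)..S, ∫ w, K (flow X s w) ∂haar := by
    simp_rw [← h1]
    rw [intervalIntegral.integral_const, sub_zero, smul_eq_mul]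
  rw [h2, intervalIntegral.integral_of_le hS]
  rw [integral_integral_swap (f := fun s w => K (flow X s w))]
  · refine integral_congr_ae (Eventually.of_forall fun w => ?_)
    show (∫ s in Ioc (0 : ℝ) S, K (flow X s w)) = _
    rw [← intervalIntegral.integral_of_le hS]
  · refine Integrable.of_bound (C := B) hc.aestronglyMeasurable (Eventually.of_forall fun q => ?_)
    exact hB _

/-- substitution along an orbit -/
theorem subst_orbit (h : Pos α) {F : Nil → ℝ} (hF : Continuous F) (r S : ℝ) (w : Nil) :
    ∫ s in (0 : ℝ)..S, F (tc h X r (flow X s w)) * α (flow X s w)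
      = ∫ σ in r..(th X α w S + r), F (tc h X σ w) := by
  have h1 := integral_comp_mul_deriv (a := 0) (b := S) (f := th X α w)
    (f' := fun s => α (flow X s w)) (g := fun σ => F (tc h X (σ + r) w))
    (fun s _ => th_deriv h w s) (cont_path h w).continuousOn
    (hF.comp ((tc_cont_time h w).comp (continuous_id.add continuous_const)))
  have h2 : ∫ s in (0 : ℝ)..S, F (tc h X r (flow X s w)) * α (flow X s w)
      = ∫ s in (0 : ℝ)..S, ((fun σ => F (tc h X (σ + r) w)) ∘ th X α w) s * α (flow X s w) := by
    refine integral_congr fun s _ => ?_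
    show F (tc h X r (flow X s w)) * α (flow X s w)
      = F (tc h X (th X α w s + r) w) * α (flow X s w)
    rw [← tc_add, tc_th]
  rw [h2, h1, th_zero, intervalIntegral.integral_comp_add_right (fun σ => F (tc h X σ w)), zero_add]

theorem orbit_diff (h : Pos α) {F : Nil → ℝ} (hF : Continuous F) {B : ℝ} (hB : ∀ w, |F w| ≤ B)
    (r S : ℝ) (w : Nil) :
    |(∫ s in (0 : ℝ)..S, F (tc h X r (flow X s w)) * α (flow X s w))
      - ∫ s in (0 : ℝ)..S, F (tc h X 0 (flow X s w)) * α (flow X s w)| ≤ 2 * (B * |r|) := by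
  have hc : Continuous fun σ => F (tc h X σ w) := hF.comp (tc_cont_time h w)
  rw [subst_orbit h hF, subst_orbit h hF, add_zero]
  rw [integral_interval_sub_interval_comm (hc.intervalIntegrable _ _)
    (hc.intervalIntegrable _ _) (hc.intervalIntegrable _ _)]
  have h1 : |∫ σ in r..(0 : ℝ), F (tc h X σ w)| ≤ B * |0 - r| := by
    rw [← Real.norm_eq_abs]
    exact norm_integral_le_of_norm_le_const fun σ _ => hB _
  have h2 : |∫ σ in (th X α w S + r)..(th X α w S), F (tc h X σ w)|
      ≤ B * |th X α w S - (th X α w S + r)| := by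
    rw [← Real.norm_eq_abs]
    exact norm_integral_le_of_norm_le_const fun σ _ => hB _
  have h3 : |0 - r| = |r| := by rw [zero_sub, abs_neg]
  have h4 : |th X α w S - (th X α w S + r)| = |r| := by
    rw [show th X α w S - (th X α w S + r) = -r by ring, abs_neg]
  rw [h3] at h1
  rw [h4] at h2
  exact (abs_sub _ _).trans (by linarith)

theorem inv_weighted_int (h : Pos α) {F : Nil → ℝ} (hF : Continuous F) (r : ℝ) :
    ∫ w, F (tc h X r w) * α w ∂haar = ∫ w, F w * α w ∂haar := by
  obtain ⟨B, hB0, hB⟩ := bdd_real hF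
  have hK : ∀ r, Continuous fun w => F (tc h X r w) * α w := fun r =>
    (hF.comp (tc_cont h r)).mul h.cont
  have h0 : ∫ w, F w * α w ∂haar = ∫ w, F (tc h X 0 w) * α w ∂haar := by
    simp_rw [tc_zero]
  rw [h0, ← sub_eq_zero, ← abs_eq_zero]
  refine le_antisymm (le_of_forall_pos_le_add fun ε hε => ?_) (abs_nonneg _)
  rw [zero_add]
  set S : ℝ := (2 * (B * |r|) + 1) / ε with hSdef
  have hS : 0 < S := by positivity
  have e1 := avg_flow (X := X) (hK r) hS.le
  have e2 := avg_flow (X := X) (hK 0) hS.le
  have hint : ∀ r, Integrable (fun w => ∫ s in (0 : ℝ)..S,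
      F (tc h X r (flow X s w)) * α (flow X s w)) haar := fun r => by
    refine cont_integrable ?_ _
    have hj : Continuous (Function.uncurry fun (w : Nil) (s : ℝ) =>
        F (tc h X r (flow X s w)) * α (flow X s w)) :=
      (hK r).comp ((continuous_flow2 X).comp continuous_swap)
    exact intervalIntegral.continuous_parametric_intervalIntegral_of_continuous' hj 0 S
  have e3 : S * |(∫ w, F (tc h X r w) * α w ∂haar) - ∫ w, F (tc h X 0 w) * α w ∂haar|
      ≤ 2 * (B * |r|) := by
    rw [← abs_of_pos hS, ← abs_mul, mul_sub, e1, e2,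
      ← integral_sub (hint r) (hint 0)]
    refine MeasureTheory.abs_integral_le_integral_abs.trans ?_
    refine (integral_mono_of_nonneg (Eventually.of_forall fun w => abs_nonneg _)
      (integrable_const (2 * (B * |r|))) (Eventually.of_forall fun w => ?_)).trans ?_
    · exact orbit_diff h hF hB r S w
    · simp
  have h5 : |(∫ w, F (tc h X r w) * α w ∂haar) - ∫ w, F (tc h X 0 w) * α w ∂haar|
      ≤ 2 * (B * |r|) / S := by
    rw [le_div_iff₀ hS]; linarith
  refine h5.trans ?_
  rw [div_le_iff₀ hS, hSdef, mul_div_cancel₀ _ hε.ne']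
  linarith

theorem int_pos (h : Pos α) : 0 < ∫ w, α w ∂haar := by
  have h1 : ∫ _w : Nil, (1 / 2 : ℝ) ∂haar = 1 / 2 := by simp
  have h2 : ∫ _w : Nil, (1 / 2 : ℝ) ∂haar ≤ ∫ w, α w ∂haar :=
    integral_mono (integrable_const _) (cont_integrable h.cont _) h.low
  linarith

theorem weighted_int (h : Pos α) (F : Nil → ℝ) :
    ∫ w, F w ∂(weighted haar α) = (∫ w', α w' ∂haar)⁻¹ * ∫ w, F w * α w ∂haar := by
  have hm : Measurable fun w => ENNReal.ofReal (α w / ∫ w', α w' ∂haar) :=
    (h.cont.measurable.div_const _).ennreal_ofReal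
  rw [weighted, integral_withDensity_eq_integral_toReal_smul hm
    (Eventually.of_forall fun w => ENNReal.ofReal_lt_top), ← MeasureTheory.integral_const_mul]
  refine integral_congr_ae (Eventually.of_forall fun w => ?_)
  show (ENNReal.ofReal (α w / ∫ w', α w' ∂haar)).toReal • F w
    = (∫ w', α w' ∂haar)⁻¹ * (F w * α w)
  have h1 : 0 ≤ α w := (by norm_num : (0 : ℝ) ≤ 1 / 2).trans (h.low w)
  rw [ENNReal.toReal_ofReal (div_nonneg h1 (int_pos h).le), smul_eq_mul]
  ring

theorem prob_weighted (h : Pos α) : IsProbabilityMeasure (weighted haar α) := by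
  constructor
  rw [weighted, withDensity_apply _ MeasurableSet.univ, Measure.restrict_univ,
    ← ofReal_integral_eq_lintegral_ofReal]
  · rw [MeasureTheory.integral_div, div_self (int_pos h).ne', ENNReal.ofReal_one]
  · exact (cont_integrable h.cont _).div_const _
  · refine Eventually.of_forall fun w => div_nonneg ?_ (int_pos h).le
    exact (by norm_num : (0 : ℝ) ≤ 1 / 2).trans (h.low w)

theorem weighted_ac (α : Nil → ℝ) : weighted haar α ≪ haar := withDensity_absolutelyContinuous _ _

theorem mp_tc (h : Pos α) (r : ℝ) :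
    MeasurePreserving (tc h X r) (weighted haar α) (weighted haar α) := by
  have hp := prob_weighted h
  refine ⟨(tc_cont h r).measurable, ?_⟩
  have : IsProbabilityMeasure ((weighted haar α).map (tc h X r)) :=
    Measure.isProbabilityMeasure_map (tc_cont h r).measurable.aemeasurable
  refine ext_of_forall_integral_eq_of_IsFiniteMeasure fun f => ?_
  rw [integral_map (tc_cont h r).measurable.aemeasurable f.continuous.aestronglyMeasurable,
    weighted_int h, weighted_int h]
  congr 1
  exact inv_weighted_int h f.continuous r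

end Q176.TC
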