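import Pool.Agent.Q176.TC.A4

/-! A flow with an eigenfunction is not weakly mixing. -/

set_option autoImplicit false

open MeasureTheory Set Filter Topology intervalIntegral
open scoped ComplexConjugate

namespace Q176.TC

/-- a measurable flow with an eigenfunction of eigenvalue one -/
structure EF (ψ : ℝ → Nil → Nil) (ν : Measure Nil) (f : Nil → ℂ) : Prop where
  prob : IsProbabilityMeasure ν
  mp : ∀ r, MeasurePreserving (ψ r) ν ν
  add : ∀ r s w, ψ s (ψ r w) = ψ (r + s) w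
  zero : ∀ w, ψ 0 w = w
  meas : Measurable f
  eig : ∀ r w, f (ψ r w) = ee r * f w
  norm : ∀ᵐ w ∂ν, ‖f w‖ = 1

theorem ee_eq_iff {s t : ℝ} : ee s = ee t ↔ ∃ n : ℤ, s = t + n := by
  rw [ee, ee, Complex.exp_eq_exp_iff_exists_int]
  constructor
  · rintro ⟨n, hn⟩
    refine ⟨n, ?_⟩
    have h1 : (2 * Real.pi * Complex.I : ℂ) * (s : ℂ) = (2 * Real.pi * Complex.I : ℂ) * ((t + n : ℝ) : ℂ) := by
      push_cast
      linear_combination hn
    have h2 := mul_left_cancel₀ Complex.two_pi_I_ne_zero h1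
    exact_mod_cast h2
  · rintro ⟨n, rfl⟩
    refine ⟨n, ?_⟩
    push_cast
    ring

/-- a quarter of the circle -/
def quarter : Set ℂ := ee '' Ico (0 : ℝ) (1 / 4)

theorem measurableSet_quarter : MeasurableSet quarter := by
  refine measurableSet_Ico.image_of_measurable_injOn continuous_ee.measurable ?_
  intro s hs t ht hst
  obtain ⟨n, hn⟩ := ee_eq_iff.1 hst
  have h1 : (n : ℝ) < 1 := by linarith [hs.2, ht.1]
  have h2 : -1 < (n : ℝ) := by linarith [hs.1, ht.2]
  have h3 : n < 1 := by exact_mod_cast h1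
  have h4 : -1 < n := by exact_mod_cast h2
  have h5 : n = 0 := by omega
  rw [hn, h5, Int.cast_zero, add_zero]

/-- every unit number is in one of the four quarters -/
theorem quarter_cover {z : ℂ} (hz : ‖z‖ = 1) : ∃ k : Fin 4, ee (-(k : ℕ) / 4) * z ∈ quarter := by
  have h1 : z = ee (Complex.arg z / (2 * Real.pi)) := by
    rw [ee]
    have h2 := Complex.norm_mul_exp_arg_mul_I z
    rw [hz, Complex.ofReal_one, one_mul] at h2
    conv_lhs => rw [← h2]
    congr 1
    push_cast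
    have : (Real.pi : ℂ) ≠ 0 := Complex.ofReal_ne_zero.2 Real.pi_ne_zero
    field_simp
  set θ := Complex.arg z / (2 * Real.pi) with hθ
  have h3 : z = ee (Int.fract θ) := by
    rw [h1, ee_eq_iff]
    refine ⟨⌊θ⌋, ?_⟩
    rw [Int.fract_add_floor]
  set φ := Int.fract θ with hφ
  have h0 : 0 ≤ φ := Int.fract_nonneg _
  have hlt : φ < 1 := Int.fract_lt_one _
  have key : ∀ k : ℕ, (k : ℝ) / 4 ≤ φ → φ < (k + 1) / 4 → ee (-(k : ℝ) / 4) * z ∈ quarter := by
    intro k h4 h5
    refine ⟨φ - k / 4, ⟨by linarith, by linarith⟩, ?_⟩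
    rw [h3, ← ee_add]
    congr 1
    ring
  by_cases c1 : φ < 1 / 4
  · exact ⟨0, key 0 (by simpa using h0) (by simpa using c1)⟩
  by_cases c2 : φ < 2 / 4
  · exact ⟨1, key 1 (by push_cast; linarith) (by push_cast; linarith)⟩
  by_cases c3 : φ < 3 / 4
  · exact ⟨2, key 2 (by push_cast; linarith) (by push_cast; linarith)⟩
  · exact ⟨3, key 3 (by push_cast; linarith) (by push_cast; linarith)⟩

theorem quarter_disj {z : ℂ} (hz : z ∈ quarter) {s : ℝ} (n : ℤ) (hs : s ∈ Icc (n + 1 / 4 : ℝ) (n + 3 / 4)) :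
    ee (-s) * z ∉ quarter := by
  obtain ⟨θ, hθ, rfl⟩ := hz
  rintro ⟨θ', hθ', he⟩
  rw [← ee_add, ee_eq_iff] at he
  obtain ⟨m, hm⟩ := he
  have h1 : (m - n : ℝ) < 1 := by linarith [hθ.1, hθ.2, hθ'.1, hθ'.2, hs.1, hs.2]
  have h2 : (0 : ℝ) < m - n := by linarith [hθ.1, hθ.2, hθ'.1, hθ'.2, hs.1, hs.2]
  have h3 : m - n < 1 := by exact_mod_cast h1
  have h4 : 0 < m - n := by exact_mod_cast h2
  omega

section

variable {ψ : ℝ → Nil → Nil} {ν : Measure Nil} {f : Nil → ℂ}

theorem EF.image (h : EF ψ ν f) (s : ℝ) :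
    ψ s '' (f ⁻¹' quarter) = {w | ee (-s) * f w ∈ quarter} := by
  ext w
  constructor
  · rintro ⟨v, hv, rfl⟩
    show ee (-s) * f (ψ s v) ∈ quarter
    rw [h.eig, ← mul_assoc, mul_comm (ee (-s)), ee_mul_neg, one_mul]
    exact hv
  · intro hw
    refine ⟨ψ (-s) w, ?_, ?_⟩
    · show f (ψ (-s) w) ∈ quarter
      rw [h.eig]
      exact hw
    · rw [h.add, neg_add_cancel, h.zero]

theorem EF.pos (h : EF ψ ν f) : 0 < ν.real (f ⁻¹' quarter) := by
  have hp := h.prob
  rw [measureReal_def, ENNReal.toReal_pos_iff]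
  refine ⟨?_, measure_lt_top _ _⟩
  rw [pos_iff_ne_zero]
  intro h0
  have h1 : ∀ k : Fin 4, ν {w | ee (-(k : ℕ) / 4) * f w ∈ quarter} = 0 := by
    intro k
    have h2 := (h.mp (-(k : ℕ) / 4)).measure_preimage
      (h.meas measurableSet_quarter).nullMeasurableSet
    rw [h0] at h2
    rw [← h2]
    congr 1
    ext w
    show _ ↔ f (ψ _ w) ∈ quarter
    rw [h.eig]
    rfl
  have h3 : ν (⋃ k : Fin 4, {w | ee (-(k : ℕ) / 4) * f w ∈ quarter}) = 0 :=
    measure_iUnion_null h1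
  have h4 := measure_eq_zero_iff_ae_notMem.1 h3
  have h5 : ∀ᵐ w ∂ν, False := by
    filter_upwards [h4, h.norm] with w hw hn
    obtain ⟨k, hk⟩ := quarter_cover hn
    exact hw (mem_iUnion.2 ⟨k, hk⟩)
  rw [ae_iff] at h5
  simp at h5

theorem EF.inter_empty (h : EF ψ ν f) (n : ℤ) {s : ℝ} (hs : s ∈ Icc (n + 1 / 4 : ℝ) (n + 3 / 4)) :
    ψ s '' (f ⁻¹' quarter) ∩ f ⁻¹' quarter = ∅ := by
  rw [h.image]
  refine eq_empty_of_forall_notMem fun w hw => ?_
  exact quarter_disj hw.2 n hs hw.1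

theorem EF.not_mixing (h : EF ψ ν f) : ¬ Mixing ψ ν := by
  intro hm
  have hA := h.meas measurableSet_quarter
  have h1 := hm _ _ hA hA
  have h2 : Tendsto (fun n : ℕ => (n : ℝ) + 1 / 2) atTop atTop :=
    tendsto_atTop_add_const_right _ _ tendsto_natCast_atTop_atTop
  have h3 := h1.comp h2
  have h4 : (fun t => ν.real (ψ t '' (f ⁻¹' quarter) ∩ f ⁻¹' quarter)) ∘
      (fun n : ℕ => (n : ℝ) + 1 / 2) = fun _ => (0 : ℝ) := by
    funext n
    show ν.real (ψ ((n : ℝ) + 1 / 2) '' (f ⁻¹' quarter) ∩ f ⁻¹' quarter) = 0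
    rw [h.inter_empty n ⟨by push_cast; linarith, by push_cast; linarith⟩, measureReal_empty]
  rw [h4] at h3
  have h5 := tendsto_nhds_unique h3 tendsto_const_nhds
  have := mul_pos h.pos h.pos
  linarith

theorem EF.not_weaklyMixing (h : EF ψ ν f) : ¬ WeaklyMixing ψ ν := by
  intro hm
  have hp := h.prob
  have hA := h.meas measurableSet_quarter
  have h1 := hm _ _ hA hA
  set m := ν.real (f ⁻¹' quarter) with hmdef
  have hm0 : 0 < m := h.pos
  set g : ℝ → ℝ := fun s => |ν.real (ψ s '' (f ⁻¹' quarter) ∩ f ⁻¹' quarter) - m * m| with hg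
  have hgm : Measurable g := by
    have h2 : ∀ s, ν.real (ψ s '' (f ⁻¹' quarter) ∩ f ⁻¹' quarter)
        = (ν (Prod.mk s ⁻¹' {p : ℝ × Nil | ee (-p.1) * f p.2 ∈ quarter ∧ f p.2 ∈ quarter})).toReal := by
      intro s
      rw [h.image, measureReal_def]
      rfl
    rw [hg]
    simp_rw [h2]
    have h3 : MeasurableSet {p : ℝ × Nil | ee (-p.1) * f p.2 ∈ quarter ∧ f p.2 ∈ quarter} := by
      refine MeasurableSet.inter ?_ ?_
      · exact ((continuous_ee.measurable.comp measurable_fst.neg).mul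
          (h.meas.comp measurable_snd)) measurableSet_quarter
      · exact (h.meas.comp measurable_snd) measurableSet_quarter
    exact ((measurable_measure_prodMk_left h3).ennreal_toReal.sub_const _).abs
  have hgb : ∀ s, ‖g s‖ ≤ 2 := by
    intro s
    rw [hg, Real.norm_eq_abs, abs_abs]
    have h4 : ν.real (ψ s '' (f ⁻¹' quarter) ∩ f ⁻¹' quarter) ≤ 1 := measureReal_le_one
    have h5 : 0 ≤ ν.real (ψ s '' (f ⁻¹' quarter) ∩ f ⁻¹' quarter) := measureReal_nonneg
    have h6 : m ≤ 1 := measureReal_le_one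
    rw [abs_le]
    constructor <;> nlinarith
  have hgi : ∀ a b, IntervalIntegrable g volume a b := by
    intro a b
    refine (intervalIntegrable_const (c := (2 : ℝ))).mono_fun' hgm.aestronglyMeasurable ?_
    exact Eventually.of_forall hgb
  have hper : Function.Periodic g 1 := by
    intro s
    show |_ - _| = |_ - _|
    rw [h.image, h.image]
    have h7 : ee (-(s + 1)) = ee (-s) := ee_eq_iff.2 ⟨-1, by push_cast; ring⟩
    rw [h7]
  have hlow : m * m / 2 ≤ ∫ s in (0 : ℝ)..1, g s := by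
    have h8 : ∫ _s in (1 / 4 : ℝ)..(3 / 4), m * m = m * m / 2 := by
      rw [intervalIntegral.integral_const, smul_eq_mul]; ring
    have h9 : ∫ _s in (1 / 4 : ℝ)..(3 / 4), m * m ≤ ∫ s in (1 / 4 : ℝ)..(3 / 4), g s := by
      refine integral_mono_on (by norm_num) (by simp) (hgi _ _) fun s hs => ?_
      have h10 := h.inter_empty 0 (s := s) ⟨by push_cast; linarith [hs.1], by push_cast; linarith [hs.2]⟩
      rw [hg]
      simp only
      rw [h10, measureReal_empty, zero_sub, abs_neg]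
      exact le_abs_self _
    have h11 : ∫ s in (1 / 4 : ℝ)..(3 / 4), g s ≤ ∫ s in (0 : ℝ)..1, g s := by
      refine integral_mono_interval (by norm_num) (by norm_num) (by norm_num) ?_ (hgi _ _)
      exact Eventually.of_forall fun s => abs_nonneg _
    linarith
  have hn : ∀ n : ℕ, ∫ s in (0 : ℝ)..n, g s = n * ∫ s in (0 : ℝ)..1, g s := by
    intro n
    have h12 := hper.intervalIntegral_add_zsmul_eq n 0 hgi
    simpa using h12
  have h13 := h1.comp (tendsto_natCast_atTop_atTop (R := ℝ))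
  have h14 : ∀ᶠ n : ℕ in atTop, m * m / 2 ≤ ((fun t => 1 / t * ∫ s in (0 : ℝ)..t, g s) ∘
      fun n : ℕ => (n : ℝ)) n := by
    filter_upwards [eventually_ge_atTop 1] with n hn1
    have hn0 : (0 : ℝ) < n := by exact_mod_cast hn1
    show m * m / 2 ≤ 1 / (n : ℝ) * ∫ s in (0 : ℝ)..n, g s
    rw [hn, one_div, inv_mul_cancel_left₀ hn0.ne']
    exact hlow
  have h15 := ge_of_tendsto h13 h14
  have := mul_pos hm0 hm0
  linarith

end

end Q176.TC
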