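import Pool.Agent.Q176.TC.A6
import Pool.Agent.Q176.TC.C2
import Pool.Agent.Q176.TC.C5

/-! The function `α`. -/

set_option autoImplicit false

open MeasureTheory Set Filter Topology

namespace Q176.TC

/-- a representative -/
noncomputable def rep (w : Nil) : Heis := (surj_mk w).choose

theorem mk_rep (w : Nil) : mk (rep w) = w := (surj_mk w).choose_spec

/-- a doubly periodic function on the nilmanifold -/
noncomputable def lift {E : Type*} (Φ : ℝ → ℝ → E) (w : Nil) : E := Φ (rep w).1 (rep w).2.1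

theorem lift_pt {E : Type*} {Φ : ℝ → ℝ → E} (h : ∀ x y (m n : ℤ), Φ (x + m) (y + n) = Φ x y)
    (x y z : ℝ) : lift Φ (pt x y z) = Φ x y := by
  have h1 := mk_rep (pt x y z)
  rw [pt_def, mk_eq] at h1
  obtain ⟨m, n, k, hk⟩ := h1
  rw [← pt_def] at hk
  set g := rep (pt x y z) with hg
  have h2 : hv x y z * g⁻¹ = hv (x + -g.1) (y + -g.2.1) (z + (-g.2.2 + g.1 * g.2.1) + x * (-g.2.1)) :=
    rfl
  rw [h2] at hk
  have h3 : x + -g.1 = m := congrArg (fun v : ℝ × ℝ × ℝ => v.1) hk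
  have h4 : y + -g.2.1 = n := congrArg (fun v : ℝ × ℝ × ℝ => v.2.1) hk
  rw [lift, ← hg, ← h g.1 g.2.1 m n]
  congr 1 <;> linarith

/-- the linear forms -/
noncomputable def lf (j : ℕ) (x y : ℝ) : ℝ := q j * y - p j * x

theorem lf_int (j : ℕ) (x y : ℝ) (m n : ℤ) :
    lf j (x + m) (y + n) = lf j x y + ((q j * n - p j * m : ℤ) : ℝ) := by
  rw [lf, lf]; push_cast; ring

theorem lf_flow (j : ℕ) (x y t : ℝ) : lf j (x + t) (y + t * aa) = lf j x y + t * ep j := by
  rw [lf, lf, ep_eq]; ring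

/-- the functions `V j` -/
noncomputable def V (j : ℕ) : Nil → ℝ := lift fun x y => G j (lf j x y)

theorem V_pt (j : ℕ) (x y z : ℝ) : V j (pt x y z) = G j (lf j x y) := by
  refine lift_pt (fun x y m n => ?_) x y z
  rw [lf_int, G_per]

theorem dG_per (j : ℕ) (s : ℝ) (n : ℤ) : deriv (G j) (s + n) = deriv (G j) s := by
  have h := congrFun (iteratedDeriv_comp_add_const 1 (G j) (n : ℝ)) s
  have h2 : (fun z => G j (z + n)) = G j := funext fun z => G_per j z n
  rw [h2, iteratedDeriv_one] at h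
  exact h.symm

/-- the function of the time-change -/
noncomputable def al : Nil → ℝ := lift fun x y => 1 + ∑' j, ep j * deriv (G j) (lf j x y)

theorem al_pt (x y z : ℝ) : al (pt x y z) = 1 + ∑' j, ep j * deriv (G j) (lf j x y) := by
  refine lift_pt (Φ := fun x y => 1 + ∑' j, ep j * deriv (G j) (lf j x y)) (fun x y m n => ?_) x y z
  congr 1
  refine tsum_congr fun j => ?_
  rw [lf_int, dG_per]

theorem flow_aa (t x y z : ℝ) : ∃ z', flow (XX aa) t (pt x y z) = pt (x + t) (y + t * aa) z' :=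
  ⟨_, by rw [flow_pt]; simp only [XX, mul_one]; rfl⟩

theorem V_flow (j : ℕ) (t x y z : ℝ) :
    V j (flow (XX aa) t (pt x y z)) = G j (lf j x y + t * ep j) := by
  obtain ⟨z', hz'⟩ := flow_aa t x y z
  rw [hz', V_pt, lf_flow]

theorem al_flow (t x y z : ℝ) : al (flow (XX aa) t (pt x y z))
    = 1 + ∑' j, ep j * deriv (G j) (lf j x y + t * ep j) := by
  obtain ⟨z', hz'⟩ := flow_aa t x y z
  rw [hz', al_pt]
  congr 1
  refine tsum_congr fun j => ?_
  rw [lf_flow]

/-- the summable bound -/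
theorem bd_summable : Summable fun j : ℕ => (1 / 2 : ℝ) ^ (2 * j + 5) := by
  refine Summable.of_nonneg_of_le (fun j => by positivity) (fun j => ?_) summable_geometric_two
  exact pow_le_pow_of_le_one (by norm_num) (by norm_num) (by omega)

theorem term_bd (j : ℕ) (s : ℝ) : ‖ep j * deriv (G j) s‖ ≤ (1 / 2) ^ (2 * j + 5) := by
  rw [norm_mul, Real.norm_eq_abs, Real.norm_eq_abs, abs_of_pos (ep_pos j)]
  exact (mul_le_mul_of_nonneg_left (deriv_G_le j s) (ep_pos j).le).trans (ep_small0 j)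

theorem al_low (w : Nil) : 1 / 2 ≤ al w := by
  obtain ⟨x, y, z, rfl⟩ := surj_pt w
  rw [al_pt]
  have h1 : ‖∑' j, ep j * deriv (G j) (lf j x y)‖ ≤ ∑' j : ℕ, (1 / 2 : ℝ) ^ (2 * j + 5) :=
    tsum_of_norm_bounded bd_summable.hasSum fun j => term_bd j _
  have h2 : ∑' j : ℕ, (1 / 2 : ℝ) ^ (2 * j + 5) ≤ 1 / 2 := by
    have h3 : ∑' j : ℕ, (1 / 2 : ℝ) ^ (2 * j + 5) ≤ ∑' j : ℕ, (1 / 4) * (1 / 2 : ℝ) ^ j := by
      refine bd_summable.tsum_le_tsum (fun j => ?_) (summable_geometric_two.mul_left _)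
      have h4 : (1 / 2 : ℝ) ^ (2 * j + 5) ≤ (1 / 2) ^ (j + 2) :=
        pow_le_pow_of_le_one (by norm_num) (by norm_num) (by omega)
      refine h4.trans (le_of_eq ?_)
      rw [pow_add]; ring
    rw [tsum_mul_left, tsum_geometric_two] at h3
    linarith
  rw [Real.norm_eq_abs, abs_le] at h1
  linarith [h1.1]

/-- the linear form as a continuous linear map on `ℝ³` -/
noncomputable def LL (j : ℕ) : (ℝ × ℝ × ℝ) →L[ℝ] ℝ :=
  (q j : ℝ) • ((ContinuousLinearMap.fst ℝ ℝ ℝ).comp (ContinuousLinearMap.snd ℝ ℝ (ℝ × ℝ)))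
    - (p j : ℝ) • (ContinuousLinearMap.fst ℝ ℝ (ℝ × ℝ))

theorem LL_apply (j : ℕ) (g : ℝ × ℝ × ℝ) : LL j g = lf j g.1 g.2.1 := by
  simp [LL, lf]

theorem LL_norm (j : ℕ) : ‖LL j‖ ≤ 3 * q j := by
  have hq := qr_pos j
  refine ContinuousLinearMap.opNorm_le_bound _ (by positivity) fun g => ?_
  rw [LL_apply, lf, Real.norm_eq_abs]
  have h1 : |g.1| ≤ ‖g‖ := norm_fst_le g
  have h2 : |g.2.1| ≤ ‖g‖ := (norm_fst_le g.2).trans (norm_snd_le g)
  have h3 : |(q j : ℝ) * g.2.1 - p j * g.1| ≤ |(q j : ℝ) * g.2.1| + |(p j : ℝ) * g.1| := abs_sub _ _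
  rw [abs_mul (q j : ℝ), abs_mul (p j : ℝ), abs_of_pos hq,
    abs_of_nonneg (Nat.cast_nonneg (p j) : (0 : ℝ) ≤ (p j : ℝ))] at h3
  have h4 := p_le j
  have h5 : (0 : ℝ) ≤ p j := Nat.cast_nonneg _
  have h6 := norm_nonneg g
  nlinarith [mul_le_mul_of_nonneg_left h2 hq.le, mul_le_mul_of_nonneg_left h1 h5,
    mul_le_mul_of_nonneg_right h4 h6]

theorem dG_contDiff (j : ℕ) : ContDiff ℝ (⊤ : ℕ∞) (deriv (G j)) :=
  ((contDiff_infty_iff_deriv).1 (G_contDiff j)).2

theorem iter_term (j k : ℕ) (hk : k ≤ j) (x : ℝ × ℝ × ℝ) :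
    ‖iteratedFDeriv ℝ k (fun g : ℝ × ℝ × ℝ => ep j * deriv (G j) (LL j g)) x‖
      ≤ (1 / 2) ^ (2 * j + 5) := by
  have hk' : (k : WithTop ℕ∞) ≤ ((⊤ : ℕ∞) : WithTop ℕ∞) := by exact_mod_cast le_top
  have h1 : (fun g : ℝ × ℝ × ℝ => ep j * deriv (G j) (LL j g))
      = (fun g => ep j • (deriv (G j) ∘ LL j) g) := rfl
  have h0 : ContDiff ℝ (⊤ : ℕ∞) (deriv (G j) ∘ LL j) := (dG_contDiff j).comp (LL j).contDiff
  rw [h1, iteratedFDeriv_const_smul_apply' (h0.of_le hk').contDiffAt, norm_smul,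
    (LL j).iteratedFDeriv_comp_right (dG_contDiff j) x hk']
  have h2 := ContinuousMultilinearMap.norm_compContinuousLinearMap_le
    (iteratedFDeriv ℝ k (deriv (G j)) (LL j x)) (fun _ => LL j)
  rw [norm_iteratedFDeriv_eq_norm_iteratedDeriv, ← iteratedDeriv_succ', Finset.prod_const,
    Finset.card_univ, Fintype.card_fin] at h2
  have h3 := Bn_spec j (m := k + 1) (by omega) (LL j x)
  have h4 := LL_norm j
  have h5 := ep_small j (m := k) (by omega)
  have h6 := ep_pos j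
  rw [Real.norm_eq_abs, abs_of_pos h6]
  refine le_trans ?_ h5
  rw [mul_assoc]
  refine mul_le_mul_of_nonneg_left (h2.trans ?_) h6.le
  rw [Real.norm_eq_abs]
  gcongr

theorem al_smooth : Smooth al := by
  have h1 : (fun g : ℝ × ℝ × ℝ => al (pt g.1 g.2.1 g.2.2))
      = fun g => 1 + ∑' j, ep j * deriv (G j) (LL j g) := by
    funext g
    rw [al_pt]
    simp_rw [LL_apply]
  rw [Smooth, h1]
  refine contDiff_const.add ?_
  refine contDiff_tsum_of_eventually (v := fun _ j => (1 / 2 : ℝ) ^ (2 * j + 5)) (fun j => ?_)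
    (fun _ _ => bd_summable) (fun k _ => ?_)
  · exact contDiff_const.mul ((dG_contDiff j).comp (LL j).contDiff)
  · rw [Nat.cofinite_eq_atTop]
    filter_upwards [eventually_ge_atTop k] with j hj x
    exact iter_term j k hj x

theorem al_cont : Continuous al := by
  have h1 : Continuous (fun g : ℝ × ℝ × ℝ => al (pt g.1 g.2.1 g.2.2)) :=
    (al_smooth : ContDiff ℝ (⊤ : ℕ∞) _).continuous
  have h2 : al ∘ mk = fun g : Heis => al (pt g.1 g.2.1 g.2.2) := rfl
  rw [openQuot.isQuotientMap.continuous_iff, h2]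
  exact h1

theorem al_pos : Pos al := ⟨al_cont, al_low⟩

/-- the increments -/
theorem inc_summable (t : ℝ) (w : Nil) :
    Summable fun j => V j (flow (XX aa) t w) - V j w := by
  obtain ⟨x, y, z, rfl⟩ := surj_pt w
  refine Summable.of_norm_bounded (g := fun j : ℕ => |t| * (1 / 2 : ℝ) ^ (2 * j + 5))
    (bd_summable.mul_left _) fun j => ?_
  rw [V_flow, V_pt, Real.norm_eq_abs]
  refine (G_lip j _ _).trans ?_
  rw [add_sub_cancel_left, abs_mul, abs_of_pos (ep_pos j)]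
  calc (Bn j : ℝ) * (|t| * ep j) = |t| * (ep j * Bn j) := by ring
    _ ≤ |t| * (1 / 2 : ℝ) ^ (2 * j + 5) := mul_le_mul_of_nonneg_left (ep_small0 j) (abs_nonneg t)

theorem th_formula (t : ℝ) (w : Nil) :
    th (XX aa) al w t = t + ∑' j, (V j (flow (XX aa) t w) - V j w) := by
  obtain ⟨x, y, z, rfl⟩ := surj_pt w
  have h1 : ∀ t, HasDerivAt (fun t => ∑' j, (G j (lf j x y + t * ep j) - G j (lf j x y)))
      (∑' j, ep j * deriv (G j) (lf j x y + t * ep j)) t := by
    refine hasDerivAt_tsum (u := fun j : ℕ => (1 / 2 : ℝ) ^ (2 * j + 5)) (y₀ := 0) bd_summable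
      (fun j t => ?_) (fun j t => term_bd j _) ?_
    · have h2 : HasDerivAt (G j) (deriv (G j) (lf j x y + t * ep j)) (lf j x y + t * ep j) :=
        ((G_contDiff j).differentiable (by simp)).differentiableAt.hasDerivAt
      have h3 : HasDerivAt (fun t : ℝ => lf j x y + t * ep j) (ep j) t := by
        simpa using ((hasDerivAt_id t).mul_const (ep j)).const_add (lf j x y)
      have h4 := (h2.comp t h3).sub_const (G j (lf j x y))
      rw [mul_comm] at h4
      exact h4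
    · simp only [zero_mul, add_zero, sub_self]
      exact summable_zero
  have h5 : ∀ t, HasDerivAt (fun t => t + ∑' j, (G j (lf j x y + t * ep j) - G j (lf j x y)))
      (al (flow (XX aa) t (pt x y z))) t := by
    intro t
    rw [al_flow]
    exact (hasDerivAt_id t).add (h1 t)
  rw [th, intervalIntegral.integral_eq_sub_of_hasDerivAt (fun s _ => h5 s)
    ((cont_path al_pos _).intervalIntegrable _ _)]
  simp only [zero_mul, add_zero, sub_self, tsum_zero, sub_zero]
  congr 1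
  refine tsum_congr fun j => ?_
  rw [V_flow, V_pt]

end Q176.TC
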