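import Pool.Agent.Q176.TC.C7
import Pool.Agent.Q176.TC.C6

/-! The eigenfunction of the time-change. -/

set_option autoImplicit false

open MeasureTheory Set Filter Topology
open scoped ENNReal

namespace Q176.TC

theorem rt_cont_base {E : Type*} [TopologicalSpace E] {Φ : ℝ → ℝ → E}
    (h : ∀ x y (m n : ℤ), Φ (x + m) (y + n) = Φ x y)
    (hc : Continuous fun p : ℝ × ℝ => Φ p.1 p.2) : Continuous (lift Φ) := by
  have h2 : lift Φ ∘ mk = fun g : Heis => Φ g.1 g.2.1 := by
    funext g
    show lift Φ (pt g.1 g.2.1 g.2.2) = _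
    exact lift_pt h _ _ _
  rw [openQuot.isQuotientMap.continuous_iff, h2]
  exact hc.comp (continuous_fst'.prodMk continuous_snd')

theorem V_cont (j : ℕ) : Continuous (V j) := by
  refine rt_cont_base (fun x y m n => ?_) ?_
  · rw [lf_int, G_per]
  · refine (G_contDiff j).continuous.comp ?_
    show Continuous fun p : ℝ × ℝ => (q j : ℝ) * p.2 - Q176.TC.p j * p.1
    fun_prop

/-- the exceptional sets of the line -/
def Ex (j : ℕ) : Set ℝ := {s | G j s ≠ 0 ∧ G j s ≠ 1}

theorem Ex_meas (j : ℕ) : MeasurableSet (Ex j) := by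
  have hc := (G_contDiff j).continuous.measurable
  have h1 : Ex j = (G j ⁻¹' {0})ᶜ ∩ (G j ⁻¹' {1})ᶜ := rfl
  rw [h1]
  exact (hc (measurableSet_singleton 0)).compl.inter (hc (measurableSet_singleton 1)).compl

/-- the exceptional sets of the nilmanifold -/
def ExN (j : ℕ) : Set Nil := {w | V j w ≠ 0 ∧ V j w ≠ 1}

theorem ExN_meas (j : ℕ) : MeasurableSet (ExN j) := by
  have hc := (V_cont j).measurable
  have h1 : ExN j = (V j ⁻¹' {0})ᶜ ∩ (V j ⁻¹' {1})ᶜ := rfl
  rw [h1]
  exact (hc (measurableSet_singleton 0)).compl.inter (hc (measurableSet_singleton 1)).compl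

theorem ExN_small (j : ℕ) : haar (ExN j) ≤ ENNReal.ofReal ((1 / 2) ^ j) := by
  have hq := qr_pos j
  set χ : ℝ → ℝ := (Ex j).indicator 1 with hχ
  have hχm : Measurable χ := measurable_one.indicator (Ex_meas j)
  have hχp : ∀ s, χ (s + 1) = χ s := by
    intro s
    have h1 : s + 1 ∈ Ex j ↔ s ∈ Ex j := by
      have := G_per j s 1
      rw [Int.cast_one] at this
      show G j (s + 1) ≠ 0 ∧ G j (s + 1) ≠ 1 ↔ _
      rw [this]; rfl
    by_cases h2 : s ∈ Ex j
    · rw [hχ, indicator_of_mem (h1.2 h2), indicator_of_mem h2]; rfl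
    · rw [hχ, indicator_of_notMem (fun h => h2 (h1.1 h)), indicator_of_notMem h2]
  have hχb : ∀ s, ‖χ s‖ ≤ 1 := by
    intro s
    by_cases h2 : s ∈ Ex j
    · rw [hχ, indicator_of_mem h2]; simp
    · rw [hχ, indicator_of_notMem h2]; simp
  have hχi : ∫ s in (0 : ℝ)..1, χ s ≤ (1 / 2) ^ j := by
    rw [intervalIntegral.integral_of_le zero_le_one, ← integral_Ico_eq_integral_Ioc, hχ,
      integral_indicator_one (Ex_meas j), measureReal_restrict_apply (Ex_meas j), measureReal_def]
    refine ENNReal.toReal_le_of_le_ofReal (by positivity) ?_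
    exact exc_volume j
  set K : Nil → ℝ := (ExN j).indicator 1 with hK
  have hKm : Measurable K := measurable_one.indicator (ExN_meas j)
  have hKb : ∀ w, ‖K w‖ ≤ 1 := by
    intro s
    by_cases h2 : s ∈ ExN j
    · rw [hK, indicator_of_mem h2]; simp
    · rw [hK, indicator_of_notMem h2]; simp
  -- the translations
  have hR : ∀ r x y z, K (rt (hv 0 (r / q j) 0) (pt x y z)) = χ (lf j x y + r) := by
    intro r x y z
    have h1 : V j (rt (hv 0 (r / q j) 0) (pt x y z)) = G j (lf j x y + r) := by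
      rw [rt_pt, V_pt, lf, lf]
      congr 1
      field_simp
      ring
    by_cases h2 : lf j x y + r ∈ Ex j
    · have h3 : rt (hv 0 (r / q j) 0) (pt x y z) ∈ ExN j := by
        show V j _ ≠ 0 ∧ V j _ ≠ 1
        rw [h1]; exact h2
      rw [hK, hχ, indicator_of_mem h3, indicator_of_mem h2]; rfl
    · have h3 : rt (hv 0 (r / q j) 0) (pt x y z) ∉ ExN j := by
        intro h
        apply h2
        have h' : V j _ ≠ 0 ∧ V j _ ≠ 1 := h
        rw [h1] at h'
        exact h'
      rw [hK, hχ, indicator_of_notMem h3, indicator_of_notMem h2]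
  have hmeas2 : Measurable fun p : ℝ × Nil => K (rt (hv 0 (p.1 / q j) 0) p.2) := by
    have h : Continuous fun p : ℝ × Nil => rt (hv 0 (p.1 / q j) 0) p.2 := by
      have h1 : Continuous (fun p : ℝ × Nil => hv 0 (p.1 / q j) 0) :=
        continuous_hv.comp (by fun_prop :
          Continuous fun p : ℝ × Nil => ((0, p.1 / q j, 0) : ℝ × ℝ × ℝ))
      exact continuous_rt2.comp (h1.prodMk continuous_snd)
    exact hKm.comp h.measurable
  have e1 : ∀ r : ℝ, ∫ w, K w ∂haar = ∫ w, K (rt (hv 0 (r / q j) 0) w) ∂haar := by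
    intro r
    have h := integral_map (μ := haar) (measurable_rt (hv 0 (r / q j) 0)).aemeasurable
      (f := K) hKm.aestronglyMeasurable
    rw [map_rt] at h
    exact h
  have e2 : ∫ w, K w ∂haar = ∫ r in (0 : ℝ)..1, ∫ w, K (rt (hv 0 (r / q j) 0) w) ∂haar := by
    simp_rw [← e1]
    rw [intervalIntegral.integral_const, sub_zero, one_smul]
  have e3 : ∫ r in (0 : ℝ)..1, ∫ w, K (rt (hv 0 (r / q j) 0) w) ∂haar
      = ∫ w, (∫ r in (0 : ℝ)..1, K (rt (hv 0 (r / q j) 0) w)) ∂haar := by
    rw [intervalIntegral.integral_of_le zero_le_one,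
      integral_integral_swap (f := fun r w => K (rt (hv 0 (r / q j) 0) w))]
    · refine integral_congr_ae (Eventually.of_forall fun w => ?_)
      show (∫ r in Ioc (0 : ℝ) 1, K (rt (hv 0 (r / q j) 0) w)) = _
      rw [← intervalIntegral.integral_of_le zero_le_one]
    · refine Integrable.of_bound (C := 1) hmeas2.aestronglyMeasurable
        (Eventually.of_forall fun q => ?_)
      exact hKb _
  have e4 : ∀ w, ∫ r in (0 : ℝ)..1, K (rt (hv 0 (r / q j) 0) w) = ∫ s in (0 : ℝ)..1, χ s := by
    intro w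
    obtain ⟨x, y, z, rfl⟩ := surj_pt w
    simp_rw [hR]
    rw [← per_shift hχp (lf j x y)]
    simp_rw [add_comm]
  have e5 : haar.real (ExN j) ≤ (1 / 2) ^ j := by
    rw [← integral_indicator_one (ExN_meas j), ← hK, e2, e3]
    simp_rw [e4]
    rw [MeasureTheory.integral_const, probReal_univ, one_smul]
    exact hχi
  rw [measureReal_def] at e5
  exact ENNReal.le_ofReal_iff_toReal_le (measure_ne_top _ _) (by positivity) |>.2 e5

/-- almost all points are in finitely many exceptional sets -/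
theorem ae_eventually : ∀ᵐ w ∂haar, ∀ᶠ j in atTop, V j w = 0 ∨ V j w = 1 := by
  have h1 : ∑' j, haar (ExN j) ≠ ∞ := by
    refine ne_top_of_le_ne_top ?_ (ENNReal.tsum_le_tsum ExN_small)
    have h2 : Summable fun j : ℕ => (1 / 2 : ℝ) ^ j := summable_geometric_two
    exact h2.tsum_ofReal_ne_top
  filter_upwards [ae_eventually_notMem h1] with w hw
  filter_upwards [hw] with j hj
  by_contra h
  exact hj (not_or.1 h)

/-- the partial products -/
noncomputable def FJ (J : ℕ) (w : Nil) : ℂ := ee (∑ j ∈ Finset.range J, V j w)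

theorem FJ_cont (J : ℕ) : Continuous (FJ J) :=
  continuous_ee.comp (continuous_finsetSum _ fun j _ => V_cont j)

noncomputable def e0 : Nil → ℂ := lift fun x _ => ee x

theorem ee_add_int (s : ℝ) (n : ℤ) : ee (s + n) = ee s := by rw [ee_add, ee_int, mul_one]

theorem e0_pt (x y z : ℝ) : e0 (pt x y z) = ee x :=
  lift_pt (Φ := fun x _ => ee x) (fun x _ m _ => ee_add_int x m) x y z

theorem e0_cont : Continuous e0 :=
  rt_cont_base (fun x _ m _ => ee_add_int x m) (continuous_ee.comp continuous_fst)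

theorem e0_flow (t : ℝ) (w : Nil) : e0 (flow (XX aa) t w) = ee t * e0 w := by
  obtain ⟨x, y, z, rfl⟩ := surj_pt w
  obtain ⟨z', hz'⟩ := flow_aa t x y z
  rw [hz', e0_pt, e0_pt, add_comm, ee_add]

theorem e0_norm (w : Nil) : ‖e0 w‖ = 1 := by
  obtain ⟨x, y, z, rfl⟩ := surj_pt w
  rw [e0_pt, norm_ee]

open Classical in
/-- the eigenfunction -/
noncomputable def ff (w : Nil) : ℂ :=
  if ∃ l, Tendsto (fun J => FJ J w) atTop (𝓝 l) then
    e0 w * limUnder atTop (fun J => FJ J w) else 0

theorem ff_meas : Measurable ff := by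
  classical
  have h1 : MeasurableSet {w : Nil | ∃ l, Tendsto (fun J => FJ J w) atTop (𝓝 l)} :=
    MeasureTheory.measurableSet_exists_tendsto fun J => (FJ_cont J).measurable
  have h2 : StronglyMeasurable fun w : Nil => limUnder atTop (fun J => FJ J w) :=
    StronglyMeasurable.limUnder (f := FJ) fun J => (FJ_cont J).stronglyMeasurable
  exact Measurable.ite h1 (e0_cont.measurable.mul h2.measurable) measurable_const

theorem FJ_flow (t : ℝ) (J : ℕ) (w : Nil) : FJ J (flow (XX aa) t w)
    = ee (∑ j ∈ Finset.range J, (V j (flow (XX aa) t w) - V j w)) * FJ J w := by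
  rw [FJ, FJ, ← ee_add, ← Finset.sum_add_distrib]
  congr 1
  refine Finset.sum_congr rfl fun j _ => ?_
  ring

theorem FJ_tendsto (t : ℝ) {w : Nil} {l : ℂ} (h : Tendsto (fun J => FJ J w) atTop (𝓝 l)) :
    Tendsto (fun J => FJ J (flow (XX aa) t w)) atTop
      (𝓝 (ee (∑' j, (V j (flow (XX aa) t w) - V j w)) * l)) := by
  simp_rw [FJ_flow]
  refine Tendsto.mul ?_ h
  exact (continuous_ee.tendsto _).comp (inc_summable t w).hasSum.tendsto_sum_nat

theorem ff_flow (t : ℝ) (w : Nil) :
    ff (flow (XX aa) t w) = ee (th (XX aa) al w t) * ff w := by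
  by_cases h : ∃ l, Tendsto (fun J => FJ J w) atTop (𝓝 l)
  · obtain ⟨l, hl⟩ := h
    have h2 := FJ_tendsto t hl
    rw [ff, if_pos ⟨_, h2⟩, ff, if_pos ⟨_, hl⟩, hl.limUnder_eq, h2.limUnder_eq, e0_flow,
      th_formula, ee_add]
    ring
  · have h2 : ¬ ∃ l, Tendsto (fun J => FJ J (flow (XX aa) t w)) atTop (𝓝 l) := by
      rintro ⟨l, hl⟩
      have h3 := FJ_tendsto (-t) hl
      rw [flow_add, add_neg_cancel, flow_zero] at h3
      exact h ⟨_, h3⟩
    rw [ff, if_neg h2, ff, if_neg h, mul_zero]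

theorem ff_norm : ∀ᵐ w ∂haar, ‖ff w‖ = 1 := by
  filter_upwards [ae_eventually] with w hw
  obtain ⟨J, hJ⟩ := eventually_atTop.1 hw
  have h1 : ∀ i, FJ (J + i) w = FJ J w := by
    intro i
    induction i with
    | zero => rfl
    | succ i ih =>
      rw [← ih, ← add_assoc, FJ, FJ, Finset.sum_range_succ, ee_add]
      have h2 : ee (V (J + i) w) = 1 := by
        rcases hJ (J + i) (by omega) with h | h
        · rw [h, ee_zero]
        · rw [h]
          have := ee_int 1
          rwa [Int.cast_one] at this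
      rw [h2, mul_one]
  have h3 : Tendsto (fun J => FJ J w) atTop (𝓝 (FJ J w)) := by
    refine tendsto_const_nhds.congr' ?_
    filter_upwards [eventually_ge_atTop J] with K hK
    obtain ⟨i, rfl⟩ := Nat.exists_eq_add_of_le hK
    exact (h1 i).symm
  rw [ff, if_pos ⟨_, h3⟩, h3.limUnder_eq, norm_mul, e0_norm, one_mul, FJ, norm_ee]

theorem ff_tc (r : ℝ) (w : Nil) : ff (tc al_pos (XX aa) r w) = ee r * ff w := by
  rw [tc, ff_flow, th_tau]

theorem isEF : EF (tc al_pos (XX aa)) (weighted haar al) ff where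
  prob := prob_weighted al_pos
  mp := mp_tc al_pos
  add := tc_add al_pos
  zero := tc_zero al_pos
  meas := ff_meas
  eig := ff_tc
  norm := (weighted_ac al).ae_le ff_norm

end Q176.TC
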