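import Pool.Agent.Q176.TC.C8

/-! The function `α` is not measurably trivial. -/

set_option autoImplicit false

open MeasureTheory Set Filter Topology

namespace Q176.TC

theorem int_rt_meas {K : Nil → ℝ} (hK : Measurable K) (h : Heis) :
    ∫ w, K (rt h w) ∂haar = ∫ w, K w ∂haar := by
  have h1 := integral_map (μ := haar) (measurable_rt h).aemeasurable (f := K)
    hK.aestronglyMeasurable
  rw [map_rt] at h1
  exact h1.symm

theorem ae_rt {P : Nil → Prop} (h : Heis) (hP : ∀ᵐ w ∂haar, P w) : ∀ᵐ w ∂haar, P (rt h w) :=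
  (mp_rt h).quasiMeasurePreserving.tendsto_ae.eventually hP

/-- the cocycle -/
noncomputable def Sc (t : ℝ) (w : Nil) : ℝ := ∑' j, (V j (flow (XX aa) t w) - V j w)

theorem Sc_eq (t : ℝ) (w : Nil) : Sc t w = th (XX aa) al w t - t := by
  rw [th_formula, Sc]; ring

theorem Sc_cont (t : ℝ) : Continuous (Sc t) := by
  have h : Sc t = fun w => th (XX aa) al w t - t := funext fun w => Sc_eq t w
  rw [h]
  exact ((th_cont2 al_pos).comp (Continuous.prodMk_left t)).sub continuous_const

theorem V_cen (j : ℕ) (s : ℝ) (w : Nil) : V j (cen s w) = V j w := by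
  obtain ⟨x, y, z, rfl⟩ := surj_pt w
  rw [cen_pt, V_pt, V_pt]

theorem Sc_cen (t s : ℝ) (w : Nil) : Sc t (cen s w) = Sc t w := by
  rw [Sc, Sc]
  refine tsum_congr fun j => ?_
  rw [cen_flow, V_cen, V_cen]

/-- the equation of a transfer function -/
def Tr (c : ℝ) (u : Nil → ℝ) : Prop :=
  ∀ t, ∀ᵐ w ∂haar, u (flow (XX aa) t w) - u w = (1 - c) * t + Sc t w

theorem trivial_tr (h : MeasurablyTrivial (XX aa) haar al) : ∃ c u, Measurable u ∧ Tr c u := by
  obtain ⟨c, u, hu, h⟩ := h
  refine ⟨c, u, hu, fun t => ?_⟩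
  filter_upwards [h t] with w hw
  rw [hw, intervalIntegral.integral_sub ((cont_path al_pos w).intervalIntegrable _ _) (by simp),
    intervalIntegral.integral_const, Sc_eq, th, smul_eq_mul]
  ring

theorem cen_const {c : ℝ} {u : Nil → ℝ} (hu : Measurable u) (h : Tr c u) (s : ℝ) :
    ∃ d, ∀ᵐ w ∂haar, u (cen s w) = u w + d := by
  have hv : Measurable fun w => u (cen s w) - u w :=
    (hu.comp (continuous_cen s).measurable).sub hu
  obtain ⟨d, hd⟩ := ergodic_const (uniquelyErgodic aa_irrational) hv fun t => by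
    have h1 : ∀ᵐ w ∂haar, u (flow (XX aa) t (cen s w)) - u (cen s w)
        = (1 - c) * t + Sc t (cen s w) := ae_rt _ (h t)
    filter_upwards [h t, h1] with w hw1 hw2
    rw [Sc_cen, cen_flow] at hw2
    linarith
  exact ⟨d, by filter_upwards [hd] with w hw; linarith⟩

theorem cen_rat {c : ℝ} {u : Nil → ℝ} (hu : Measurable u) (h : Tr c u) {n : ℕ} (hn : 0 < n)
    (i : ℕ) : ∀ᵐ w ∂haar, u (cen (i / n) w) = u w := by
  obtain ⟨d, hd⟩ := cen_const hu h (1 / n)
  have key : ∀ i : ℕ, ∀ᵐ w ∂haar, u (cen (i / n) w) = u w + i * d := by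
    intro i
    induction i with
    | zero => simp [cen_zero]
    | succ i ih =>
      have h1 : ∀ᵐ w ∂haar, u (cen (1 / n) (cen (i / n) w)) = u (cen (i / n) w) + d := ae_rt _ hd
      filter_upwards [ih, h1] with w hw1 hw2
      rw [cen_cen, hw1] at hw2
      push_cast
      rw [show ((i : ℝ) + 1) / n = i / n + 1 / n by ring, hw2]
      ring
  have hn0 : (n : ℝ) ≠ 0 := Nat.cast_ne_zero.2 hn.ne'
  have hd0 : d = 0 := by
    obtain ⟨w, hw⟩ := (key n).exists
    rw [div_self hn0, cen_one] at hw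
    have : (n : ℝ) * d = 0 := by linarith
    exact (mul_eq_zero.1 this).resolve_left hn0
  filter_upwards [key i] with w hw
  rw [hw, hd0, mul_zero, add_zero]

/-- averages over a finite group of central translations -/
noncomputable def av (n : ℕ) (h : Nil → ℂ) (w : Nil) : ℂ :=
  (n : ℂ)⁻¹ * ∑ i ∈ Finset.range n, h (cen (i / n) w)

theorem av_cont (n : ℕ) {h : Nil → ℂ} (hh : Continuous h) : Continuous (av n h) :=
  continuous_const.mul (continuous_finsetSum _ fun i _ => hh.comp (continuous_cen _))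

theorem av_cen (n : ℕ) (hn : 0 < n) (h : Nil → ℂ) (w : Nil) :
    av n h (cen (1 / n) w) = av n h w := by
  have hn0 : (n : ℝ) ≠ 0 := Nat.cast_ne_zero.2 hn.ne'
  rw [av, av]
  congr 1
  have h1 : ∀ i : ℕ, h (cen (i / n) (cen (1 / n) w)) = h (cen (((i + 1 : ℕ) : ℝ) / n) w) := by
    intro i
    rw [cen_cen]
    congr 2
    push_cast
    ring
  simp_rw [h1]
  have h2 := Finset.sum_range_succ' (fun i : ℕ => h (cen ((i : ℝ) / n) w)) n
  have h3 := Finset.sum_range_succ (fun i : ℕ => h (cen ((i : ℝ) / n) w)) n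
  rw [h2] at h3
  have h4 : h (cen ((n : ℝ) / n) w) = h (cen (((0 : ℕ) : ℝ) / n) w) := by
    rw [div_self hn0, cen_one, Nat.cast_zero, zero_div, cen_zero]
  rw [h4] at h3
  exact add_right_cancel h3

theorem av_near (n : ℕ) (hn : 0 < n) {h : Nil → ℂ} {η δ : ℝ} (hδ : 1 / n < δ)
    (hmod : ∀ s, |s| < δ → ∀ w, ‖h (cen s w) - h w‖ ≤ η) (s : ℝ) (w : Nil) :
    ‖av n h (cen s w) - av n h w‖ ≤ η := by
  have hn0 : (0 : ℝ) < n := Nat.cast_pos.2 hn
  have hper : Function.Periodic (fun s => av n h (cen s w)) (1 / n) := by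
    intro s
    show av n h (cen (s + 1 / n) w) = av n h (cen s w)
    rw [← cen_cen, av_cen n hn]
  have h1 := hper.int_mul ⌊s * n⌋
  have h2 : av n h (cen s w) = av n h (cen (s - ⌊s * n⌋ * (1 / n)) w) := by
    have h3 := h1 (s - ⌊s * n⌋ * (1 / n))
    simp only [sub_add_cancel] at h3
    exact h3
  set r := s - ⌊s * n⌋ * (1 / n) with hr
  have hr1 : r = Int.fract (s * n) / n := by
    rw [hr, Int.fract]; field_simp
  have hr0 : 0 ≤ r := by rw [hr1]; exact div_nonneg (Int.fract_nonneg _) hn0.le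
  have hr2 : r < 1 / n := by
    rw [hr1]; exact div_lt_div_of_pos_right (Int.fract_lt_one _) hn0
  rw [h2, av, av, ← mul_sub, ← Finset.sum_sub_distrib, norm_mul, norm_inv, Complex.norm_natCast]
  have h4 : ‖∑ i ∈ Finset.range n, (h (cen (i / n) (cen r w)) - h (cen (i / n) w))‖ ≤ n * η := by
    refine (norm_sum_le _ _).trans ?_
    refine (Finset.sum_le_card_nsmul _ _ η fun i _ => ?_).trans (by simp)
    have h5 : cen (i / n) (cen r w) = cen r (cen (i / n) w) := by
      rw [cen_cen, cen_cen, add_comm]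
    rw [h5]
    exact hmod r (by rw [abs_of_nonneg hr0]; linarith) _
  calc (n : ℝ)⁻¹ * ‖∑ i ∈ Finset.range n, (h (cen (i / n) (cen r w)) - h (cen (i / n) w))‖
      ≤ (n : ℝ)⁻¹ * (n * η) := mul_le_mul_of_nonneg_left h4 (by positivity)
    _ = η := by field_simp

theorem cen_modulus {h : Nil → ℂ} (hh : Continuous h) {η : ℝ} (hη : 0 < η) :
    ∃ δ > 0, ∀ s, |s| < δ → ∀ w, ‖h (cen s w) - h w‖ ≤ η := by
  have hc : Continuous fun p : ℝ × Nil => ‖h (cen p.1 p.2) - h p.2‖ :=
    ((hh.comp continuous_cen2).sub (hh.comp continuous_snd)).norm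
  have h1 : ∀ᶠ s in 𝓝 (0 : ℝ), ∀ w ∈ (univ : Set Nil), ‖h (cen s w) - h w‖ < η := by
    refine isCompact_univ.eventually_forall_of_forall_eventually fun w _ => ?_
    have h2 : ‖h (cen (0 : ℝ) w) - h w‖ < η := by rw [cen_zero, sub_self, norm_zero]; exact hη
    exact hc.continuousAt.eventually_lt continuousAt_const h2
  obtain ⟨δ, hδ, h2⟩ := Metric.eventually_nhds_iff.1 h1
  refine ⟨δ, hδ, fun s hs w => (h2 ?_ w (mem_univ _)).le⟩
  rwa [dist_zero_right, Real.norm_eq_abs]

/-- the position after the time `tt k` -/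
theorem flow_tt (k : ℕ) (x y z : ℝ) :
    ∃ z', flow (XX aa) (tt k) (pt x y z) = pt x (y + sh k) z' := by
  obtain ⟨z1, hz1⟩ := flow_aa (tt k) x y z
  have h1 : (x + (tt k : ℝ)) = x + ((tt k : ℤ) : ℝ) := by push_cast; ring
  have h2 : y + (tt k : ℝ) * aa = y + sh k + (((MM k * p k : ℕ) : ℤ) : ℝ) := by
    rw [tt_aa]; push_cast; ring
  rw [hz1, h1, pt_x, h2, pt_y]
  exact ⟨_, rfl⟩

theorem sh_tendsto : Tendsto sh atTop (𝓝 0) := by
  have h1 : ∀ k, sh k ≤ (1 / 2) ^ k := by
    intro k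
    refine (sh_le k).trans ?_
    have := term_le 0 k
    rw [add_zero, q_zero] at this
    simpa using this
  exact squeeze_zero sh_nonneg h1
    (tendsto_pow_atTop_nhds_zero_of_lt_one (by norm_num) (by norm_num))

/-- the rigidity of functions which do not depend on the centre -/
theorem rigid {b : Nil → ℂ} (hb : Measurable b) (hb1 : ∀ w, ‖b w‖ ≤ 1)
    (hbc : ∀ n : ℕ, 0 < n → ∀ i : ℕ, ∀ᵐ w ∂haar, b (cen (i / n) w) = b w) {η : ℝ} (hη : 0 < η) :
    ∀ᶠ k in atTop, ∫ w, ‖b (flow (XX aa) (tt k) w) - b w‖ ∂haar ≤ 4 * η := by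
  have hbi : Integrable b haar :=
    Integrable.of_bound (C := 1) hb.aestronglyMeasurable (Eventually.of_forall hb1)
  obtain ⟨h, hh, hhi⟩ := hbi.exists_boundedContinuous_integral_sub_le hη
  obtain ⟨δ, hδ, hmod⟩ := cen_modulus h.continuous hη
  obtain ⟨n, hn⟩ := exists_nat_gt (1 / δ)
  have hn0 : (0 : ℝ) < n := (one_div_pos.2 hδ).trans hn
  have hn' : 0 < n := Nat.cast_pos.1 hn0
  have hδn : 1 / (n : ℝ) < δ := by
    rw [div_lt_iff₀ hn0]
    rw [div_lt_iff₀ hδ] at hn
    linarith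
  set H := av n h with hH
  have hHc : Continuous H := av_cont n h.continuous
  have hnear := av_near n hn' hδn hmod
  -- the approximation
  have happ : ∫ w, ‖b w - H w‖ ∂haar ≤ η := by
    have e1 : ∀ᵐ w ∂haar, ∀ i : ℕ, b (cen (i / n) w) = b w := ae_all_iff.2 (hbc n hn')
    have hmi : ∀ i : ℕ, Measurable fun w => ‖b (cen (i / n) w) - h (cen (i / n) w)‖ := fun i =>
      ((hb.sub h.continuous.measurable).comp (continuous_cen _).measurable).norm
    have hbd : ∀ w, ‖b w - h w‖ ≤ 1 + ‖h‖ := fun w =>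
      (norm_sub_le _ _).trans (add_le_add (hb1 w) (h.norm_coe_le_norm w))
    have hii : ∀ i : ℕ, Integrable (fun w => ‖b (cen (i / n) w) - h (cen (i / n) w)‖) haar :=
      fun i => Integrable.of_bound (C := 1 + ‖h‖) (hmi i).aestronglyMeasurable
        (Eventually.of_forall fun w => by rw [norm_norm]; exact hbd _)
    have e2 : ∀ᵐ w ∂haar, ‖b w - H w‖
        ≤ (n : ℝ)⁻¹ * ∑ i ∈ Finset.range n, ‖b (cen (i / n) w) - h (cen (i / n) w)‖ := by
      filter_upwards [e1] with w hw
      have e3 : b w - H w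
          = (n : ℂ)⁻¹ * ∑ i ∈ Finset.range n, (b (cen (i / n) w) - h (cen (i / n) w)) := by
        rw [Finset.sum_sub_distrib, mul_sub]
        simp_rw [hw]
        rw [Finset.sum_const, Finset.card_range, nsmul_eq_mul, inv_mul_cancel_left₀
          (Nat.cast_ne_zero.2 hn'.ne' : (n : ℂ) ≠ 0)]
        rfl
      rw [e3, norm_mul, norm_inv, Complex.norm_natCast]
      exact mul_le_mul_of_nonneg_left (norm_sum_le _ _) (by positivity)
    refine (integral_mono_of_nonneg (Eventually.of_forall fun w => norm_nonneg _)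
      ((integrable_finsetSum _ fun i _ => hii i).const_mul _) e2).trans ?_
    rw [integral_const_mul, integral_finsetSum _ fun i _ => hii i]
    have e4 : ∀ i : ℕ, ∫ w, ‖b (cen (i / n) w) - h (cen (i / n) w)‖ ∂haar
        = ∫ w, ‖b w - h w‖ ∂haar := fun i =>
      int_rt_meas (hb.sub h.continuous.measurable).norm _
    simp_rw [e4]
    rw [Finset.sum_const, Finset.card_range, nsmul_eq_mul, inv_mul_cancel_left₀ hn0.ne']
    exact hh
  -- the shift of the approximation
  have hsh : ∀ᶠ k in atTop, ∀ w, ‖H (flow (XX aa) (tt k) w) - H w‖ ≤ 2 * η := by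
    filter_upwards [sh_tendsto.eventually (modulus hHc hη)] with k hk w
    obtain ⟨x, hx, y, hy, z, hz, rfl⟩ := exists_fund w
    obtain ⟨z', hz'⟩ := flow_tt k x y z
    have e5 : pt x (y + sh k) z' = cen (z' - z) (pt x (y + sh k) z) := by
      rw [cen_pt]; congr 1; ring
    rw [hz', e5]
    have e6 := hnear (z' - z) (pt x (y + sh k) z)
    have e7 := hk x hx y z
    calc ‖H (cen (z' - z) (pt x (y + sh k) z)) - H (pt x y z)‖
        = ‖(H (cen (z' - z) (pt x (y + sh k) z)) - H (pt x (y + sh k) z))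
            + (H (pt x (y + sh k) z) - H (pt x y z))‖ := by congr 1; ring
      _ ≤ η + η := (norm_add_le _ _).trans (add_le_add e6 e7.le)
      _ = 2 * η := by ring
  filter_upwards [hsh] with k hk
  have hm1 : Measurable fun w => ‖b w - H w‖ := (hb.sub hHc.measurable).norm
  obtain ⟨B, hB0, hB⟩ := bdd_of_cont hHc
  have hi1 : Integrable (fun w => ‖b w - H w‖) haar :=
    Integrable.of_bound (C := 1 + B) hm1.aestronglyMeasurable (Eventually.of_forall fun w => by
      rw [norm_norm]; exact (norm_sub_le _ _).trans (add_le_add (hb1 w) (hB w)))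
  have hi2 : Integrable (fun w => ‖b (flow (XX aa) (tt k) w) - H (flow (XX aa) (tt k) w)‖) haar :=
    Integrable.of_bound (C := 1 + B) (hm1.comp (measurable_flow _ _)).aestronglyMeasurable
      (Eventually.of_forall fun w => by
        rw [norm_norm]
        exact (norm_sub_le _ _).trans (add_le_add (hb1 _) (hB _)))
  have e8 : ∫ w, ‖b (flow (XX aa) (tt k) w) - H (flow (XX aa) (tt k) w)‖ ∂haar
      = ∫ w, ‖b w - H w‖ ∂haar := int_rt_meas hm1 _
  have e9 : ∫ w, ‖b (flow (XX aa) (tt k) w) - b w‖ ∂haar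
      ≤ ∫ w, (‖b (flow (XX aa) (tt k) w) - H (flow (XX aa) (tt k) w)‖ + 2 * η
        + ‖b w - H w‖) ∂haar := by
    refine integral_mono_of_nonneg (Eventually.of_forall fun w => norm_nonneg _)
      ((hi2.add (integrable_const _)).add hi1) (Eventually.of_forall fun w => ?_)
    show ‖b (flow (XX aa) (tt k) w) - b w‖ ≤ ‖b (flow (XX aa) (tt k) w)
      - H (flow (XX aa) (tt k) w)‖ + 2 * η + ‖b w - H w‖
    calc ‖b (flow (XX aa) (tt k) w) - b w‖
        = ‖(b (flow (XX aa) (tt k) w) - H (flow (XX aa) (tt k) w))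
            + (H (flow (XX aa) (tt k) w) - H w) + (H w - b w)‖ := by congr 1; ring
      _ ≤ ‖b (flow (XX aa) (tt k) w) - H (flow (XX aa) (tt k) w)‖
            + ‖H (flow (XX aa) (tt k) w) - H w‖ + ‖H w - b w‖ := norm_add₃_le
      _ ≤ _ := by
          rw [norm_sub_rev (H w) (b w)]
          have := hk w
          linarith
  have e10 : ∫ w, (‖b (flow (XX aa) (tt k) w) - H (flow (XX aa) (tt k) w)‖ + 2 * η
        + ‖b w - H w‖) ∂haar = ∫ w, ‖b (flow (XX aa) (tt k) w) - H (flow (XX aa) (tt k) w)‖ ∂haar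
          + 2 * η + ∫ w, ‖b w - H w‖ ∂haar := by
    have i1 : Integrable (fun w => ‖b (flow (XX aa) (tt k) w) - H (flow (XX aa) (tt k) w)‖
        + 2 * η) haar := hi2.add (integrable_const _)
    rw [integral_add i1 hi1, integral_add hi2 (integrable_const _), integral_const, probReal_univ,
      one_smul]
  rw [e10, e8] at e9
  linarith

end Q176.TC
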