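import Mathlib

/-!
The Heisenberg nilmanifold, its nilflows and their time-changes: definitions.
-/

set_option autoImplicit false

open MeasureTheory Set Filter Topology

namespace Q176.TC

/-- The Heisenberg group: `(x, y, z)` stands for the upper triangular unipotent matrix with the
entries `x = a₁₂`, `y = a₂₃`, `z = a₁₃`. -/
def Heis : Type := ℝ × ℝ × ℝ

noncomputable instance : TopologicalSpace Heis := inferInstanceAs (TopologicalSpace (ℝ × ℝ × ℝ))

noncomputable instance : MeasurableSpace Heis := inferInstanceAs (MeasurableSpace (ℝ × ℝ × ℝ))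

/-- The product of the matrices. -/
noncomputable instance : Group Heis where
  mul g h := (g.1 + h.1, g.2.1 + h.2.1, g.2.2 + h.2.2 + g.1 * h.2.1)
  one := (0, 0, 0)
  inv g := (-g.1, -g.2.1, -g.2.2 + g.1 * g.2.1)
  mul_assoc a b c := by
    show ((_, _, _) : ℝ × ℝ × ℝ) = (_, _, _)
    refine Prod.ext ?_ (Prod.ext ?_ ?_)
    · show a.1 + b.1 + c.1 = a.1 + (b.1 + c.1)
      ring
    · show a.2.1 + b.2.1 + c.2.1 = a.2.1 + (b.2.1 + c.2.1)
      ring
    · show a.2.2 + b.2.2 + a.1 * b.2.1 + c.2.2 + (a.1 + b.1) * c.2.1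
        = a.2.2 + (b.2.2 + c.2.2 + b.1 * c.2.1) + a.1 * (b.2.1 + c.2.1)
      ring
  one_mul a := by
    refine Prod.ext ?_ (Prod.ext ?_ ?_)
    · show 0 + a.1 = a.1
      ring
    · show 0 + a.2.1 = a.2.1
      ring
    · show 0 + a.2.2 + 0 * a.2.1 = a.2.2
      ring
  mul_one a := by
    refine Prod.ext ?_ (Prod.ext ?_ ?_)
    · show a.1 + 0 = a.1
      ring
    · show a.2.1 + 0 = a.2.1
      ring
    · show a.2.2 + 0 + a.1 * 0 = a.2.2
      ring
  inv_mul_cancel a := by
    refine Prod.ext ?_ (Prod.ext ?_ ?_)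
    · show -a.1 + a.1 = 0
      ring
    · show -a.2.1 + a.2.1 = 0
      ring
    · show -a.2.2 + a.1 * a.2.1 + a.2.2 + -a.1 * a.2.1 = 0
      ring

/-- The lattice of the integer matrices. -/
def Lat : Subgroup Heis where
  carrier := {g | ∃ m n k : ℤ, g = ((m : ℝ), (n : ℝ), (k : ℝ))}
  mul_mem' := by
    rintro _ _ ⟨m, n, k, rfl⟩ ⟨m', n', k', rfl⟩
    refine ⟨m + m', n + n', k + k' + m * n', ?_⟩
    refine Prod.ext ?_ (Prod.ext ?_ ?_)
    · show (m : ℝ) + m' = ((m + m' : ℤ) : ℝ)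
      push_cast; ring
    · show (n : ℝ) + n' = ((n + n' : ℤ) : ℝ)
      push_cast; ring
    · show (k : ℝ) + k' + m * n' = ((k + k' + m * n' : ℤ) : ℝ)
      push_cast; ring
  one_mem' := ⟨0, 0, 0, by
    refine Prod.ext ?_ (Prod.ext ?_ ?_)
    · show (0 : ℝ) = ((0 : ℤ) : ℝ)
      push_cast; ring
    · show (0 : ℝ) = ((0 : ℤ) : ℝ)
      push_cast; ring
    · show (0 : ℝ) = ((0 : ℤ) : ℝ)
      push_cast; ring⟩
  inv_mem' := by
    rintro _ ⟨m, n, k, rfl⟩
    refine ⟨-m, -n, -k + m * n, ?_⟩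
    refine Prod.ext ?_ (Prod.ext ?_ ?_)
    · show -(m : ℝ) = ((-m : ℤ) : ℝ)
      push_cast; ring
    · show -(n : ℝ) = ((-n : ℤ) : ℝ)
      push_cast; ring
    · show -(k : ℝ) + m * n = ((-k + m * n : ℤ) : ℝ)
      push_cast; ring

/-- The Heisenberg nilmanifold `Γ \ G` of the classes `Γ g`. -/
def Nil : Type := Quotient (QuotientGroup.rightRel Lat)

noncomputable instance : TopologicalSpace Nil :=
  inferInstanceAs (TopologicalSpace (Quotient (QuotientGroup.rightRel Lat)))

noncomputable instance : MeasurableSpace Nil := borel Nil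

instance : BorelSpace Nil := ⟨rfl⟩

/-- The class `Γ g` of `g`. -/
noncomputable def mk (g : Heis) : Nil := Quotient.mk (QuotientGroup.rightRel Lat) g

/-- The class `Γ g` of the matrix `g` with the entries `x`, `y`, `z`. -/
noncomputable def pt (x y z : ℝ) : Nil := mk ((x, y, z) : ℝ × ℝ × ℝ)

/-- The right translation `Γ g ↦ Γ g h`. -/
noncomputable def rt (h : Heis) : Nil → Nil :=
  Quotient.map (· * h) fun a b hab => by
    have h1 : QuotientGroup.rightRel Lat a b := hab
    rw [QuotientGroup.rightRel_apply] at h1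
    show QuotientGroup.rightRel Lat (a * h) (b * h)
    rw [QuotientGroup.rightRel_apply]
    have h2 : b * h * (a * h)⁻¹ = b * a⁻¹ := by group
    rw [h2]
    exact h1

/-- The exponential map: `X = (x, y, z)` is the nilpotent matrix `N` with the entries `x`, `y`, `z`
at the same places, and `hexp X = 1 + N + N² / 2`. -/
noncomputable def hexp (X : ℝ × ℝ × ℝ) : Heis := (X.1, X.2.1, X.2.2 + X.1 * X.2.1 / 2)

/-- The nilflow `φ_t (Γ g) = Γ g exp (t X)`. -/
noncomputable def flow (X : ℝ × ℝ × ℝ) (t : ℝ) : Nil → Nil := rt (hexp (t • X))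

/-- The nilflow of `X` is parabolic: `X` is not central in the Lie algebra. -/
def Parabolic (X : ℝ × ℝ × ℝ) : Prop := X.1 ≠ 0 ∨ X.2.1 ≠ 0

/-- `μ` is the normalised Haar measure of the nilmanifold: a probability measure which is invariant
under all translations. -/
def IsHaar (μ : Measure Nil) : Prop := IsProbabilityMeasure μ ∧ ∀ h, μ.map (rt h) = μ

/-- `μ` is the only probability measure which is invariant under the nilflow of `X`. -/
def UniquelyErgodic (X : ℝ × ℝ × ℝ) (μ : Measure Nil) : Prop :=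
  (∀ t, μ.map (flow X t) = μ) ∧
    ∀ lam : Measure Nil, IsProbabilityMeasure lam → (∀ t, lam.map (flow X t) = lam) → lam = μ

/-- A function on the nilmanifold is smooth. -/
def Smooth (α : Nil → ℝ) : Prop :=
  ContDiff ℝ (⊤ : ℕ∞) fun g : ℝ × ℝ × ℝ => α (pt g.1 g.2.1 g.2.2)

/-- The function `α` is measurably cohomologous to a constant, along the nilflow of `X`. -/
def MeasurablyTrivial (X : ℝ × ℝ × ℝ) (μ : Measure Nil) (α : Nil → ℝ) : Prop :=
  ∃ c : ℝ, ∃ u : Nil → ℝ, Measurable u ∧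
    ∀ t, ∀ᵐ w ∂μ, u (flow X t w) - u w = ∫ s in (0 : ℝ)..t, (α (flow X s w) - c)

/-- `ψ` is the time-change of the nilflow of `X` with the function `α`, the flow of the vector field
`X / α`: the time `∫₀ᵗ α (φ_s w) ds` for `ψ` is the time `t` for `φ`. -/
def IsTimeChange (X : ℝ × ℝ × ℝ) (α : Nil → ℝ) (ψ : ℝ → Nil → Nil) : Prop :=
  ∀ t w, ψ (∫ s in (0 : ℝ)..t, α (flow X s w)) w = flow X t w

/-- The probability measure proportional to `α μ`. -/
noncomputable def weighted (μ : Measure Nil) (α : Nil → ℝ) : Measure Nil :=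
  μ.withDensity fun w => ENNReal.ofReal (α w / ∫ w', α w' ∂μ)

/-- The flow `ψ` is mixing for `ν`. -/
def Mixing (ψ : ℝ → Nil → Nil) (ν : Measure Nil) : Prop :=
  ∀ A B : Set Nil, MeasurableSet A → MeasurableSet B →
    Tendsto (fun t => ν.real (ψ t '' A ∩ B)) atTop (𝓝 (ν.real A * ν.real B))

/-- The flow `ψ` is weakly mixing for `ν`. -/
def WeaklyMixing (ψ : ℝ → Nil → Nil) (ν : Measure Nil) : Prop :=
  ∀ A B : Set Nil, MeasurableSet A → MeasurableSet B →
    Tendsto (fun t => 1 / t * ∫ s in (0 : ℝ)..t, |ν.real (ψ s '' A ∩ B) - ν.real A * ν.real B|)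
      atTop (𝓝 0)

end Q176.TC
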